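import Pool.Agent.Helper76.PP.Goals3

/-!
# Project PP, packet B_BLU: the characters of the first bilinear bound
-/

set_option autoImplicit false

namespace Pool.Agent.Helper35.PP

open NumberField Polynomial Module IsDedekindDomain
open Pool.Agent.Helper51.RP Pool.Agent.Helper42.RD Pool.Agent.Helper42.PP
open Pool.Agent.Helper76.PP
open Pool.Agent.Helper51.SigLeo (IwasawaLog)
open Pool.Agent.Helper51.PP (RC Chs)
open Pool.Agent.Helper17.PP (Sys)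

theorem sup_mul_top {R : Type} [CommRing R] {I A B : Ideal R} (hA : I ⊔ A = ⊤) (hB : I ⊔ B = ⊤) :
    I ⊔ A * B = ⊤ := by
  rw [← Ideal.isCoprime_iff_sup_eq] at hA hB ⊢
  exact IsCoprime.mul_right hA hB

theorem span_sup_top {R : Type} [CommRing R] {A : Ideal R} {α : R} (h : α - 1 ∈ A) :
    Ideal.span {α} ⊔ A = ⊤ := by
  rw [Ideal.eq_top_iff_one]
  have h1 : (1 : R) = α + -(α - 1) := by ring
  rw [h1]
  exact Submodule.add_mem_sup (Ideal.mem_span_singleton_self α) (A.neg_mem h)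

/-- A prime outside `S` is prime to `p`. -/
theorem val_p_eq_one (p : ℕ) {K : Type} [Field K] [NumberField K]
    {S : Finset (HeightOneSpectrum (𝓞 K))}
    (hS : ∀ v : HeightOneSpectrum (𝓞 K), v.valuation K (p : K) < 1 → v ∈ S)
    {v : HeightOneSpectrum (𝓞 K)} (hv : v ∉ S) : v.valuation K (p : K) = 1 := by
  have h8 : ¬ v.valuation K (p : K) < 1 := fun h => hv (hS v h)
  have h9 : v.valuation K (p : K) ≤ 1 := by
    rw [← map_natCast (algebraMap (𝓞 K) K) p]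
    exact v.valuation_le_one _
  exact le_antisymm h9 (not_lt.1 h8)

theorem b_blu (h1 : B_UPV) (h2 : B_PRC) (h3 : B_IDN) (h4 : B_KAP) (h5 : P_VIS) (_h6 : P_UPR) :
    B_BLU := by
  intro p hp k _ _ K M K₁ M₁ _ _ _ _ _ _ _ _ _ _ _ _ _ _ _ _ _ _ ε hT m δ ζ Φ P _ hΦ hδ hm B L T aτ
    E tr ψ₁ htr hψ
  obtain ⟨-, -, -, -, hkap⟩ := h4 p k m ζ Φ P hΦ
  obtain ⟨-, hkap2⟩ := hkap tr htr
  obtain ⟨hψ0, -, -⟩ := hkap2 ψ₁ hψ
  obtain ⟨hm0, hidn, hidn2⟩ := h3 p K M₁ B.S B.abp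
  have hup := h1 p k K M K₁ M₁ ε hT m δ ζ Φ P hΦ hδ hm B tr htr
  refine ⟨fun q y c t e ↦ chI (modu p M₁ B.S *
    q.1.1.asIdeal.map (algebraMap (𝓞 K) (𝓞 M₁))) ψ₁
    (psU B tr q.1.1 (t * y) (-((e : ZMod p) * (q.1.2 : ZMod p)⁻¹ * tr (y * c)))), ?_, ?_⟩
  · intro y c t e ht
    refine
      { m0 := hm0
        inj := ?_
        nW := ?_
        nne := ?_
        cop₀ := ?_
        cop := ?_
        rc := ?_
        nt := ?_ }
    · rintro q ⟨hq, hqe⟩ q' ⟨hq', hqe'⟩ h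
      have hq0 : q.1.1 ∈ B.Vis := hq
      have hq0' : q'.1.1 ∈ B.Vis := hq'
      have a1 : Above (B.W q.1.1) q.1.1 := (B.Wa _ hq0).1
      have a2 : Above (B.W q'.1.1) q'.1.1 := (B.Wa _ hq0').1
      have h' : B.W q.1.1 = B.W q'.1.1 := h
      have hv : q.1.1 = q'.1.1 := by
        apply HeightOneSpectrum.ext
        have a3 : (B.W q.1.1).asIdeal.comap (algebraMap (𝓞 K) (𝓞 M₁)) = q.1.1.asIdeal := a1
        have a4 : (B.W q'.1.1).asIdeal.comap (algebraMap (𝓞 K) (𝓞 M₁)) = q'.1.1.asIdeal := a2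
        rw [← a3, ← a4, h']
      exact Subtype.ext (Prod.ext hv (hqe.trans hqe'.symm))
    · rintro q ⟨hq, -⟩
      have hq0 : q.1.1 ∈ B.Vis := hq
      obtain ⟨hVIS, -, -⟩ := h5 p K M K₁ M₁ ε hT q.1.1 (val_p_eq_one p B.abp hq0.1)
      obtain ⟨hWv, -, -, hWf⟩ := B.Wa _ hq0
      exact (hVIS _ hWv hWf).1
    · rintro q ⟨hq, -⟩
      obtain ⟨g1, g2, g3, -, -⟩ := hidn q.1.1
      exact ⟨g1, g2, le_of_eq g3⟩
    · rintro q ⟨hq, -⟩
      have hq0 : q.1.1 ∈ B.Vis := hq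
      exact (hidn q.1.1).2.2.2.1 hq0.1
    · rintro q ⟨hq, -⟩ q' ⟨hq', -⟩ hne
      exact (hidn q.1.1).2.2.2.2 q'.1.1 (fun h => hne h.symm)
    · rintro q ⟨hq, -⟩
      have hq0 : q.1.1 ∈ B.Vis := hq
      exact h2 p M₁ _ _ (hup q.1.1 hq0 _ _).1 ψ₁
    · rintro q ⟨hq, hyq⟩
      have hq0 : q.1.1 ∈ B.Vis := hq
      obtain ⟨α, hα1, hα2, hα3⟩ := (hup q.1.1 hq0 (t * y q)
        (-((e : ZMod p) * (q.1.2 : ZMod p)⁻¹ * tr (y q * c q)))).2.2 (mul_ne_zero ht hyq)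
      refine ⟨α, hα1, hα2, ?_⟩
      have hα0 : Ideal.span {α} ≠ ⊥ := by
        intro h
        rw [h, bot_sup_eq] at hα2
        exact (hidn q.1.1).2.1 hα2
      have hcop : Ideal.span {α} ⊔ modu p M₁ B.S *
          q.1.1.asIdeal.map (algebraMap (𝓞 K) (𝓞 M₁)) = ⊤ :=
        sup_mul_top (span_sup_top hα1) hα2
      show chI _ ψ₁ _ (Ideal.span {α}) ≠ 1
      unfold chI
      rw [if_pos ⟨hα0, hcop⟩]
      intro h
      exact hα3 (hψ0 _ h)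
  · intro y c t q q' hq hq' hne
    have hq0 : q.1.1 ∈ B.Vis := hq
    have hq0' : q'.1.1 ∈ B.Vis := hq'
    have hvv : q.1.1 ≠ q'.1.1 := hne
    have hWv : Above (B.W q.1.1) q.1.1 := (B.Wa _ hq0).1
    have hcop : (B.W q.1.1).asIdeal ⊔ modu p M₁ B.S *
          q'.1.1.asIdeal.map (algebraMap (𝓞 K) (𝓞 M₁)) = ⊤ := by
      have g1 := hidn2 q.1.1 {q'.1.1} hq0.1 (by
        rw [Finset.mem_singleton]
        exact hvv) _ hWv
      unfold mD at g1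
      rw [Finset.prod_singleton] at g1
      exact g1
    show chI _ ψ₁ _ (B.W q.1.1).asIdeal = _
    unfold chI
    rw [if_pos ⟨(B.W q.1.1).ne_bot, hcop⟩, (hup q'.1.1 hq0' _ _).2.1 q.1.1 hq0]
    show ψ₁ _ = ψ₁ (tr (y * (t * B.A q'.1.1 q.1.1 + c * algebraMap (ZMod p) (AdjoinRoot P)
      (-((q.1.2 : ZMod p) * (q'.1.2 : ZMod p)⁻¹ * B.pi q'.1.1 q.1.1)))))
    congr 1
    have g2 : y * (t * B.A q'.1.1 q.1.1 + c * algebraMap (ZMod p) (AdjoinRoot P)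
      (-((q.1.2 : ZMod p) * (q'.1.2 : ZMod p)⁻¹ * B.pi q'.1.1 q.1.1))) =
        t * y * B.A q'.1.1 q.1.1 +
          (-((q.1.2 : ZMod p) * (q'.1.2 : ZMod p)⁻¹ * B.pi q'.1.1 q.1.1)) • (y * c) := by
      rw [Algebra.smul_def]
      ring
    rw [g2, map_add, map_smul, smul_eq_mul]
    ring

end Pool.Agent.Helper35.PP
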