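import Pool.Agent.Helper76.PP.Goals3
import Pool.Agent.Helper16.PP.PUPR
import Pool.Agent.Helper22.PP.POMG

/-!
# Project PP, packet B_UPH: upper primes which are not visible
-/

set_option autoImplicit false

namespace Pool.Agent.Helper35.PP

open NumberField Polynomial Module IsDedekindDomain
open Pool.Agent.Helper51.RP Pool.Agent.Helper42.RD Pool.Agent.Helper42.PP
open Pool.Agent.Helper76.PP
open scoped Pointwise
open Pool.Agent.Helper40.RS (bel gw bel_smul conj_of_bel val_smul gw_inj)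

theorem mem_of_prod {R ι : Type} [CommRing R] (A : Ideal R) (s : Finset ι) (f : ι → Ideal R)
    {x : R} (hx : x ∈ A * ∏ i ∈ s, f i) : x ∈ A ∧ ∀ i ∈ s, x ∈ f i := by
  have h2 : A * ∏ i ∈ s, f i ≤ A := Ideal.mul_le_left
  have h3 : A * ∏ i ∈ s, f i ≤ ∏ i ∈ s, f i := Ideal.mul_le_right
  refine ⟨h2 hx, fun i hi => ?_⟩
  have h1 : ∏ i ∈ s, f i ≤ f i := Ideal.prod_le_inf.trans (Finset.inf_le hi)
  exact h1 (h3 hx)

section aux

variable {K F F' : Type} [Field K] [NumberField K] [Field F] [NumberField F] [Field F']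
  [NumberField F'] [Algebra K F] [Algebra K F']

omit [NumberField F] in
/-- Elements of the ideal generated by `v` are divisible by the primes above `v`, after any
embedding over `K`. -/
theorem val_map_lt (φ : F →+* F') (hφ : ∀ a : K, φ (algebraMap K F a) = algebraMap K F' a)
    {v : HeightOneSpectrum (𝓞 K)} {w' : HeightOneSpectrum (𝓞 F')} (hw : Above w' v) (β : 𝓞 F)
    (hβ : β ∈ v.asIdeal.map (algebraMap (𝓞 K) (𝓞 F))) : w'.valuation F' (φ (β : F)) < 1 := by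
  have h1 : v.asIdeal.map (algebraMap (𝓞 K) (𝓞 F)) ≤
      w'.asIdeal.comap (RingOfIntegers.mapRingHom φ) := by
    rw [Ideal.map_le_iff_le_comap]
    intro a ha
    rw [Ideal.mem_comap, Ideal.mem_comap]
    have h2 : RingOfIntegers.mapRingHom φ (algebraMap (𝓞 K) (𝓞 F) a) =
        algebraMap (𝓞 K) (𝓞 F') a := by
      apply RingOfIntegers.ext
      exact hφ (a : K)
    rw [h2]
    have h3 : a ∈ w'.asIdeal.comap (algebraMap (𝓞 K) (𝓞 F')) := by
      have h4 : w'.asIdeal.comap (algebraMap (𝓞 K) (𝓞 F')) = v.asIdeal := hw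
      rw [h4]
      exact ha
    exact h3
  exact (HeightOneSpectrum.valuation_lt_one_iff_mem (K := F') w'
    (RingOfIntegers.mapRingHom φ β)).2 (h1 hβ)

/-- Membership in a prime, after an embedding. -/
theorem val_lt_of_mem [Algebra F F'] {w : HeightOneSpectrum (𝓞 F)} {w' : HeightOneSpectrum (𝓞 F')}
    (hw : Above w' w) (β : 𝓞 F) (hβ : β ∈ w.asIdeal) :
    w'.valuation F' (algebraMap F F' (β : F)) < 1 := by
  have h4 : w'.asIdeal.comap (algebraMap (𝓞 F) (𝓞 F')) = w.asIdeal := hw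
  rw [← h4] at hβ
  exact (HeightOneSpectrum.valuation_lt_one_iff_mem (K := F') w' (algebraMap (𝓞 F) (𝓞 F') β)).2 hβ

/-- Elements congruent to `1` modulo `p³ ∏_S`. -/
theorem locS_of_modu (p : ℕ) (S : Finset (HeightOneSpectrum (𝓞 K))) (x : Fˣ) (α : 𝓞 F)
    (hx : (x : F) = α) (hα : α - 1 ∈ modu p F S) : LocS p (up F S) x := by
  obtain ⟨h1, h5⟩ := mem_of_prod (Ideal.span {(p : 𝓞 F) ^ 3}) S
    (fun v => v.asIdeal.map (algebraMap (𝓞 K) (𝓞 F))) (x := α - 1) hα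
  refine ⟨1, ?_⟩
  rintro w ⟨v, hv, hw⟩
  have h0 : (x : F) * ((1 : Fˣ) : F) ^ p - 1 = ((α - 1 : 𝓞 F) : F) := by
    rw [Units.val_one, one_pow, mul_one, hx]
    rfl
  rw [h0]
  constructor
  · have h7 : α - 1 ∈ v.asIdeal.map (algebraMap (𝓞 K) (𝓞 F)) := h5 v hv
    have h6 := val_map_lt (K := K) (F := F) (F' := F) (RingHom.id F) (fun a => rfl) hw (α - 1) h7
    exact h6
  · obtain ⟨β, hβ⟩ := Ideal.mem_span_singleton.1 h1
    have h2 : ((α - 1 : 𝓞 F) : F) = (p : F) ^ 3 * (β : F) := by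
      rw [hβ]
      push_cast
      rfl
    rw [h2, map_mul, map_pow]
    have h3 : w.valuation F (β : F) ≤ 1 := w.valuation_le_one β
    exact mul_le_of_le_one_right' h3

theorem mem_mul_right {R : Type} [CommRing R] (A B : Ideal R) {x : R} (hx : x ∈ A * B) :
    x ∈ B := by
  have h3 : A * B ≤ B := Ideal.mul_le_right
  exact h3 hx

theorem mem_mul_left {R : Type} [CommRing R] (A B : Ideal R) {x : R} (hx : x ∈ A * B) :
    x ∈ A := by
  have h3 : A * B ≤ A := Ideal.mul_le_left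
  exact h3 hx

end aux

theorem b_uph (h1 : B_CHR) (h2 : B_IDN) (h3 : B_CRT) (h4 : B_LOG) (h5 : B_NRM) (_h6 : P_UPR)
    (h7 : P_VIS) : B_UPH := by
  intro p hp k _ _ K M K₁ M₁ _ _ _ _ _ _ _ _ _ _ _ _ _ _ _ _ _ _ ε hT m δ ζ Φ P hΦ hδ hm B v hv γ
  obtain ⟨hvS, -⟩ := id hv
  obtain ⟨hWv, hWQ, hWw, hWf⟩ := B.Wa v hv
  -- `v` is prime to `p`
  have hvp : v.valuation K (p : K) = 1 := by
    have h8 : ¬ v.valuation K (p : K) < 1 := fun h => hvS (B.abp v h)
    have h9 : v.valuation K (p : K) ≤ 1 := by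
      rw [← map_natCast (algebraMap (𝓞 K) K) p]
      exact v.valuation_le_one _
    exact le_antisymm h9 (not_lt.1 h8)
  obtain ⟨hVIS, -, -⟩ := h7 p K M K₁ M₁ ε hT v hvp
  obtain ⟨-, -, hVQ⟩ := hVIS (B.W v) hWv hWf
  obtain ⟨hQf, hQN, hQv⟩ := hVQ (B.Q v) hWQ
  obtain ⟨hN1, hN2, hN3⟩ := h5 p k K M K₁ M₁ ε hT m δ ζ Φ P hΦ hδ hm B
  obtain ⟨hRP, hGO⟩ := hN3 v hv
  obtain ⟨htw, htwS, htwL⟩ := hN2 (B.G v) hGO
  obtain ⟨hL1, ⟨c, hcv, hc⟩, hL3⟩ := h4 p K M K₁ M₁ ε hT δ P B v hv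
  obtain ⟨hm0, hidn, -⟩ := h2 p K K₁ B.S B.abp
  have hne : modu p K₁ B.S * v.asIdeal.map (algebraMap (𝓞 K) (𝓞 K₁)) ≠ ⊥ := by
    have := (hidn v).1
    exact mul_ne_zero hm0 this
  -- the functional on elements congruent to 1
  have key : ∀ (x : K₁ˣ) (α : 𝓞 K₁), (x : K₁) = α → α - 1 ∈ modu p K₁ B.S →
      B.tilw (B.G v) x = ∑ σ : K₁ ≃ₐ[K] K₁, (nsig p ε σ)⁻¹ * B.th v (inc K₁ M₁ (act σ x)) := by
    intro x α hx hα
    rw [htwL x (locS_of_modu p B.S x α hx hα)]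
    rfl
  obtain ⟨-, -, hPsi, hspan, hval⟩ := h1 p K₁ (up K₁ B.S) B.prK _ hne
    (fun x ↦ γ * B.tilw (B.G v) x) (fun x y => by
      show γ * B.tilw (B.G v) (x * y) = γ * B.tilw (B.G v) x + γ * B.tilw (B.G v) y
      rw [htw.1 x y, mul_add])
    (fun x hx => by rw [htwS x hx, mul_zero]) (by
      intro x α hx hα
      have hα1 : α - 1 ∈ modu p K₁ B.S := mem_mul_left _ _ hα
      have hα2 : α - 1 ∈ v.asIdeal.map (algebraMap (𝓞 K) (𝓞 K₁)) := mem_mul_right _ _ hα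
      rw [key x α hx hα1, Finset.sum_eq_zero, mul_zero]
      intro σ _
      rw [hL1, mul_zero]
      have h8 := val_map_lt (K := K) (F := K₁) (F' := M₁)
        ((algebraMap K₁ M₁).comp (σ : K₁ →+* K₁)) (fun a => by
          show algebraMap K₁ M₁ (σ (algebraMap K K₁ a)) = algebraMap K M₁ a
          rw [σ.commutes, ← IsScalarTower.algebraMap_apply]) hWv (α - 1) hα2
      have h9 : ((algebraMap K₁ M₁).comp (σ : K₁ →+* K₁)) ((α - 1 : 𝓞 K₁) : K₁) =
          ((inc K₁ M₁ (act σ x) : M₁ˣ) : M₁) - 1 := by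
        have h10 : ((α - 1 : 𝓞 K₁) : K₁) = (x : K₁) - 1 := by rw [hx]; rfl
        rw [h10, map_sub, map_one]
        rfl
      rw [h9] at h8
      exact h8)
  refine ⟨hPsi, ?_, ?_⟩
  · intro l hl
    exact hval (B.Q l) (B.y l) (B.yo l hl)
  · intro hγ
    obtain ⟨α, hα0, hα1, hαc, hαw, hcop1, hcop2⟩ := h3 p K K₁ B.S ∅ B.abp v hvS
      (Finset.notMem_empty v) c hcv (B.Q v) hQv
    have hα1' : α - 1 ∈ modu p K₁ B.S := by
      have h8 : mD p K₁ B.S ∅ = modu p K₁ B.S := by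
        unfold mD
        rw [Finset.prod_empty, mul_one]
      rw [← h8]
      exact hα1
    refine ⟨α, hα1', hcop1, ?_⟩
    have hx0 : (α : K₁) ≠ 0 := fun h => hα0 (RingOfIntegers.ext h)
    have hsp := hspan (Units.mk0 (α : K₁) hx0) α rfl
    have hsp' : psH B v γ (Ideal.span {α}) =
        γ * B.tilw (B.G v) (Units.mk0 (α : K₁) hx0) := hsp
    rw [hsp', key (Units.mk0 (α : K₁) hx0) α rfl hα1', Finset.sum_eq_single 1]
    · rw [Pool.Agent.Helper22.PP.nsig_one hT.prim, hc, inv_one, one_mul, mul_one]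
      · exact hγ
      · have h8 := val_lt_of_mem hWQ _ hαc
        have h9 : algebraMap K₁ M₁ ((α - algebraMap (𝓞 K) (𝓞 K₁) c : 𝓞 K₁) : K₁) =
            ((inc K₁ M₁ (act (1 : K₁ ≃ₐ[K] K₁) (Units.mk0 (α : K₁) hx0)) : M₁ˣ) : M₁) -
              algebraMap K M₁ (c : K) := by
          have h10 : ((α - algebraMap (𝓞 K) (𝓞 K₁) c : 𝓞 K₁) : K₁) =
              (α : K₁) - algebraMap K K₁ (c : K) := rfl
          rw [h10, map_sub, IsScalarTower.algebraMap_apply K K₁ M₁]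
          rfl
        rw [h9] at h8
        exact h8
    · intro σ _ hσ
      rw [hL1, mul_zero]
      -- the conjugate prime
      have h8 : gw σ⁻¹ (B.Q v) ≠ B.Q v := by
        intro h
        apply hσ
        have h10 : gw (1 : K₁ ≃ₐ[K] K₁) (B.Q v) = B.Q v := by
          apply HeightOneSpectrum.ext
          show (1 : K₁ ≃ₐ[K] K₁) • (B.Q v).asIdeal = (B.Q v).asIdeal
          rw [one_smul]
        have h11 := gw_inj (B.Q v) hQf (h.trans h10.symm)
        exact inv_eq_one.1 h11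
      have h9 : Above (gw σ⁻¹ (B.Q v)) v := by
        have h10 : bel K (gw σ⁻¹ (B.Q v)) = bel K (B.Q v) := bel_smul σ⁻¹ (B.Q v) _ rfl
        have h11 : bel K (B.Q v) = v := Pool.Agent.Helper40.RD.bel_of_above hQv
        exact congrArg HeightOneSpectrum.asIdeal (h10.trans h11)
      have h12 := hαw _ h9 h8
      have h13 : (gw σ⁻¹ (B.Q v)).valuation K₁ ((α - 1 : 𝓞 K₁) : K₁) < 1 :=
        (HeightOneSpectrum.valuation_lt_one_iff_mem (K := K₁) _ (α - 1)).2 h12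
      have h14 := val_smul σ (gw σ⁻¹ (B.Q v)) (B.Q v) (by
        show σ • (σ⁻¹ • (B.Q v).asIdeal) = (B.Q v).asIdeal
        rw [smul_inv_smul]) ((α - 1 : 𝓞 K₁) : K₁)
      rw [← h14] at h13
      have h15 : (σ • (α - 1 : 𝓞 K₁) : 𝓞 K₁) ∈ (B.Q v).asIdeal :=
        (HeightOneSpectrum.valuation_lt_one_iff_mem (K := K₁) _ _).1 h13
      have h16 := val_lt_of_mem hWQ _ h15
      have h17 : algebraMap K₁ M₁ ((σ • (α - 1 : 𝓞 K₁) : 𝓞 K₁) : K₁) =
          ((inc K₁ M₁ (act σ (Units.mk0 (α : K₁) hx0)) : M₁ˣ) : M₁) - 1 := by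
        have h18 : ((σ • (α - 1 : 𝓞 K₁) : 𝓞 K₁) : K₁) = σ ((α : K₁) - 1) := rfl
        rw [h18, map_sub, map_sub, map_one, map_one]
        rfl
      rw [h17] at h16
      exact h16
    · intro h
      exact absurd (Finset.mem_univ _) h

end Pool.Agent.Helper35.PP
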