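import Mathlib

/-!
Helper file for MP_bec853_al: crossing of almost invariant sets, surgery inequality.
-/

namespace Pool.Agent.Helper35.PP

variable {G : Type*}

/-- all four corners infinite -/
def Cross (P D : Set G) : Prop :=
  (P ∩ D).Infinite ∧ (P ∩ Dᶜ).Infinite ∧ (Pᶜ ∩ D).Infinite ∧ (Pᶜ ∩ Dᶜ).Infinite

/-- one of the four corners is finite -/
def Nested (P Q : Set G) : Prop :=
  (P ∩ Q).Finite ∨ (P ∩ Qᶜ).Finite ∨ (Pᶜ ∩ Q).Finite ∨ (Pᶜ ∩ Qᶜ).Finite

lemma Cross.compl_left {P D : Set G} (h : Cross P D) : Cross Pᶜ D :=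
  ⟨h.2.2.1, h.2.2.2, by rw [compl_compl]; exact h.1, by rw [compl_compl]; exact h.2.1⟩

lemma cross_compl_left {P D : Set G} : Cross Pᶜ D ↔ Cross P D :=
  ⟨fun h => by have := h.compl_left; rwa [compl_compl] at this, Cross.compl_left⟩

lemma Cross.compl_right {P D : Set G} (h : Cross P D) : Cross P Dᶜ :=
  ⟨h.2.1, by rw [compl_compl]; exact h.1, h.2.2.2, by rw [compl_compl]; exact h.2.2.1⟩

lemma cross_compl_right {P D : Set G} : Cross P Dᶜ ↔ Cross P D :=
  ⟨fun h => by have := h.compl_right; rwa [compl_compl] at this, Cross.compl_right⟩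

lemma Nested.compl_left {P Q : Set G} (h : Nested P Q) : Nested Pᶜ Q := by
  unfold Nested at *
  rw [compl_compl]
  tauto

lemma Nested.compl_right {P Q : Set G} (h : Nested P Q) : Nested P Qᶜ := by
  unfold Nested at *
  rw [compl_compl]
  tauto

/-- changing the second set by a finite amount does not matter -/
lemma Cross.congr_right {P D D' : Set G} (h : Cross P D) (h1 : (D \ D').Finite)
    (h2 : (D' \ D).Finite) : Cross P D' := by
  obtain ⟨a, b, c, d⟩ := h
  refine ⟨?_, ?_, ?_, ?_⟩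
  · intro hf
    apply a
    apply (hf.union h1).subset
    rintro x ⟨hx, hy⟩
    by_cases hd : x ∈ D'
    · exact Or.inl ⟨hx, hd⟩
    · exact Or.inr ⟨hy, hd⟩
  · intro hf
    apply b
    apply (hf.union h2).subset
    rintro x ⟨hx, hy⟩
    by_cases hd : x ∈ D'
    · exact Or.inr ⟨hd, hy⟩
    · exact Or.inl ⟨hx, hd⟩
  · intro hf
    apply c
    apply (hf.union h1).subset
    rintro x ⟨hx, hy⟩
    by_cases hd : x ∈ D'
    · exact Or.inl ⟨hx, hd⟩
    · exact Or.inr ⟨hy, hd⟩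
  · intro hf
    apply d
    apply (hf.union h2).subset
    rintro x ⟨hx, hy⟩
    by_cases hd : x ∈ D'
    · exact Or.inr ⟨hd, hy⟩
    · exact Or.inl ⟨hx, hd⟩

/-- Setting of a leaf: `P` almost contains `A`, almost misses `B`, and cuts `C`. -/
lemma cross_surgery {P Q A B C F : Set G} (hF : F.Finite)
    (hcov : ∀ h, h ∈ F ∨ h ∈ A ∨ h ∈ B ∨ h ∈ C) (hAC : ∀ h, h ∈ A → h ∉ C)
    (hBC : ∀ h, h ∈ B → h ∉ C)
    (hN : Nested Q P) (hA : (A ∩ Pᶜ).Finite) (hB : (B ∩ P).Finite)
    (hBi : B.Infinite) (hC1 : (C ∩ P).Infinite) (hC2 : (C ∩ Pᶜ).Infinite)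
    (hQ : Cross Q A) : Cross Q C ∧ ¬ Cross Q B := by
  obtain ⟨a, b, c, d⟩ := hQ
  rcases hN with h1 | h1 | h1 | h1
  · -- Q ∩ P finite
    exfalso
    apply a
    apply (h1.union hA).subset
    rintro x ⟨hx, hy⟩
    by_cases hp : x ∈ P
    · exact Or.inl ⟨hx, hp⟩
    · exact Or.inr ⟨hy, hp⟩
  · -- Q ⊂ P
    have hQB : (Q ∩ B).Finite := by
      apply (h1.union hB).subset
      rintro x ⟨hx, hy⟩
      by_cases hp : x ∈ P
      · exact Or.inr ⟨hy, hp⟩
      · exact Or.inl ⟨hx, hp⟩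
    refine ⟨⟨?_, ?_, ?_, ?_⟩, fun hc => hc.1 hQB⟩
    · intro hf
      apply b
      apply ((hf.union hQB).union hF).subset
      rintro x ⟨hx, hy⟩
      rcases hcov x with h | h | h | h
      · exact Or.inr h
      · exact absurd h hy
      · exact Or.inl (Or.inr ⟨hx, h⟩)
      · exact Or.inl (Or.inl ⟨hx, h⟩)
    · exact a.mono (fun x hx => ⟨hx.1, hAC x hx.2⟩)
    · intro hf
      apply hC2
      apply (hf.union h1).subset
      rintro x ⟨hx, hy⟩
      by_cases hq : x ∈ Q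
      · exact Or.inr ⟨hq, hy⟩
      · exact Or.inl ⟨hq, hx⟩
    · intro hf
      apply hBi
      apply (hf.union hQB).subset
      intro x hx
      by_cases hq : x ∈ Q
      · exact Or.inr ⟨hq, hx⟩
      · exact Or.inl ⟨hq, hBC x hx⟩
  · -- P ⊂ Q
    exfalso
    apply c
    apply (h1.union hA).subset
    rintro x ⟨hx, hy⟩
    by_cases hp : x ∈ P
    · exact Or.inl ⟨hx, hp⟩
    · exact Or.inr ⟨hy, hp⟩
  · -- Pᶜ ⊂ Q
    have hQB : (Qᶜ ∩ B).Finite := by
      apply (h1.union hB).subset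
      rintro x ⟨hx, hy⟩
      by_cases hp : x ∈ P
      · exact Or.inr ⟨hy, hp⟩
      · exact Or.inl ⟨hx, hp⟩
    refine ⟨⟨?_, ?_, ?_, ?_⟩, fun hc => hc.2.2.1 hQB⟩
    · intro hf
      apply hC2
      apply (hf.union h1).subset
      rintro x ⟨hx, hy⟩
      by_cases hq : x ∈ Q
      · exact Or.inl ⟨hq, hx⟩
      · exact Or.inr ⟨hq, hy⟩
    · exact a.mono (fun x hx => ⟨hx.1, hAC x hx.2⟩)
    · intro hf
      apply d
      apply ((hf.union hQB).union hF).subset
      rintro x ⟨hx, hy⟩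
      rcases hcov x with h | h | h | h
      · exact Or.inr h
      · exact absurd h hy
      · exact Or.inl (Or.inr ⟨hx, h⟩)
      · exact Or.inl (Or.inl ⟨hx, h⟩)
    · exact c.mono (fun x hx => ⟨hx.1, hAC x hx.2⟩)

variable [Group G]

/-- the translate `k⁻¹ E` -/
def tr (k : G) (E : Set G) : Set G := {h | k * h ∈ E}

lemma mem_tr {k h : G} {E : Set G} : h ∈ tr k E ↔ k * h ∈ E := Iff.rfl

lemma tr_compl (k : G) (E : Set G) : tr k Eᶜ = (tr k E)ᶜ := rfl

/-- the set of translates of `E` which cross `D` -/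
def crs (E D : Set G) : Set G := {k | Cross (tr k E) D}

lemma crs_compl_left (E D : Set G) : crs Eᶜ D = crs E D := by
  ext k
  exact cross_compl_left

/-- almost invariant with nested translates -/
structure Good (E : Set G) : Prop where
  ai : ∀ g, {h | h * g ∈ E ∧ h ∉ E}.Finite
  nest : ∀ k, Nested (tr k E) E

lemma Good.ai' {E : Set G} (h : Good E) (g : G) : {h | h ∈ E ∧ h * g ∉ E}.Finite := by
  have := (h.ai g⁻¹)
  apply (this.image (fun h => h * g⁻¹)).subset
  rintro x ⟨hx, hy⟩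
  refine ⟨x * g, ⟨?_, hy⟩, ?_⟩
  · simpa using hx
  · simp

lemma Good.compl {E : Set G} (h : Good E) : Good Eᶜ := by
  refine ⟨fun g => ?_, fun k => ?_⟩
  · apply (h.ai' g).subset
    rintro x ⟨hx, hy⟩
    exact ⟨by simpa using hy, hx⟩
  · exact (h.nest k).compl_left.compl_right

lemma Good.nest' {E : Set G} (h : Good E) (k g : G) : Nested (tr k E) (tr g E) := by
  have hk := h.nest (k * g⁻¹)
  have hinj : Function.Injective (fun x : G => g⁻¹ * x) := fun a b hab => by simpa using hab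
  have key : ∀ S T : Set G, (tr (k * g⁻¹) S ∩ T).Finite → (tr k S ∩ tr g T).Finite := by
    intro S T hST
    apply (hST.image (fun x => g⁻¹ * x)).subset
    rintro x ⟨hx, hy⟩
    refine ⟨g * x, ⟨?_, hy⟩, by simp⟩
    rw [mem_tr] at hx ⊢
    simpa [mul_assoc] using hx
  rcases hk with h1 | h1 | h1 | h1
  · exact Or.inl (key _ _ h1)
  · exact Or.inr (Or.inl (key _ _ h1))
  · exact Or.inr (Or.inr (Or.inl (key Eᶜ _ h1)))
  · exact Or.inr (Or.inr (Or.inr (key Eᶜ _ h1)))

/-- The surgery inequality. -/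
lemma surgery_ineq {E A B C F : Set G} (hE : Good E) (g : G) (hF : F.Finite)
    (hcov : ∀ h, h ∈ F ∨ h ∈ A ∨ h ∈ B ∨ h ∈ C) (hAC : ∀ h, h ∈ A → h ∉ C)
    (hBC : ∀ h, h ∈ B → h ∉ C)
    (hA : (A ∩ (tr g E)ᶜ).Finite) (hB : (B ∩ tr g E).Finite)
    (hAi : A.Infinite) (hBi : B.Infinite) (hC1 : (C ∩ tr g E).Infinite)
    (hC2 : (C ∩ (tr g E)ᶜ).Infinite) (hfin : (crs E C).Finite) :
    (crs E A).Finite ∧ (crs E B).Finite ∧
      (crs E A).ncard + (crs E B).ncard + 1 ≤ (crs E C).ncard := by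
  have h1 : ∀ k, k ∈ crs E A → k ∈ crs E C ∧ k ∉ crs E B := by
    intro k hk
    exact cross_surgery hF hcov hAC hBC (hE.nest' k g) hA hB hBi hC1 hC2 hk
  have h2 : ∀ k, k ∈ crs E B → k ∈ crs E C ∧ k ∉ crs E A := by
    intro k hk
    have hcov' : ∀ h, h ∈ F ∨ h ∈ B ∨ h ∈ A ∨ h ∈ C := by
      intro h
      rcases hcov h with h | h | h | h
      · exact Or.inl h
      · exact Or.inr (Or.inr (Or.inl h))
      · exact Or.inr (Or.inl h)
      · exact Or.inr (Or.inr (Or.inr h))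
    exact cross_surgery hF hcov' hBC hAC (hE.nest' k g).compl_right
      (by rw [compl_compl]; exact hB) hA hAi hC2 (by rw [compl_compl]; exact hC1) hk
  have hgA : g ∉ crs E A := by
    intro hk
    apply hk.2.2.1
    rw [Set.inter_comm]
    exact hA
  have hgB : g ∉ crs E B := by
    intro hk
    apply hk.1
    rw [Set.inter_comm]
    exact hB
  have hgC : g ∈ crs E C := by
    refine ⟨by rw [Set.inter_comm]; exact hC1, ?_, by rw [Set.inter_comm]; exact hC2, ?_⟩
    · intro hf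
      apply hAi
      apply (hf.union hA).subset
      intro x hx
      by_cases hp : x ∈ tr g E
      · exact Or.inl ⟨hp, hAC x hx⟩
      · exact Or.inr ⟨hx, hp⟩
    · intro hf
      apply hBi
      apply (hf.union hB).subset
      intro x hx
      by_cases hp : x ∈ tr g E
      · exact Or.inr ⟨hx, hp⟩
      · exact Or.inl ⟨hp, hBC x hx⟩
  have fA : (crs E A).Finite := hfin.subset (fun k hk => (h1 k hk).1)
  have fB : (crs E B).Finite := hfin.subset (fun k hk => (h2 k hk).1)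
  refine ⟨fA, fB, ?_⟩
  have hdisj : Disjoint (crs E A) (crs E B) := by
    rw [Set.disjoint_left]
    intro k hk
    exact (h1 k hk).2
  have hu : (crs E A ∪ crs E B).ncard = (crs E A).ncard + (crs E B).ncard :=
    Set.ncard_union_eq hdisj fA fB
  have hgu : g ∉ crs E A ∪ crs E B := by
    rintro (h | h)
    · exact hgA h
    · exact hgB h
  have hi : (insert g (crs E A ∪ crs E B)).ncard = (crs E A ∪ crs E B).ncard + 1 :=
    Set.ncard_insert_of_notMem hgu (fA.union fB)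
  rw [← hu, ← hi]
  apply Set.ncard_le_ncard _ hfin
  rintro k (rfl | hk | hk)
  · exact hgC
  · exact (h1 k hk).1
  · exact (h2 k hk).1

end Pool.Agent.Helper35.PP
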