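import Mathlib

/-!
Helper file for MP_bec853_al: heads of reduced words in a free group.
-/

namespace Pool.Agent.Helper35.PP

open FreeGroup

variable {α : Type*} [DecidableEq α]

/-- the inverse letter -/
def nv {α : Type*} (x : α × Bool) : α × Bool := (x.1, !x.2)

@[simp] lemma nv_nv {α : Type*} (x : α × Bool) : nv (nv x) = x := by simp [nv]

@[simp] lemma nv_fst {α : Type*} (x : α × Bool) : (nv x).1 = x.1 := rfl

lemma nv_ne {α : Type*} (x : α × Bool) : nv x ≠ x := by
  intro h
  have := congrArg Prod.snd h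
  simp [nv] at this

lemma nv_inj {α : Type*} {x y : α × Bool} (h : nv x = nv y) : x = y := by
  rw [← nv_nv x, h, nv_nv]

lemma red_of {α : Type*} {b L : List (α × Bool)} (hL : FreeGroup.IsReduced L)
    (h : ∃ a c, a ++ b ++ c = L) : FreeGroup.IsReduced b := by
  obtain ⟨a, c, rfl⟩ := h
  unfold FreeGroup.IsReduced at *
  exact (hL.left_of_append).right_of_append

/-- the group element of a letter -/
def el {α : Type*} (x : α × Bool) : FreeGroup α := FreeGroup.mk [x]

lemma el_nv {α : Type*} (x : α × Bool) : el (nv x) = (el x)⁻¹ := by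
  simp [el, nv, FreeGroup.inv_mk, FreeGroup.invRev]

@[simp] lemma el_mul_el_nv {α : Type*} (x : α × Bool) : el x * el (nv x) = 1 := by
  rw [el_nv]; simp

@[simp] lemma el_nv_mul_el {α : Type*} (x : α × Bool) : el (nv x) * el x = 1 := by
  rw [el_nv]; simp

/-- head of the reduced word -/
def hd (g : FreeGroup α) : Option (α × Bool) := g.toWord.head?

@[simp] lemma hd_one : hd (1 : FreeGroup α) = none := by simp [hd]

lemma hd_eq_none {g : FreeGroup α} : hd g = none ↔ g = 1 := by
  simp [hd]

lemma hd_inv (g : FreeGroup α) : hd g⁻¹ = (g.toWord.getLast?).map nv := by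
  unfold hd
  rw [toWord_inv]
  unfold FreeGroup.invRev
  rw [List.head?_reverse, List.getLast?_map]
  rfl

/-- no cancellation in a product -/
lemma toWord_mul_nc {g h : FreeGroup α} (H : ∀ x, hd g⁻¹ = some x → hd h ≠ some x) :
    (g * h).toWord = g.toWord ++ h.toWord := by
  rw [toWord_mul]
  apply FreeGroup.IsReduced.reduce_eq
  have hg := isReduced_toWord (x := g)
  have hh := isReduced_toWord (x := h)
  unfold FreeGroup.IsReduced at *
  rw [List.isChain_append]
  refine ⟨hg, hh, ?_⟩
  intro x hx y hy hxy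
  by_contra hne
  have hyx : y = nv x := by
    ext
    · exact hxy.symm
    · simp only [nv]
      cases hx2 : x.2 <;> cases hy2 : y.2 <;> simp_all
  have h1 : hd g⁻¹ = some y := by
    rw [hd_inv]
    rw [Option.mem_def] at hx
    rw [hx, hyx]
    rfl
  exact H y h1 hy

lemma norm_mul_nc {g h : FreeGroup α} (H : ∀ x, hd g⁻¹ = some x → hd h ≠ some x) :
    (g * h).norm = g.norm + h.norm := by
  unfold FreeGroup.norm
  rw [toWord_mul_nc H, List.length_append]

lemma hd_mul_nc {g h : FreeGroup α} (H : ∀ x, hd g⁻¹ = some x → hd h ≠ some x)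
    (hg : g ≠ 1) : hd (g * h) = hd g := by
  unfold hd
  rw [toWord_mul_nc H]
  apply List.head?_append_of_ne_nil
  intro h0
  exact hg (toWord_eq_nil_iff.1 h0)

@[simp] lemma toWord_el (x : α × Bool) : (el x).toWord = [x] := by
  simp [el, toWord_mk]

@[simp] lemma hd_el (x : α × Bool) : hd (el x) = some x := by simp [hd]

lemma el_ne_one (x : α × Bool) : el x ≠ (1 : FreeGroup α) := by
  intro h
  have := hd_el x
  rw [h, hd_one] at this
  cases this

/-- `x · g` starts with `x` iff `g` does not start with `x⁻¹`. -/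
lemma hd_el_mul_of {x : α × Bool} {g : FreeGroup α} (h : hd g ≠ some (nv x)) :
    hd (el x * g) = some x := by
  rw [hd_mul_nc _ (el_ne_one x), hd_el]
  intro y hy hgy
  rw [← el_nv, hd_el] at hy
  injection hy with hy
  subst hy
  exact h hgy

lemma toWord_el_mul_of {x : α × Bool} {g : FreeGroup α} (h : hd g ≠ some (nv x)) :
    (el x * g).toWord = x :: g.toWord := by
  rw [toWord_mul_nc, toWord_el]
  · rfl
  intro y hy hgy
  rw [← el_nv, hd_el] at hy
  injection hy with hy
  subst hy
  exact h hgy

lemma eq_el_mul_of_hd {x : α × Bool} {g : FreeGroup α} (h : hd g = some x) :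
    ∃ g', g = el x * g' ∧ hd g' ≠ some (nv x) ∧ g.toWord = x :: g'.toWord := by
  unfold hd at h
  obtain ⟨L, hL⟩ : ∃ L, g.toWord = x :: L := by
    cases hw : g.toWord with
    | nil => rw [hw] at h; simp at h
    | cons a L =>
      rw [hw] at h
      simp only [List.head?_cons, Option.some.injEq] at h
      exact ⟨L, by rw [h]⟩
  have hred : FreeGroup.IsReduced (x :: L) := by rw [← hL]; exact isReduced_toWord
  have hredL : FreeGroup.IsReduced L := red_of hred ⟨[x], [], by simp⟩
  refine ⟨FreeGroup.mk L, ?_, ?_, ?_⟩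
  · rw [← FreeGroup.mk_toWord (x := g), hL, el, FreeGroup.mul_mk]
    rfl
  · unfold hd
    rw [toWord_mk, hredL.reduce_eq]
    intro hc
    cases L with
    | nil => simp at hc
    | cons b L =>
      simp only [List.head?_cons, Option.some.injEq] at hc
      rw [isReduced_cons_cons] at hred
      have := hred.1 (by rw [hc]; rfl)
      rw [hc] at this
      simp [nv] at this
  · rw [toWord_mk, hredL.reduce_eq, hL]

lemma hd_nv_mul_iff {x : α × Bool} {g : FreeGroup α} :
    hd g = some x ↔ hd (el (nv x) * g) ≠ some (nv x) := by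
  constructor
  · intro h
    obtain ⟨g', rfl, h2, -⟩ := eq_el_mul_of_hd h
    rw [← mul_assoc, el_nv_mul_el, one_mul]
    exact h2
  · intro h
    have := hd_el_mul_of h
    rwa [← mul_assoc, el_mul_el_nv, one_mul] at this

lemma hd_ne_iff {x : α × Bool} {g : FreeGroup α} :
    hd (el x * g) = some x ↔ hd g ≠ some (nv x) := by
  constructor
  · intro h
    have := (hd_nv_mul_iff (x := x)).1 h
    rwa [← mul_assoc, el_nv_mul_el, one_mul] at this
  · exact hd_el_mul_of

/-- if `g₁` and `g₂` have different heads, `g₂⁻¹ g₁` is reduced. -/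
lemma toWord_inv_mul {g₁ g₂ : FreeGroup α} {x : α × Bool} (h1 : hd g₁ = some x)
    (h2 : hd g₂ ≠ some x) : (g₂⁻¹ * g₁).toWord = (g₂⁻¹).toWord ++ g₁.toWord := by
  apply toWord_mul_nc
  intro y hy hy1
  rw [inv_inv] at hy
  rw [h1] at hy1
  rw [← hy1] at hy
  exact h2 hy

lemma norm_inv_mul {g₁ g₂ : FreeGroup α} {x : α × Bool} (h1 : hd g₁ = some x)
    (h2 : hd g₂ ≠ some x) : (g₂⁻¹ * g₁).norm = g₂.norm + g₁.norm := by
  unfold FreeGroup.norm
  rw [toWord_inv_mul h1 h2, List.length_append, toWord_inv, invRev_length]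

lemma finite_norm_le [Fintype α] (n : ℕ) : {g : FreeGroup α | g.norm ≤ n}.Finite := by
  have h1 : {L : List (α × Bool) | L.length ≤ n}.Finite := List.finite_length_le _ n
  apply Set.Finite.of_finite_image (f := FreeGroup.toWord) _ (toWord_injective.injOn)
  apply h1.subset
  rintro _ ⟨g, hg, rfl⟩
  exact hg

end Pool.Agent.Helper35.PP
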