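import Mathlib
import Pool.Agent.Helper35.PP.Words
import Pool.Agent.Helper35.PP.Cross

/-!
Helper file for MP_bec853_al: finiteness of crossing sets, existence of leaves.
-/

namespace Pool.Agent.Helper35.PP

open FreeGroup

variable {α : Type*} [DecidableEq α]

/-- the cone of words starting with `x` -/
def Cn (x : α × Bool) : Set (FreeGroup α) := {g | hd g = some x}

lemma mem_Cn {x : α × Bool} {g : FreeGroup α} : g ∈ Cn x ↔ hd g = some x := Iff.rfl

lemma hd_el_pow (x : α × Bool) (n : ℕ) : hd (el x ^ (n + 1)) = some x := by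
  induction n with
  | zero => simp
  | succ n ih =>
    rw [pow_succ']
    apply hd_el_mul_of
    rw [ih]
    intro h
    injection h with h
    exact nv_ne x h.symm

lemma norm_el_pow (x : α × Bool) (n : ℕ) : (el x ^ n).norm = n := by
  induction n with
  | zero => simp
  | succ n ih =>
    rw [pow_succ']
    unfold FreeGroup.norm
    rw [toWord_el_mul_of]
    · rw [List.length_cons]
      unfold FreeGroup.norm at ih
      rw [ih]
    · cases n with
      | zero => simp
      | succ n =>
        rw [hd_el_pow]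
        intro h
        injection h with h
        exact nv_ne x h.symm

lemma Cn_infinite (x : α × Bool) : (Cn x).Infinite := by
  apply Set.infinite_of_injective_forall_mem (f := fun n : ℕ => el x ^ (n + 1))
  · intro a b hab
    have := congrArg FreeGroup.norm hab
    simp only [norm_el_pow] at this
    omega
  · intro n
    exact hd_el_pow x n

/-- remove the last letter -/
lemma exists_snoc {h : FreeGroup α} (hne : h ≠ 1) :
    ∃ h' y, h = h' * el y ∧ h.toWord = h'.toWord ++ [y] := by
  have h0 : h.toWord ≠ [] := fun h1 => hne (toWord_eq_nil_iff.1 h1)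
  obtain ⟨L, y, hL⟩ : ∃ L y, h.toWord = L ++ [y] :=
    ⟨_, _, (List.dropLast_append_getLast h0).symm⟩
  have hred : FreeGroup.IsReduced (L ++ [y]) := by rw [← hL]; exact isReduced_toWord
  have hredL : FreeGroup.IsReduced L := red_of hred ⟨[], [y], by simp⟩
  refine ⟨FreeGroup.mk L, y, ?_, ?_⟩
  · rw [el, FreeGroup.mul_mk, ← hL, FreeGroup.mk_toWord]
  · rw [toWord_mk, hredL.reduce_eq, hL]

/-- boundary vertices of `E` -/
def bdry (E : Set (FreeGroup α)) : Set (FreeGroup α) :=
  {h | ∃ y, (h * el y ∈ E ∧ h ∉ E) ∨ (h ∈ E ∧ h * el y ∉ E)}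

lemma bdry_finite [Fintype α] {E : Set (FreeGroup α)} (hE : Good E) : (bdry E).Finite := by
  have : bdry E = ⋃ y, ({h | h * el y ∈ E ∧ h ∉ E} ∪ {h | h ∈ E ∧ h * el y ∉ E}) := by
    ext h
    simp [bdry]
  rw [this]
  apply Set.finite_iUnion
  intro y
  exact (hE.ai _).union (hE.ai' _)

lemma connected_const {E S : Set (FreeGroup α)} {k p0 : FreeGroup α}
    (hS : ∀ h ∈ S, h ≠ p0 → ∃ h' ∈ S, ∃ y, h = h' * el y ∧ h'.norm < h.norm)
    (hb : ∀ h ∈ S, k * h ∉ bdry E) : ∀ h ∈ S, (k * h ∈ E ↔ k * p0 ∈ E) := by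
  intro h
  induction hn : h.norm using Nat.strong_induction_on generalizing h with
  | _ n ih =>
    intro hh
    by_cases h0 : h = p0
    · rw [h0]
    · obtain ⟨h', hh', y, rfl, hlt⟩ := hS h hh h0
      rw [← ih h'.norm (hn ▸ hlt) h' rfl hh']
      have := hb h' hh'
      unfold bdry at this
      simp only [Set.mem_setOf_eq, not_exists, not_or, not_and, not_not] at this
      rw [← mul_assoc]
      constructor
      · intro h1
        exact (this y).1 h1
      · intro h1
        exact (this y).2 h1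

lemma exists_bdry {E S : Set (FreeGroup α)} {k p0 : FreeGroup α}
    (hS : ∀ h ∈ S, h ≠ p0 → ∃ h' ∈ S, ∃ y, h = h' * el y ∧ h'.norm < h.norm)
    (h1 : (S ∩ tr k E).Infinite) (h2 : (S ∩ (tr k E)ᶜ).Infinite) :
    ∃ h ∈ S, k * h ∈ bdry E := by
  by_contra hcon
  push Not at hcon
  have := connected_const hS hcon
  obtain ⟨a, ha, ha'⟩ := h1.nonempty
  obtain ⟨b, hb, hb'⟩ := h2.nonempty
  apply hb'
  exact (this b hb).2 ((this a ha).1 ha')

/-- an initial segment closed set avoiding the head condition -/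
lemma conn_of_ne (o : Option (α × Bool)) (h : FreeGroup α)
    (hh : ∀ x, o = some x → hd h ≠ some x) (hne : h ≠ 1) :
    ∃ h', (∀ x, o = some x → hd h' ≠ some x) ∧ ∃ y, h = h' * el y ∧ h'.norm < h.norm := by
  obtain ⟨h', y, h1, h2⟩ := exists_snoc hne
  refine ⟨h', ?_, y, h1, ?_⟩
  · intro x hx hc
    apply hh x hx
    unfold hd at hc ⊢
    rw [h2]
    cases hw : h'.toWord with
    | nil => rw [hw] at hc; simp at hc
    | cons a L => rw [hw] at hc; simpa using hc
  · unfold FreeGroup.norm
    rw [h2]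
    simp

lemma conn_Cn (x : α × Bool) (h : FreeGroup α) (hh : h ∈ Cn x) (hne : h ≠ el x) :
    ∃ h' ∈ Cn x, ∃ y, h = h' * el y ∧ h'.norm < h.norm := by
  have h1ne : h ≠ 1 := by
    rintro rfl
    simp [mem_Cn] at hh
  obtain ⟨h', y, h1, h2⟩ := exists_snoc h1ne
  refine ⟨h', ?_, y, h1, ?_⟩
  · rw [mem_Cn] at hh ⊢
    unfold hd at hh ⊢
    rw [h2] at hh
    cases hw : h'.toWord with
    | nil =>
      exfalso
      rw [hw] at hh
      simp only [List.nil_append, List.head?_cons, Option.some.injEq] at hh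
      apply hne
      rw [toWord_eq_nil_iff] at hw
      rw [h1, hw, one_mul, hh]
    | cons a L => rw [hw] at hh; simpa using hh
  · unfold FreeGroup.norm
    rw [h2]
    simp

lemma crs_Cn_finite [Fintype α] {E : Set (FreeGroup α)} (hE : Good E) (x : α × Bool) :
    (crs E (Cn x)).Finite := by
  obtain ⟨M, hM⟩ : ∃ M, ∀ h ∈ bdry E, h.norm ≤ M := by
    have := (bdry_finite hE).image FreeGroup.norm
    obtain ⟨M, hM⟩ := this.bddAbove
    exact ⟨M, fun h hh => hM ⟨h, hh, rfl⟩⟩
  apply (finite_norm_le (α := α) (M + (M + M))).subset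
  intro k hk
  obtain ⟨a, b, c, d⟩ := hk
  have h1 : ∃ h ∈ Cn x, k * h ∈ bdry E := by
    apply exists_bdry (p0 := el x)
    · exact fun h hh hne => conn_Cn x h hh hne
    · rw [Set.inter_comm]; exact a
    · rw [Set.inter_comm]; exact c
  have h2 : ∃ h ∈ (Cn x)ᶜ, k * h ∈ bdry E := by
    apply exists_bdry (p0 := 1)
    · intro h hh hne
      obtain ⟨h', h3, y, h4, h5⟩ := conn_of_ne (some x) h
        (by rintro _ h0; injection h0 with h0; subst h0; exact hh) hne
      exact ⟨h', h3 x rfl, y, h4, h5⟩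
    · rw [Set.inter_comm]; exact b
    · rw [Set.inter_comm]; exact d
  obtain ⟨h, hh, hhb⟩ := h1
  obtain ⟨h', hh', hhb'⟩ := h2
  have e1 := norm_inv_mul hh hh'
  have e2 : h'⁻¹ * h = (k * h')⁻¹ * (k * h) := by group
  have e3 : (h'⁻¹ * h).norm ≤ M + M := by
    rw [e2]
    refine (FreeGroup.norm_mul_le _ _).trans ?_
    rw [FreeGroup.norm_inv_eq]
    exact Nat.add_le_add (hM _ hhb') (hM _ hhb)
  have e4 : k = (k * h) * h⁻¹ := by group
  have e5 : k.norm ≤ M + h.norm := by
    calc k.norm = ((k * h) * h⁻¹).norm := by rw [← e4]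
      _ ≤ (k * h).norm + (h⁻¹).norm := FreeGroup.norm_mul_le _ _
      _ ≤ M + h.norm := by
        rw [FreeGroup.norm_inv_eq]
        exact Nat.add_le_add_right (hM _ hhb) _
  show k.norm ≤ M + (M + M)
  omega

/-- A leaf of the tree of `E`, at vertex `g`. -/
structure IsLeaf (E : Set (FreeGroup α)) (g : FreeGroup α) (A B : Finset (α × Bool)) : Prop where
  disj : Disjoint A B
  neA : A.Nonempty
  neB : B.Nonempty
  hA : ∀ x ∈ A, (Cn x ∩ (tr g E)ᶜ).Finite
  hB : ∀ x ∈ B, (Cn x ∩ tr g E).Finite
  few : ∀ x y, x ∉ A → x ∉ B → y ∉ A → y ∉ B → x = y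
  hA' : ∀ x, x ∉ A → (Cn x ∩ (tr g E)ᶜ).Infinite
  hB' : ∀ x, x ∉ B → (Cn x ∩ tr g E).Infinite

lemma IsLeaf.compl {E : Set (FreeGroup α)} {g : FreeGroup α} {A B : Finset (α × Bool)}
    (h : IsLeaf E g A B) : IsLeaf Eᶜ g B A where
  disj := h.disj.symm
  neA := h.neB
  neB := h.neA
  hA := by intro x hx; rw [tr_compl, compl_compl]; exact h.hB x hx
  hB := by intro x hx; rw [tr_compl]; exact h.hA x hx
  few := fun x y a b c d => h.few x y b a d c
  hA' := by intro x hx; rw [tr_compl, compl_compl]; exact h.hB' x hx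
  hB' := by intro x hx; rw [tr_compl]; exact h.hA' x hx

lemma exists_leaf [Fintype α] {E : Set (FreeGroup α)} (hE : Good E) (h1 : E.Infinite)
    (h2 : (Eᶜ).Infinite) : ∃ g A B, IsLeaf E g A B := by
  classical
  obtain ⟨M, hM⟩ : ∃ M, ∀ h ∈ bdry E, h.norm ≤ M := by
    have := (bdry_finite hE).image FreeGroup.norm
    obtain ⟨M, hM⟩ := this.bddAbove
    exact ⟨M, fun h hh => hM ⟨h, hh, rfl⟩⟩
  let Q : FreeGroup α → Set (FreeGroup α) := fun g => {h | ∀ x, hd g⁻¹ = some x → hd h ≠ some x}
  let N : Set (FreeGroup α) := {g | (Q g ∩ tr g E).Infinite ∧ (Q g ∩ (tr g E)ᶜ).Infinite}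
  have hNle : ∀ g ∈ N, g.norm ≤ M := by
    intro g hg
    obtain ⟨h, hh, hhb⟩ := exists_bdry (E := E) (S := Q g) (k := g) (p0 := 1)
      (by
        intro h hh hne
        exact conn_of_ne (hd g⁻¹) h hh hne) hg.1 hg.2
    have := norm_mul_nc (g := g) (h := h) hh
    have h3 := hM _ hhb
    omega
  have hNfin : N.Finite := (finite_norm_le M).subset hNle
  have h1N : (1 : FreeGroup α) ∈ N := by
    have hQ : Q 1 = Set.univ := by
      ext h
      simp [Q]
    have ht : tr 1 E = E := by
      ext h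
      simp [mem_tr]
    refine ⟨?_, ?_⟩
    · rw [hQ, ht, Set.univ_inter]; exact h1
    · rw [hQ, ht, Set.univ_inter]; exact h2
  obtain ⟨g, hgN, hmax⟩ := Set.exists_max_image N FreeGroup.norm hNfin ⟨1, h1N⟩
  -- children are monochrome
  have hmono : ∀ x, hd g⁻¹ ≠ some x → (Cn x ∩ tr g E).Finite ∨ (Cn x ∩ (tr g E)ᶜ).Finite := by
    intro x hx
    by_contra hcon
    push Not at hcon
    have hne : g * el x ∈ N := by
      have hhd : hd (g * el x)⁻¹ = some (nv x) := by
        rw [mul_inv_rev, ← el_nv]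
        apply hd_el_mul_of
        rw [nv_nv]
        exact hx
      have key : ∀ T : Set (FreeGroup α), (Cn x ∩ tr g T).Infinite →
          (Q (g * el x) ∩ tr (g * el x) T).Infinite := by
        intro T hT hf
        apply hT
        apply (hf.image (fun h => el x * h)).subset
        rintro p ⟨hp1, hp2⟩
        obtain ⟨p', rfl, hp3, -⟩ := eq_el_mul_of_hd hp1
        refine ⟨p', ⟨?_, ?_⟩, rfl⟩
        · intro y hy
          rw [hhd] at hy
          injection hy with hy
          subst hy
          exact hp3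
        · rw [mem_tr] at hp2 ⊢
          rwa [mul_assoc]
      exact ⟨key E hcon.1, key Eᶜ hcon.2⟩
    have := hmax _ hne
    have h3 : (g * el x).norm = g.norm + (el x).norm := by
      apply norm_mul_nc
      intro y hy
      rw [hd_el]
      intro h
      injection h with h
      subst h
      exact hx hy
    have h4 : (el x).norm = 1 := by
      unfold FreeGroup.norm
      rw [toWord_el]
      rfl
    omega
  have hdis : ∀ x, (Cn x ∩ tr g E).Finite → (Cn x ∩ (tr g E)ᶜ).Finite → False := by
    intro x ha hb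
    apply Cn_infinite x
    apply (ha.union hb).subset
    intro p hp
    by_cases h : p ∈ tr g E
    · exact Or.inl ⟨hp, h⟩
    · exact Or.inr ⟨hp, h⟩
  have hcov : ∀ T : Set (FreeGroup α), (∀ x, hd g⁻¹ ≠ some x → (Cn x ∩ T).Finite) →
      (Q g ∩ T).Finite := by
    intro T hT
    have : Q g ∩ T ⊆ {1} ∪ ⋃ x ∈ {x | hd g⁻¹ ≠ some x}, (Cn x ∩ T) := by
      rintro p ⟨hp, hpT⟩
      by_cases h1 : p = 1
      · exact Or.inl h1
      · right
        obtain ⟨x, hx⟩ : ∃ x, hd p = some x := by
          cases hh : hd p with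
          | none => exact absurd (hd_eq_none.1 hh) h1
          | some x => exact ⟨x, rfl⟩
        simp only [Set.mem_iUnion]
        exact ⟨x, fun hc => hp x hc hx, hx, hpT⟩
    apply Set.Finite.subset _ this
    apply Set.Finite.union (Set.finite_singleton _)
    apply Set.Finite.biUnion (Set.toFinite _)
    exact hT
  refine ⟨g, Finset.univ.filter (fun x => (Cn x ∩ (tr g E)ᶜ).Finite),
    Finset.univ.filter (fun x => (Cn x ∩ tr g E).Finite), ?_⟩
  refine ⟨?_, ?_, ?_, ?_, ?_, ?_, ?_, ?_⟩
  · rw [Finset.disjoint_left]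
    intro x hx hx'
    rw [Finset.mem_filter] at hx hx'
    exact hdis x hx'.2 hx.2
  · by_contra hcon
    rw [Finset.not_nonempty_iff_eq_empty, Finset.filter_eq_empty_iff] at hcon
    apply hgN.1
    apply hcov
    intro x hx
    rcases hmono x hx with h | h
    · exact h
    · exact absurd h (hcon (Finset.mem_univ x))
  · by_contra hcon
    rw [Finset.not_nonempty_iff_eq_empty, Finset.filter_eq_empty_iff] at hcon
    apply hgN.2
    apply hcov
    intro x hx
    rcases hmono x hx with h | h
    · exact absurd h (hcon (Finset.mem_univ x))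
    · exact h
  · intro x hx
    exact (Finset.mem_filter.1 hx).2
  · intro x hx
    exact (Finset.mem_filter.1 hx).2
  · intro x y hx1 hx2 hy1 hy2
    simp only [Finset.mem_filter, Finset.mem_univ, true_and] at hx1 hx2 hy1 hy2
    have e1 : hd g⁻¹ = some x := by
      by_contra h
      rcases hmono x h with h | h
      · exact hx2 h
      · exact hx1 h
    have e2 : hd g⁻¹ = some y := by
      by_contra h
      rcases hmono y h with h | h
      · exact hy2 h
      · exact hy1 h
    rw [e1] at e2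
    injection e2
  · intro x hx
    simpa using hx
  · intro x hx
    simpa using hx

end Pool.Agent.Helper35.PP
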