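import Mathlib
import Pool.Agent.Helper35.PP.Leaf

/-!
Helper file for MP_bec853_al: the surgery step and the structure theorem.
-/

namespace Pool.Agent.Helper35.PP

open FreeGroup

variable {α : Type*} [DecidableEq α]

/-- the free factor of all elements not involving the generator `i` -/
def ZS (i : α) : Subgroup (FreeGroup α) where
  carrier := {h | ∀ p ∈ h.toWord, p.1 ≠ i}
  one_mem' := by simp
  mul_mem' := by
    intro a b ha hb p hp
    have := (toWord_mul_sublist a b).subset hp
    rw [List.mem_append] at this
    rcases this with h | h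
    · exact ha p h
    · exact hb p h
  inv_mem' := by
    intro a ha p hp
    rw [toWord_inv] at hp
    unfold FreeGroup.invRev at hp
    rw [List.mem_reverse, List.mem_map] at hp
    obtain ⟨q, hq, rfl⟩ := hp
    exact ha q hq

lemma mem_ZS {i : α} {h : FreeGroup α} : h ∈ ZS i ↔ ∀ p ∈ h.toWord, p.1 ≠ i := Iff.rfl

lemma el_mem_ZS {i : α} {x : α × Bool} (h : x.1 ≠ i) : el x ∈ ZS i := by
  intro p hp
  rw [toWord_el, List.mem_singleton] at hp
  subst hp
  exact h

lemma hd_of_mem_ZS {i : α} {h : FreeGroup α} (hh : h ∈ ZS i) {x : α × Bool}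
    (hx : hd h = some x) : x.1 ≠ i := by
  apply hh
  unfold hd at hx
  exact List.mem_of_mem_head? hx

/-- induction on reduced words -/
lemma word_induction {P : FreeGroup α → Prop} (h1 : P 1)
    (hs : ∀ x g', hd g' ≠ some (nv x) → P g' → P (el x * g')) (g : FreeGroup α) : P g := by
  induction hn : g.norm using Nat.strong_induction_on generalizing g with
  | _ n ih =>
    cases hh : hd g with
    | none => rw [hd_eq_none.1 hh]; exact h1
    | some x =>
      obtain ⟨g', rfl, h2, h3⟩ := eq_el_mul_of_hd hh
      apply hs x g' h2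
      apply ih g'.norm _ g' rfl
      rw [← hn]
      unfold FreeGroup.norm
      rw [h3]
      simp

/-- `a ↦ v a u`, all other generators fixed -/
def theta (i : α) (v u : FreeGroup α) : FreeGroup α →* FreeGroup α :=
  FreeGroup.lift (fun j => if j = i then v * of i * u else of j)

lemma theta_of_self (i : α) (v u : FreeGroup α) : theta i v u (of i) = v * of i * u := by
  simp [theta]

lemma theta_of_ne {i j : α} (v u : FreeGroup α) (h : j ≠ i) : theta i v u (of j) = of j := by
  simp [theta, h]

lemma el_true (j : α) : el (j, true) = of j := rfl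

lemma el_false (j : α) : el (j, false) = (of j)⁻¹ := by
  have := el_nv (j, true)
  simpa [nv, el_true] using this

lemma theta_el_ne {i : α} {x : α × Bool} (v u : FreeGroup α) (h : x.1 ≠ i) :
    theta i v u (el x) = el x := by
  obtain ⟨j, b⟩ := x
  cases b
  · rw [el_false, _root_.map_inv, theta_of_ne v u h]
  · rw [el_true, theta_of_ne v u h]

lemma theta_fix {i : α} (v u : FreeGroup α) {h : FreeGroup α} (hh : h ∈ ZS i) :
    theta i v u h = h := by
  revert hh
  refine word_induction (P := fun h => h ∈ ZS i → theta i v u h = h) ?_ ?_ h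
  · intro _; exact _root_.map_one _
  · intro x g' hx ih hh
    have hw := toWord_el_mul_of hx
    have hx1 : x.1 ≠ i := hh x (by rw [hw]; simp)
    have hg' : g' ∈ ZS i := fun p hp => hh p (by rw [hw]; exact List.mem_cons_of_mem _ hp)
    rw [_root_.map_mul, ih hg', theta_el_ne v u hx1]

lemma theta_theta {i : α} {v₁ u₁ v₂ u₂ : FreeGroup α} (hv : v₂ ∈ ZS i) (hu : u₂ ∈ ZS i)
    (g : FreeGroup α) :
    theta i v₁ u₁ (theta i v₂ u₂ g) = theta i (v₂ * v₁) (u₁ * u₂) g := by
  have : (theta i v₁ u₁).comp (theta i v₂ u₂) = theta i (v₂ * v₁) (u₁ * u₂) := by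
    apply FreeGroup.ext_hom
    intro j
    rw [MonoidHom.comp_apply]
    by_cases h : j = i
    · subst h
      rw [theta_of_self, theta_of_self, _root_.map_mul, _root_.map_mul, theta_of_self, theta_fix _ _ hv,
        theta_fix _ _ hu]
      group
    · rw [theta_of_ne _ _ h, theta_of_ne _ _ h, theta_of_ne _ _ h]
  rw [← this]
  rfl

lemma theta_one (i : α) (g : FreeGroup α) : theta i 1 1 g = g := by
  have : theta i 1 1 = MonoidHom.id (FreeGroup α) := by
    apply FreeGroup.ext_hom
    intro j
    by_cases h : j = i
    · subst h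
      rw [theta_of_self]
      simp
    · rw [theta_of_ne _ _ h]
      rfl
  rw [this]
  rfl

/-- `theta` as an automorphism -/
def thetaE (i : α) (v u : FreeGroup α) (hv : v ∈ ZS i) (hu : u ∈ ZS i) :
    FreeGroup α ≃* FreeGroup α :=
  { theta i v u with
    toFun := theta i v u
    invFun := theta i v⁻¹ u⁻¹
    left_inv := by
      intro g
      rw [theta_theta hv hu]
      simp [theta_one]
    right_inv := by
      intro g
      rw [theta_theta ((ZS i).inv_mem hv) ((ZS i).inv_mem hu)]
      simp [theta_one] }

@[simp] lemma thetaE_apply (i : α) (v u : FreeGroup α) (hv : v ∈ ZS i) (hu : u ∈ ZS i)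
    (g : FreeGroup α) : thetaE i v u hv hu g = theta i v u g := rfl

lemma theta_injective {i : α} {v u : FreeGroup α} (hv : v ∈ ZS i) (hu : u ∈ ZS i) :
    Function.Injective (theta i v u) := (thetaE i v u hv hu).injective

lemma theta_surjective {i : α} {v u : FreeGroup α} (hv : v ∈ ZS i) (hu : u ∈ ZS i) :
    Function.Surjective (theta i v u) := (thetaE i v u hv hu).surjective

/-- elements outside the free factor keep their head -/
lemma hd_mul_ZS {i : α} (k : FreeGroup α) :
    ∀ h, k ∉ ZS i → h ∈ ZS i → hd (k * h) = hd k := by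
  induction hn : k.norm using Nat.strong_induction_on generalizing k with
  | _ n ih =>
    intro h hk hh
    have k1 : k ≠ 1 := by rintro rfl; exact hk (ZS i).one_mem
    obtain ⟨k', y, h1, h2⟩ := exists_snoc k1
    by_cases hy : y.1 = i
    · apply hd_mul_nc _ k1
      intro x hx hhx
      rw [h1, mul_inv_rev, ← el_nv] at hx
      have hky : hd k'⁻¹ ≠ some (nv (nv y)) := by
        rw [nv_nv]
        intro hc
        -- then k' ends with nv y, not reduced
        rw [hd_inv] at hc
        cases hl : k'.toWord.getLast? with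
        | none => rw [hl] at hc; simp at hc
        | some z =>
          rw [hl] at hc
          simp only [Option.map_some, Option.some.injEq] at hc
          have hred : FreeGroup.IsReduced (k'.toWord ++ [y]) := by
            rw [← h2]; exact isReduced_toWord
          unfold FreeGroup.IsReduced at hred
          rw [List.isChain_append] at hred
          have := hred.2.2 z hl y (by simp) (by rw [← hc]; rfl)
          rw [← hc] at this
          simp [nv] at this
      rw [hd_el_mul_of hky] at hx
      injection hx with hx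
      have := hd_of_mem_ZS hh hhx
      rw [← hx] at this
      exact this hy
    · have hk' : k' ∉ ZS i := by
        intro hc
        apply hk
        rw [h1]
        exact (ZS i).mul_mem hc (el_mem_ZS hy)
      have hlt : k'.norm < n := by
        rw [← hn]
        unfold FreeGroup.norm
        rw [h2]
        simp
      have e1 := ih _ hlt k' rfl (el y * h) hk' ((ZS i).mul_mem (el_mem_ZS hy) hh)
      rw [h1, mul_assoc, e1]
      have k'1 : k' ≠ 1 := by rintro rfl; exact hk' (ZS i).one_mem
      unfold hd
      rw [← h1, h2]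
      rw [List.head?_append_of_ne_nil]
      intro h0
      exact k'1 (toWord_eq_nil_iff.1 h0)

/-- the set `E` cuts some coset of the free factor `ZS i` -/
def CutsZ (i : α) (E : Set (FreeGroup α)) : Prop :=
  ∃ g0, {h | h ∈ ZS i ∧ g0 * h ∈ E}.Infinite ∧ {h | h ∈ ZS i ∧ g0 * h ∉ E}.Infinite

lemma CutsZ.compl {i : α} {E : Set (FreeGroup α)} (h : CutsZ i E) : CutsZ i Eᶜ := by
  obtain ⟨g0, h1, h2⟩ := h
  refine ⟨g0, h2, ?_⟩
  convert h1 using 3
  simp

lemma CutsZ.infinite {i : α} {E : Set (FreeGroup α)} (h : CutsZ i E) : E.Infinite := by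
  obtain ⟨g0, h1, -⟩ := h
  intro hf
  apply h1
  apply (hf.image (fun p => g0⁻¹ * p)).subset
  rintro h ⟨-, hh⟩
  exact ⟨g0 * h, hh, by simp⟩

lemma CutsZ.theta {i : α} {E : Set (FreeGroup α)} (h : CutsZ i E) {v u : FreeGroup α}
    (hv : v ∈ ZS i) (hu : u ∈ ZS i) : CutsZ i (theta i v u ⁻¹' E) := by
  obtain ⟨g0, h1, h2⟩ := h
  obtain ⟨g1, rfl⟩ := theta_surjective hv hu g0
  refine ⟨g1, ?_, ?_⟩
  · convert h1 using 1
    ext h
    constructor
    · rintro ⟨ha, hb⟩
      refine ⟨ha, ?_⟩
      rw [Set.mem_preimage, _root_.map_mul, theta_fix _ _ ha] at hb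
      exact hb
    · rintro ⟨ha, hb⟩
      refine ⟨ha, ?_⟩
      rw [Set.mem_preimage, _root_.map_mul, theta_fix _ _ ha]
      exact hb
  · convert h2 using 1
    ext h
    constructor
    · rintro ⟨ha, hb⟩
      refine ⟨ha, ?_⟩
      rw [Set.mem_preimage, _root_.map_mul, theta_fix _ _ ha] at hb
      exact hb
    · rintro ⟨ha, hb⟩
      refine ⟨ha, ?_⟩
      rw [Set.mem_preimage, _root_.map_mul, theta_fix _ _ ha]
      exact hb

lemma infinite_preimage {G H : Type*} (f : G ≃ H) (S : Set H) :
    (f ⁻¹' S).Infinite ↔ S.Infinite := by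
  rw [← not_iff_not, Set.not_infinite, Set.not_infinite]
  constructor
  · intro h
    have := h.image f
    rwa [Set.image_preimage_eq _ f.surjective] at this
  · intro h
    exact h.preimage f.injective.injOn

lemma cross_preimage {G H : Type*} (f : G ≃ H) (P D : Set H) :
    Cross (f ⁻¹' P) (f ⁻¹' D) ↔ Cross P D := by
  unfold Cross
  rw [← Set.preimage_compl, ← Set.preimage_compl, ← Set.preimage_inter, ← Set.preimage_inter,
    ← Set.preimage_inter, ← Set.preimage_inter, infinite_preimage, infinite_preimage,
    infinite_preimage, infinite_preimage]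

lemma nested_preimage {G H : Type*} (f : G ≃ H) (P D : Set H) :
    Nested (f ⁻¹' P) (f ⁻¹' D) ↔ Nested P D := by
  have h := fun S : Set H => not_congr (infinite_preimage f S)
  simp only [Set.not_infinite] at h
  unfold Nested
  rw [← Set.preimage_compl, ← Set.preimage_compl, ← Set.preimage_inter, ← Set.preimage_inter,
    ← Set.preimage_inter, ← Set.preimage_inter, h, h, h, h]

lemma Good.preimage {E : Set (FreeGroup α)} (hE : Good E)
    (f : FreeGroup α ≃* FreeGroup α) : Good (f ⁻¹' E) := by
  refine ⟨fun g => ?_, fun k => ?_⟩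
  · have := (hE.ai (f g)).preimage (f := f) f.injective.injOn
    apply this.subset
    rintro h ⟨h1, h2⟩
    refine ⟨?_, h2⟩
    rw [Set.mem_preimage, _root_.map_mul] at h1
    exact h1
  · have h1 := hE.nest (f k)
    have h2 := (nested_preimage f.toEquiv (tr (f k) E) E).2 h1
    have h3 : tr k (f ⁻¹' E) = f.toEquiv ⁻¹' (tr (f k) E) := by
      ext h
      show f (k * h) ∈ E ↔ f k * f h ∈ E
      rw [_root_.map_mul]
    rw [h3]
    exact h2

lemma ncard_preimage_equiv {G H : Type*} (f : G ≃ H) (S : Set H) :
    (f ⁻¹' S).ncard = S.ncard := by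
  rw [← Set.ncard_image_of_injective (f ⁻¹' S) f.injective, Set.image_preimage_eq _ f.surjective]

lemma ncard_crs_tr (E D : Set (FreeGroup α)) (m : FreeGroup α) :
    (crs E (tr m D)).ncard = (crs E D).ncard := by
  have h : crs E (tr m D) = (Equiv.mulRight m⁻¹) ⁻¹' (crs E D) := by
    ext k
    show Cross (tr k E) (tr m D) ↔ Cross (tr (k * m⁻¹) E) D
    rw [← cross_preimage (Equiv.mulLeft m) (tr (k * m⁻¹) E) D]
    have e1 : (Equiv.mulLeft m) ⁻¹' (tr (k * m⁻¹) E) = tr k E := by
      ext p
      show k * m⁻¹ * (m * p) ∈ E ↔ k * p ∈ E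
      rw [mul_assoc, inv_mul_cancel_left]
    rw [e1]
    rfl
  rw [h, ncard_preimage_equiv]

lemma ncard_crs_nv (E : Set (FreeGroup α)) (x : α × Bool) :
    (crs E (Cn (nv x))).ncard = (crs E (Cn x)).ncard := by
  have h : Cn (nv x) = tr (el x) (Cn x)ᶜ := by
    ext p
    show hd p = some (nv x) ↔ ¬ (hd (el x * p) = some x)
    rw [hd_ne_iff, not_not]
  rw [h, ncard_crs_tr]
  congr 1
  ext k
  exact cross_compl_right

/-- the complexity -/
noncomputable def cx [Fintype α] (E : Set (FreeGroup α)) : ℕ :=
  ∑ j : α, (crs E (Cn (j, true))).ncard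

lemma cx_compl [Fintype α] (E : Set (FreeGroup α)) : cx Eᶜ = cx E := by
  unfold cx
  simp only [crs_compl_left]

/-- new head after the surgery -/
noncomputable def del (A : Finset (α × Bool)) (l : α × Bool) (p : FreeGroup α) :
    Option (α × Bool) := by
  classical
  exact
  if ∃ y ∈ A, hd p = some y then some l
  else if ∃ y ∈ A, hd (el l * p) = some y then hd (el l * p)
  else hd p

section Del

variable {A : Finset (α × Bool)} {l : α × Bool} {i : α}

lemma del_of_mem {p : FreeGroup α} {y : α × Bool} (hy : y ∈ A) (hp : hd p = some y) :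
    del A l p = some l := by
  unfold del
  rw [if_pos ⟨y, hy, hp⟩]

lemma del_of_mem' (hA : ∀ y ∈ A, y.1 = i) (hl : l.1 ≠ i) {p : FreeGroup α} {y : α × Bool}
    (hy : y ∈ A) (hp : hd (el l * p) = some y) : del A l p = some y := by
  have hyl : y ≠ l := by rintro rfl; exact hl (hA _ hy)
  have hpl : hd p = some (nv l) := by
    by_contra h
    rw [hd_el_mul_of h] at hp
    injection hp with hp
    exact hyl hp.symm
  unfold del
  rw [if_neg, if_pos ⟨y, hy, hp⟩, hp]
  rintro ⟨z, hz, hpz⟩
  rw [hpl] at hpz
  injection hpz with hpz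
  apply hl
  have := hA z hz
  rw [← hpz] at this
  exact this

lemma del_of_not {p : FreeGroup α} (h1 : ∀ y ∈ A, hd p ≠ some y)
    (h2 : ∀ y ∈ A, hd (el l * p) ≠ some y) : del A l p = hd p := by
  unfold del
  rw [if_neg, if_neg]
  · rintro ⟨y, hy, h⟩; exact h2 y hy h
  · rintro ⟨y, hy, h⟩; exact h1 y hy h

lemma del_of_hd (hA : ∀ y ∈ A, y.1 = i) (hl : l.1 ≠ i) {p : FreeGroup α} {x : α × Bool}
    (hx : x ∉ A) (hxl : x ≠ nv l) (hp : hd p = some x) : del A l p = some x := by
  rw [del_of_not, hp]
  · intro y hy h
    rw [hp] at h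
    injection h with h
    exact hx (h ▸ hy)
  · intro y hy h
    have : hd (el l * p) = some l := by
      apply hd_el_mul_of
      rw [hp]
      intro h
      injection h with h
      exact hxl h
    rw [this] at h
    injection h with h
    apply hl
    rw [h]
    exact hA y hy

/-- the automorphism of the surgery on a letter -/
lemma del_step (hA : ∀ y ∈ A, y.1 = i) (hl : l.1 ≠ i) (x : α × Bool) (q : FreeGroup α)
    (hq : del A l q ≠ some (nv x)) :
    del A l (theta i (if (i, true) ∈ A then (el l)⁻¹ else 1)
      (if (i, false) ∈ A then el l else 1) (el x) * q) = some x := by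
  have hlA : l ∉ A := fun h => hl (hA l h)
  have hnlA : nv l ∉ A := fun h => hl (hA (nv l) h)
  by_cases hxi : x.1 = i
  · -- the letter is `a` or `a⁻¹`
    have hth : theta i (if (i, true) ∈ A then (el l)⁻¹ else 1)
        (if (i, false) ∈ A then el l else 1) (el x) =
        (if x ∈ A then (el l)⁻¹ else 1) * el x * (if nv x ∈ A then el l else 1) := by
      obtain ⟨j, b⟩ := x
      simp only at hxi
      subst hxi
      cases b
      · rw [el_false, _root_.map_inv, theta_of_self]
        simp only [nv, Bool.not_false]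
        split_ifs <;> group
      · rw [el_true, theta_of_self]
        simp only [nv, Bool.not_true]
    have hq' : hd ((if nv x ∈ A then el l else 1) * q) ≠ some (nv x) := by
      intro hc
      by_cases hnx : nv x ∈ A
      · rw [if_pos hnx] at hc
        exact hq (del_of_mem' hA hl hnx hc)
      · rw [if_neg hnx, one_mul] at hc
        apply hq
        apply del_of_hd hA hl hnx _ hc
        intro h
        apply hl
        have : (nv x).1 = (nv l).1 := by rw [h]
        simp only [nv_fst] at this
        rw [← this]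
        exact hxi
    have h2 := hd_el_mul_of hq'
    rw [hth]
    by_cases hx : x ∈ A
    · rw [if_pos hx]
      apply del_of_mem' hA hl hx
      rw [← h2]
      congr 1
      group
    · rw [if_neg hx, one_mul, mul_assoc]
      apply del_of_hd hA hl hx _ h2
      intro h
      apply hl
      rw [← hxi, h]
      rfl
  · rw [theta_el_ne _ _ hxi]
    have hxA : x ∉ A := fun h => hxi (hA x h)
    have hnxA : nv x ∉ A := fun h => hxi (hA (nv x) h)
    by_cases hxl : x = l
    · subst hxl
      by_cases hqh : hd q = some (nv x)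
      · by_cases hex : ∃ y ∈ A, hd (el x * q) = some y
        · obtain ⟨y, hy, hy2⟩ := hex
          exact del_of_mem hy hy2
        · exfalso
          apply hq
          rw [del_of_not, hqh]
          · intro y hy h
            rw [hqh] at h
            injection h with h
            exact hnxA (h ▸ hy)
          · intro y hy h
            exact hex ⟨y, hy, h⟩
      · exact del_of_hd hA hl hxA (nv_ne x).symm (hd_el_mul_of hqh)
    · by_cases hxn : x = nv l
      · subst hxn
        rw [nv_nv] at hq
        have h1 : hd q ≠ some l := by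
          intro h
          apply hq
          exact del_of_hd hA hl hlA (nv_ne l).symm h
        have h2 : hd (el (nv l) * q) = some (nv l) := by
          apply hd_el_mul_of
          rw [nv_nv]
          exact h1
        rw [del_of_not, h2]
        · intro y hy h
          rw [h2] at h
          injection h with h
          exact hnlA (h ▸ hy)
        · intro y hy h
          rw [← mul_assoc, el_mul_el_nv, one_mul] at h
          exact hq (del_of_mem hy h)
      · apply del_of_hd hA hl hxA hxn
        apply hd_el_mul_of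
        intro h
        apply hq
        apply del_of_hd hA hl hnxA _ h
        intro h'
        exact hxl (nv_inj h')

lemma del_theta (hA : ∀ y ∈ A, y.1 = i) (hl : l.1 ≠ i) (h : FreeGroup α) :
    del A l (theta i (if (i, true) ∈ A then (el l)⁻¹ else 1)
      (if (i, false) ∈ A then el l else 1) h) = hd h := by
  refine word_induction (P := fun h => del A l (theta i (if (i, true) ∈ A then (el l)⁻¹ else 1)
      (if (i, false) ∈ A then el l else 1) h) = hd h) ?_ ?_ h
  · rw [_root_.map_one, del_of_not]
    · intro y _ h; simp at h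
    · intro y hy h
      rw [mul_one, hd_el] at h
      injection h with h
      apply hl
      rw [h]
      exact hA y hy
  · intro x g' hg' ih
    rw [_root_.map_mul, hd_el_mul_of hg']
    apply del_step hA hl
    rw [ih]
    exact hg'

end Del

/-- **The surgery step.** -/
lemma surgery_step [Fintype α] {E : Set (FreeGroup α)} (hE : Good E) {i : α}
    (hK : CutsZ i E) {g : FreeGroup α} {A B : Finset (α × Bool)} (hl : IsLeaf E g A B)
    (hdeg : ∀ x ∈ A, x.1 = i) :
    ∃ v ∈ ZS i, ∃ u ∈ ZS i, cx (theta i v u ⁻¹' E) < cx E := by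
  classical
  -- the cone of `A`
  set DA : Set (FreeGroup α) := {p | ∃ x ∈ A, hd p = some x} with hDA
  set DB : Set (FreeGroup α) := {p | ∃ x ∈ B, hd p = some x} with hDB
  have hDAf : (DA ∩ (tr g E)ᶜ).Finite := by
    have : DA ∩ (tr g E)ᶜ = ⋃ x ∈ A, (Cn x ∩ (tr g E)ᶜ) := by
      ext p
      simp only [hDA, Set.mem_inter_iff, Set.mem_iUnion, mem_Cn, exists_prop]
      constructor
      · rintro ⟨⟨x, hx, hp⟩, h⟩; exact ⟨x, hx, hp, h⟩
      · rintro ⟨x, hx, hp, h⟩; exact ⟨⟨x, hx, hp⟩, h⟩
    rw [this]
    exact Set.Finite.biUnion (Finset.finite_toSet A) hl.hA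
  have hDBf : (DB ∩ tr g E).Finite := by
    have : DB ∩ tr g E = ⋃ x ∈ B, (Cn x ∩ tr g E) := by
      ext p
      simp only [hDB, Set.mem_inter_iff, Set.mem_iUnion, mem_Cn, exists_prop]
      constructor
      · rintro ⟨⟨x, hx, hp⟩, h⟩; exact ⟨x, hx, hp, h⟩
      · rintro ⟨x, hx, hp, h⟩; exact ⟨⟨x, hx, hp⟩, h⟩
    rw [this]
    exact Set.Finite.biUnion (Finset.finite_toSet B) hl.hB
  -- there is a letter outside `A ∪ B`
  obtain ⟨l, hlA, hlB⟩ : ∃ l, l ∉ A ∧ l ∉ B := by
    by_contra hcon
    push Not at hcon
    obtain ⟨g0, hK1, hK2⟩ := hK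
    set k := g⁻¹ * g0 with hk
    have hgk : ∀ h, g0 * h = g * (k * h) := by
      intro h
      rw [hk]
      group
    have hfin1 : {p | p ∈ tr g E ∧ p ∉ DA}.Finite := by
      apply (hDBf.union (Set.finite_singleton (1 : FreeGroup α))).subset
      rintro p ⟨hp1, hp2⟩
      cases hh : hd p with
      | none => exact Or.inr (hd_eq_none.1 hh)
      | some x =>
        left
        refine ⟨⟨x, ?_, hh⟩, hp1⟩
        apply hcon
        intro hx
        exact hp2 ⟨x, hx, hh⟩
    have hconst : (∀ h ∈ ZS i, k * h ∈ DA) ∨ (∀ h ∈ ZS i, k * h ∉ DA) := by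
      by_cases hkz : k ∈ ZS i
      · right
        rintro h hh ⟨x, hx, hhx⟩
        exact hd_of_mem_ZS ((ZS i).mul_mem hkz hh) hhx (hdeg x hx)
      · by_cases hkA : k ∈ DA
        · left
          intro h hh
          obtain ⟨x, hx, hkx⟩ := hkA
          exact ⟨x, hx, by rw [hd_mul_ZS k h hkz hh]; exact hkx⟩
        · right
          rintro h hh ⟨x, hx, hhx⟩
          rw [hd_mul_ZS k h hkz hh] at hhx
          exact hkA ⟨x, hx, hhx⟩
    rcases hconst with hc | hc
    · apply hK2
      apply (hDAf.image (fun p => k⁻¹ * p)).subset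
      rintro h ⟨hh, hgh⟩
      refine ⟨k * h, ⟨hc h hh, ?_⟩, by simp⟩
      rw [hgk] at hgh
      exact hgh
    · apply hK1
      apply (hfin1.image (fun p => k⁻¹ * p)).subset
      rintro h ⟨hh, hgh⟩
      refine ⟨k * h, ⟨?_, hc h hh⟩, by simp⟩
      rw [hgk] at hgh
      exact hgh
  -- surgery inequality
  obtain ⟨a0, ha0⟩ := hl.neA
  obtain ⟨b0, hb0⟩ := hl.neB
  have hDAi : DA.Infinite := (Cn_infinite a0).mono (fun p hp => ⟨a0, ha0, hp⟩)
  have hDBi : DB.Infinite := (Cn_infinite b0).mono (fun p hp => ⟨b0, hb0, hp⟩)
  have hcov : ∀ h : FreeGroup α, h ∈ ({1} : Set (FreeGroup α)) ∨ h ∈ DA ∨ h ∈ DB ∨ h ∈ Cn l := by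
    intro h
    cases hh : hd h with
    | none => exact Or.inl (hd_eq_none.1 hh)
    | some x =>
      by_cases hx : x ∈ A
      · exact Or.inr (Or.inl ⟨x, hx, hh⟩)
      · by_cases hx' : x ∈ B
        · exact Or.inr (Or.inr (Or.inl ⟨x, hx', hh⟩))
        · rw [hl.few x l hx hx' hlA hlB] at hh
          exact Or.inr (Or.inr (Or.inr hh))
  have hAC : ∀ h, h ∈ DA → h ∉ Cn l := by
    rintro h ⟨x, hx, hh⟩ hc
    rw [mem_Cn, hh] at hc
    injection hc with hc
    exact hlA (hc ▸ hx)
  have hBC : ∀ h, h ∈ DB → h ∉ Cn l := by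
    rintro h ⟨x, hx, hh⟩ hc
    rw [mem_Cn, hh] at hc
    injection hc with hc
    exact hlB (hc ▸ hx)
  obtain ⟨fA, fB, hineq⟩ := surgery_ineq hE g (Set.finite_singleton 1) hcov hAC hBC hDAf hDBf
    hDAi hDBi (hl.hB' l hlB) (hl.hA' l hlA) (crs_Cn_finite hE l)
  -- `l` is a letter of the free factor
  have hli : l.1 ≠ i := by
    intro hli
    have h1 : DA = Cn (nv l) := by
      have hA1 : ∀ x ∈ A, x = nv l := by
        intro x hx
        have hx1 := hdeg x hx
        have hxl : x ≠ l := fun h => hlA (h ▸ hx)
        obtain ⟨j, b⟩ := x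
        obtain ⟨j', b'⟩ := l
        simp only at hli hx1
        subst hli
        subst hx1
        have : b ≠ b' := fun h => hxl (by rw [h])
        simp only [nv]
        congr 1
        cases b <;> cases b' <;> simp_all
      ext p
      constructor
      · rintro ⟨x, hx, hp⟩
        rw [hA1 x hx] at hp
        exact hp
      · intro hp
        refine ⟨a0, ha0, ?_⟩
        rw [hA1 a0 ha0]
        exact hp
    have h2 : (crs E DA).ncard = (crs E (Cn l)).ncard := by
      rw [h1, ncard_crs_nv]
    omega
  -- the automorphism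
  set v : FreeGroup α := if (i, true) ∈ A then (el l)⁻¹ else 1 with hv
  set u : FreeGroup α := if (i, false) ∈ A then el l else 1 with hu
  have hvZ : v ∈ ZS i := by
    rw [hv]
    split_ifs
    · exact (ZS i).inv_mem (el_mem_ZS hli)
    · exact (ZS i).one_mem
  have huZ : u ∈ ZS i := by
    rw [hu]
    split_ifs
    · exact el_mem_ZS hli
    · exact (ZS i).one_mem
  refine ⟨v, hvZ, u, huZ, ?_⟩
  have hdel : ∀ h, del A l (theta i v u h) = hd h := del_theta hdeg hli
  have hcrs : ∀ x, (crs (theta i v u ⁻¹' E) (Cn x)).ncard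
      = (crs E {p | del A l p = some x}).ncard := by
    intro x
    have h1 : crs (theta i v u ⁻¹' E) (Cn x)
        = (thetaE i v u hvZ huZ).toEquiv ⁻¹' (crs E {p | del A l p = some x}) := by
      ext k
      show Cross (tr k (theta i v u ⁻¹' E)) (Cn x)
        ↔ Cross (tr (theta i v u k) E) {p | del A l p = some x}
      rw [← cross_preimage (thetaE i v u hvZ huZ).toEquiv (tr (theta i v u k) E)
        {p | del A l p = some x}]
      have e1 : (thetaE i v u hvZ huZ).toEquiv ⁻¹' (tr (theta i v u k) E)
          = tr k (theta i v u ⁻¹' E) := by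
        ext p
        show theta i v u k * theta i v u p ∈ E ↔ theta i v u (k * p) ∈ E
        rw [_root_.map_mul]
      have e2 : (thetaE i v u hvZ huZ).toEquiv ⁻¹' {p | del A l p = some x} = Cn x := by
        ext p
        show del A l (theta i v u p) = some x ↔ hd p = some x
        rw [hdel]
      rw [e1, e2]
    rw [h1, ncard_preimage_equiv]
  -- letters other than `l^{±1}`
  have hother : ∀ x : α × Bool, x ≠ l → x ≠ nv l →
      (crs (theta i v u ⁻¹' E) (Cn x)).ncard = (crs E (Cn x)).ncard := by
    intro x hxl hxn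
    rw [hcrs]
    by_cases hx : x ∈ A
    · have : {p | del A l p = some x} = tr (el l) (Cn x) := by
        ext p
        show del A l p = some x ↔ hd (el l * p) = some x
        constructor
        · intro h
          unfold del at h
          split_ifs at h with h1 h2
          · injection h with h
            exact absurd h.symm hxl
          · exact h
          · exact absurd ⟨x, hx, h⟩ h1
        · intro h
          exact del_of_mem' hdeg hli hx h
      rw [this, ncard_crs_tr]
    · have : {p | del A l p = some x} = Cn x := by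
        ext p
        show del A l p = some x ↔ hd p = some x
        constructor
        · intro h
          unfold del at h
          split_ifs at h with h1 h2
          · injection h with h
            exact absurd h.symm hxl
          · obtain ⟨y, hy, hyp⟩ := h2
            rw [hyp] at h
            injection h with h
            exact absurd (h ▸ hy) hx
          · exact h
        · intro h
          exact del_of_hd hdeg hli hx hxn h
      rw [this]
  -- the letter `l`
  have hlt : (crs (theta i v u ⁻¹' E) (Cn l)).ncard < (crs E (Cn l)).ncard := by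
    rw [hcrs]
    have h1 : crs E {p | del A l p = some l} = crs E DB := by
      ext k
      show Cross (tr k E) {p | del A l p = some l} ↔ Cross (tr k E) DB
      rw [← cross_compl_right (D := {p | del A l p = some l})]
      have e1 : {p | del A l p = some l}ᶜ \ DB ⊆ {1} := by
        rintro p ⟨hp1, hp2⟩
        cases hh : hd p with
        | none => exact hd_eq_none.1 hh
        | some x =>
          exfalso
          by_cases hx : x ∈ A
          · exact hp1 (del_of_mem hx hh)
          · by_cases hx' : x ∈ B
            · exact hp2 ⟨x, hx', hh⟩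
            · rw [hl.few x l hx hx' hlA hlB] at hh
              exact hp1 (del_of_hd hdeg hli hlA (nv_ne l).symm hh)
      have e2 : DB \ {p | del A l p = some l}ᶜ = ∅ := by
        ext p
        simp only [Set.mem_sdiff, Set.mem_compl_iff, not_not, Set.mem_empty_iff_false, iff_false,
          not_and]
        rintro ⟨x, hx, hp⟩ hdl
        have hxA : x ∉ A := fun h => (Finset.disjoint_left.1 hl.disj h) hx
        have hxl : x ≠ l := fun h => hlB (h ▸ hx)
        change del A l p = some l at hdl
        unfold del at hdl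
        split_ifs at hdl with h1 h2
        · obtain ⟨y, hy, hyp⟩ := h1
          rw [hp] at hyp
          injection hyp with hyp
          exact hxA (hyp ▸ hy)
        · obtain ⟨y, hy, hyp⟩ := h2
          rw [hyp] at hdl
          injection hdl with hdl
          exact hlA (hdl ▸ hy)
        · rw [hp] at hdl
          injection hdl with hdl
          exact hxl hdl
      have f1 : ({p | del A l p = some l}ᶜ \ DB).Finite := (Set.finite_singleton _).subset e1
      have f2 : (DB \ {p | del A l p = some l}ᶜ).Finite := by rw [e2]; exact Set.finite_empty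
      exact ⟨fun h => h.congr_right f1 f2, fun h => h.congr_right f2 f1⟩
    rw [h1]
    omega
  unfold cx
  apply Finset.sum_lt_sum
  · intro j _
    by_cases hj : j = l.1
    · subst hj
      obtain ⟨j, b⟩ := l
      cases b
      · have e1 := ncard_crs_nv (theta i v u ⁻¹' E) (j, false)
        have e2 := ncard_crs_nv E (j, false)
        simp only [nv, Bool.not_false] at e1 e2
        rw [e1, e2]
        exact hlt.le
      · exact hlt.le
    · apply le_of_eq
      apply hother
      · intro h; exact hj (by rw [← h])
      · intro h; apply hj; have := congrArg Prod.fst h; exact this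
  · refine ⟨l.1, Finset.mem_univ _, ?_⟩
    obtain ⟨j, b⟩ := l
    cases b
    · have e1 := ncard_crs_nv (theta i v u ⁻¹' E) (j, false)
      have e2 := ncard_crs_nv E (j, false)
      simp only [nv, Bool.not_false] at e1 e2
      rw [e1, e2]
      exact hlt
    · exact hlt

/-- **Structure theorem**: after an automorphism `a ↦ v a u` with `v, u` in the free factor
generated by the other letters, there is a leaf whose two sides both contain letters of the
free factor. -/
theorem exists_nondegenerate_leaf [Fintype α] {i : α} (E : Set (FreeGroup α)) (hE : Good E)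
    (hK : CutsZ i E) :
    ∃ v ∈ ZS i, ∃ u ∈ ZS i, ∃ g A B, IsLeaf (theta i v u ⁻¹' E) g A B ∧
      (∃ x ∈ A, x.1 ≠ i) ∧ (∃ x ∈ B, x.1 ≠ i) := by
  induction hn : cx E using Nat.strong_induction_on generalizing E with
  | _ n ih =>
    obtain ⟨g, A, B, hl⟩ := exists_leaf hE hK.infinite hK.compl.infinite
    have hrec : ∀ v ∈ ZS i, ∀ u ∈ ZS i, cx (theta i v u ⁻¹' E) < cx E →
        ∃ v ∈ ZS i, ∃ u ∈ ZS i, ∃ g A B, IsLeaf (theta i v u ⁻¹' E) g A B ∧
        (∃ x ∈ A, x.1 ≠ i) ∧ (∃ x ∈ B, x.1 ≠ i) := by
      intro v hv u hu hlt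
      have hG : Good (theta i v u ⁻¹' E) := hE.preimage (thetaE i v u hv hu)
      obtain ⟨v', hv', u', hu', g', A', B', h1, h2, h3⟩ := ih _ (hn ▸ hlt) _ hG
        (hK.theta hv hu) rfl
      refine ⟨v' * v, (ZS i).mul_mem hv' hv, u * u', (ZS i).mul_mem hu hu', g', A', B', ?_,
        h2, h3⟩
      have : theta i (v' * v) (u * u') ⁻¹' E = theta i v' u' ⁻¹' (theta i v u ⁻¹' E) := by
        ext p
        show theta i (v' * v) (u * u') p ∈ E ↔ theta i v u (theta i v' u' p) ∈ E
        rw [theta_theta hv' hu']
      rw [this]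
      exact h1
    by_cases hA : ∃ x ∈ A, x.1 ≠ i
    · by_cases hB : ∃ x ∈ B, x.1 ≠ i
      · refine ⟨1, (ZS i).one_mem, 1, (ZS i).one_mem, g, A, B, ?_, hA, hB⟩
        have : theta i 1 1 ⁻¹' E = E := by
          ext p
          show theta i 1 1 p ∈ E ↔ p ∈ E
          rw [theta_one]
        rw [this]
        exact hl
      · push Not at hB
        obtain ⟨v, hv, u, hu, hlt⟩ := surgery_step hE.compl hK.compl hl.compl hB
        apply hrec v hv u hu
        rw [Set.preimage_compl, cx_compl, cx_compl] at hlt
        exact hlt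
    · push Not at hA
      obtain ⟨v, hv, u, hu, hlt⟩ := surgery_step hE hK hl hA
      exact hrec v hv u hu hlt

end Pool.Agent.Helper35.PP
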