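import Mathlib
import Pool.Agent.Helper35.PP.Surgery

/-!
Helper file for MP_bec853_al: half spaces of the target basis.
-/

namespace Pool.Agent.Helper35.PP

open FreeGroup Filter

variable {α : Type*} [DecidableEq α]

lemma tr_Cn_const {x : α × Bool} {k : FreeGroup α} (hk : k ≠ 1) (h : hd k ≠ some x) :
    ∀ p ∈ tr k (Cn x), hd p = hd k⁻¹ := by
  intro p hp
  have h1 := toWord_inv_mul (g₁ := k * p) (g₂ := k) hp h
  rw [inv_mul_cancel_left] at h1
  unfold hd
  rw [h1, List.head?_append_of_ne_nil]
  intro h0
  rw [toWord_eq_nil_iff] at h0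
  exact hk (inv_eq_one.1 h0)

lemma tr_Cn_const' {x : α × Bool} {k : FreeGroup α} (h : hd k = some x) :
    ∀ p ∉ tr k (Cn x), hd p = hd k⁻¹ := by
  intro p hp
  have h1 := toWord_inv_mul (g₁ := k) (g₂ := k * p) h hp
  have h2 : p = ((k * p)⁻¹ * k)⁻¹ := by group
  have hk : k ≠ 1 := by rintro rfl; simp at h
  have h3 : p.toWord = (k⁻¹).toWord ++ (k * p).toWord := by
    conv_lhs => rw [h2]
    rw [toWord_inv, h1, FreeGroup.invRev_append, ← toWord_inv, ← toWord_inv, inv_inv]
  unfold hd
  rw [h3, List.head?_append_of_ne_nil]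
  intro h0
  rw [toWord_eq_nil_iff] at h0
  exact hk (inv_eq_one.1 h0)

lemma nested_Cn (x : α × Bool) (k : FreeGroup α) : Nested (tr k (Cn x)) (Cn x) := by
  by_cases h : hd k = some x
  · have h1 := tr_Cn_const' h
    by_cases h2 : hd k⁻¹ = some x
    · right; right; right
      convert Set.finite_empty
      ext p
      simp only [Set.mem_inter_iff, Set.mem_compl_iff, Set.mem_empty_iff_false, iff_false, not_and,
        not_not]
      intro hp
      rw [mem_Cn, h1 p hp, h2]
    · right; right; left
      convert Set.finite_empty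
      ext p
      simp only [Set.mem_inter_iff, Set.mem_compl_iff, Set.mem_empty_iff_false, iff_false, not_and]
      intro hp
      rw [mem_Cn, h1 p hp]
      exact h2
  · by_cases hk : k = 1
    · right; left
      convert Set.finite_empty
      ext p
      simp [hk, mem_tr]
    · have h1 := tr_Cn_const hk h
      by_cases h2 : hd k⁻¹ = some x
      · right; left
        convert Set.finite_empty
        ext p
        simp only [Set.mem_inter_iff, Set.mem_compl_iff, Set.mem_empty_iff_false, iff_false,
          not_and, not_not]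
        intro hp
        rw [mem_Cn, h1 p hp, h2]
      · left
        convert Set.finite_empty
        ext p
        simp only [Set.mem_inter_iff, Set.mem_empty_iff_false, iff_false, not_and]
        intro hp
        rw [mem_Cn, h1 p hp]
        exact h2

lemma good_Cn [Fintype α] (x : α × Bool) : Good (Cn x) := by
  refine ⟨fun g => ?_, fun k => nested_Cn x k⟩
  apply (finite_norm_le (α := α) g.norm).subset
  rintro h ⟨h1, h2⟩
  have := norm_inv_mul h1 h2
  rw [inv_mul_cancel_left] at this
  show h.norm ≤ g.norm
  omega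

/-- cancellation in a product -/
lemma toWord_mul_cancel (g : FreeGroup α) : ∀ h : FreeGroup α, ∃ c,
    (g * h).toWord = g.toWord.take (g.toWord.length - c) ++ h.toWord.drop c ∧
      c ≤ g.toWord.length := by
  induction hn : g.norm using Nat.strong_induction_on generalizing g with
  | _ n ih =>
    intro h
    by_cases hg : g = 1
    · subst hg
      exact ⟨0, by simp⟩
    · obtain ⟨g', y, h1, h2⟩ := exists_snoc hg
      by_cases hh : hd h = some (nv y)
      · obtain ⟨h', rfl, -, h3⟩ := eq_el_mul_of_hd hh
        have hlt : g'.norm < n := by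
          rw [← hn]
          unfold FreeGroup.norm
          rw [h2]
          simp
        obtain ⟨c, hc, hc'⟩ := ih _ hlt g' rfl h'
        refine ⟨c + 1, ?_, ?_⟩
        · have e1 : g * (el (nv y) * h') = g' * h' := by
            rw [h1, mul_assoc, ← mul_assoc (el y), el_mul_el_nv, one_mul]
          rw [e1, hc, h2, h3, List.drop_succ_cons, List.length_append, List.length_singleton]
          congr 1
          rw [Nat.add_sub_add_right, List.take_append_of_le_length (by omega)]
        · rw [h2, List.length_append, List.length_singleton]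
          omega
      · refine ⟨0, ?_, Nat.zero_le _⟩
        rw [Nat.sub_zero, List.take_length, List.drop_zero]
        apply toWord_mul_nc
        intro x hx hhx
        rw [hd_inv, h2, List.getLast?_concat] at hx
        change some (nv y) = some x at hx
        rw [← hx] at hhx
        exact hh hhx

/-- positive elements -/
def IsPos (g : FreeGroup α) : Prop := ∀ q ∈ g.toWord, q.2 = true

lemma isReduced_of_pos {L : List (α × Bool)} (h : ∀ q ∈ L, q.2 = true) :
    FreeGroup.IsReduced L := by
  unfold FreeGroup.IsReduced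
  apply List.Pairwise.isChain
  rw [List.pairwise_iff_forall_sublist]
  intro a b hab _
  have ha : a ∈ L := hab.subset (by simp)
  have hb : b ∈ L := hab.subset (by simp)
  rw [h a ha, h b hb]

lemma IsPos.mul {g h : FreeGroup α} (hg : IsPos g) (hh : IsPos h) :
    (g * h).toWord = g.toWord ++ h.toWord ∧ IsPos (g * h) := by
  have h1 : ∀ q ∈ g.toWord ++ h.toWord, q.2 = true := by
    intro q hq
    rw [List.mem_append] at hq
    rcases hq with hq | hq
    · exact hg q hq
    · exact hh q hq
  have h2 : (g * h).toWord = g.toWord ++ h.toWord := by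
    rw [toWord_mul]
    exact (isReduced_of_pos h1).reduce_eq
  refine ⟨h2, ?_⟩
  intro q hq
  rw [h2] at hq
  exact h1 q hq

lemma IsPos.one : IsPos (1 : FreeGroup α) := by
  intro q hq
  simp at hq

lemma IsPos.pow {g : FreeGroup α} (hg : IsPos g) (n : ℕ) :
    IsPos (g ^ n) ∧ (g ^ n).norm = n * g.norm := by
  induction n with
  | zero => exact ⟨by rw [pow_zero]; exact IsPos.one, by simp⟩
  | succ n ih =>
    rw [pow_succ]
    refine ⟨(IsPos.mul ih.1 hg).2, ?_⟩
    unfold FreeGroup.norm at *
    rw [(IsPos.mul ih.1 hg).1, List.length_append, ih.2]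
    ring

/-- no line of `u` leaves `E` -/
def PosLine (E : Set (FreeGroup α)) (u : FreeGroup α) : Prop :=
  ∀ k t, ¬ ((∀ᶠ n : ℕ in atTop, k * (u ^ n)⁻¹ * t ∈ E) ∧ (∀ᶠ n : ℕ in atTop, k * u ^ n * t ∉ E))

lemma posLine_Cn {p : FreeGroup α} (hp : IsPos p) (j : α) : PosLine (Cn (j, true)) p := by
  rintro k t ⟨h1, h2⟩
  by_cases hp1 : p = 1
  · subst hp1
    obtain ⟨n, a, b⟩ := (h1.and h2).exists
    simp only [one_pow, inv_one] at a b
    exact b a
  · obtain ⟨n, ⟨a, b⟩, hn⟩ := ((h1.and h2).and (eventually_ge_atTop (k.norm + 2 * t.norm + 2))).exists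
    set g1 := k * (p ^ n)⁻¹ * t with hg1
    set g2 := k * p ^ n * t with hg2
    have hpn : 1 ≤ p.norm := by
      rw [Nat.one_le_iff_ne_zero]
      intro h
      exact hp1 (FreeGroup.norm_eq_zero.1 h)
    have hnn : n ≤ (p ^ n).norm := by
      rw [(hp.pow n).2]
      exact Nat.le_mul_of_pos_right n hpn
    have n1 : n ≤ k.norm + g1.norm + t.norm := by
      have e : (p ^ n)⁻¹ = k⁻¹ * g1 * t⁻¹ := by rw [hg1]; group
      calc n ≤ (p ^ n).norm := hnn
        _ = ((p ^ n)⁻¹).norm := FreeGroup.norm_inv_eq.symm
        _ = (k⁻¹ * g1 * t⁻¹).norm := by rw [e]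
        _ ≤ (k⁻¹ * g1).norm + (t⁻¹).norm := FreeGroup.norm_mul_le _ _
        _ ≤ (k⁻¹).norm + g1.norm + (t⁻¹).norm :=
            Nat.add_le_add_right (FreeGroup.norm_mul_le _ _) _
        _ = k.norm + g1.norm + t.norm := by rw [FreeGroup.norm_inv_eq, FreeGroup.norm_inv_eq]
    have n2 : n ≤ k.norm + g2.norm + t.norm := by
      have e : p ^ n = k⁻¹ * g2 * t⁻¹ := by rw [hg2]; group
      calc n ≤ (p ^ n).norm := hnn
        _ = (k⁻¹ * g2 * t⁻¹).norm := by rw [← e]
        _ ≤ (k⁻¹ * g2).norm + (t⁻¹).norm := FreeGroup.norm_mul_le _ _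
        _ ≤ (k⁻¹).norm + g2.norm + (t⁻¹).norm :=
            Nat.add_le_add_right (FreeGroup.norm_mul_le _ _) _
        _ = k.norm + g2.norm + t.norm := by rw [FreeGroup.norm_inv_eq, FreeGroup.norm_inv_eq]
    -- the reduced word of `g1⁻¹ g2`
    have e1 : g1⁻¹ * g2 = t⁻¹ * (p ^ (2 * n) * t) := by
      rw [hg1, hg2, two_mul, pow_add]
      group
    have w1 : (g1⁻¹ * g2).toWord = (g1⁻¹).toWord ++ g2.toWord := by
      have := toWord_inv_mul (g₁ := g1) (g₂ := g2) a b
      have e : g1⁻¹ * g2 = (g2⁻¹ * g1)⁻¹ := by group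
      rw [e, toWord_inv, this, FreeGroup.invRev_append, ← toWord_inv, ← toWord_inv, inv_inv]
    obtain ⟨g1', hg1', -, hw⟩ := eq_el_mul_of_hd a
    have w2 : (g1⁻¹).toWord = (g1'⁻¹).toWord ++ [(j, false)] := by
      rw [toWord_inv, hw]
      simp [toWord_inv, FreeGroup.invRev]
    -- decomposition
    obtain ⟨c, hc, -⟩ := toWord_mul_cancel (p ^ (2 * n)) t
    obtain ⟨c', hc', -⟩ := toWord_mul_cancel t⁻¹ (p ^ (2 * n) * t)
    rw [hc, List.drop_append] at hc'
    rw [← e1, w1, w2] at hc'
    set T1 := (t⁻¹).toWord.take ((t⁻¹).toWord.length - c') with hT1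
    set Q := ((p ^ (2 * n)).toWord.take ((p ^ (2 * n)).toWord.length - c)).drop c' with hQ
    set T2 := (t.toWord.drop c).drop (c' - ((p ^ (2 * n)).toWord.take
      ((p ^ (2 * n)).toWord.length - c)).length) with hT2
    have lT1 : T1.length ≤ t.norm := by
      rw [hT1, List.length_take, toWord_inv, FreeGroup.invRev_length]
      exact (min_le_right _ _)
    have lT2 : T2.length ≤ t.norm := by
      rw [hT2, List.length_drop, List.length_drop]
      unfold FreeGroup.norm
      omega
    have pQ : ∀ q ∈ Q, q.2 = true := by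
      intro q hq
      exact (hp.pow (2 * n)).1 q (List.mem_of_mem_take (List.mem_of_mem_drop hq))
    have lg1 : (g1'⁻¹).toWord.length + 1 = g1.norm := by
      have : g1.norm = (g1⁻¹).toWord.length := by
        rw [← FreeGroup.norm_inv_eq]
        rfl
      rw [this, w2]
      simp
    -- position of the negative letter
    have hpos := congrArg (fun L => L[(g1'⁻¹).toWord.length]?) hc'
    rw [List.getElem?_append_left (by simp), List.getElem?_append_right (le_refl _)] at hpos
    simp only [Nat.sub_self, List.getElem?_cons_zero] at hpos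
    have hle : T1.length ≤ (g1'⁻¹).toWord.length := by
      omega
    rw [List.getElem?_append_right hle] at hpos
    have hlen := congrArg List.length hc'
    simp only [List.length_append, List.length_cons, List.length_nil] at hlen
    have hg2len : g2.toWord.length = g2.norm := rfl
    have hlt : (g1'⁻¹).toWord.length - T1.length < Q.length := by
      omega
    rw [List.getElem?_append_left hlt] at hpos
    have hmem := List.mem_of_getElem? hpos.symm
    have := pQ _ hmem
    simp at this

lemma PosLine.preimage {E : Set (FreeGroup α)} {u : FreeGroup α}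
    (f : FreeGroup α ≃* FreeGroup α) (h : PosLine E (f u)) : PosLine (f ⁻¹' E) u := by
  rintro k t ⟨h1, h2⟩
  apply h (f k) (f t)
  constructor
  · filter_upwards [h1] with n hn
    rw [Set.mem_preimage, _root_.map_mul, _root_.map_mul, _root_.map_inv, _root_.map_pow] at hn
    exact hn
  · filter_upwards [h2] with n hn
    rw [Set.mem_preimage, _root_.map_mul, _root_.map_mul, _root_.map_pow] at hn
    exact hn

/-- a nontrivial element has an axis cut by a half space -/
lemma exists_axis_cut {w : FreeGroup α} (hw : w ≠ 1) :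
    ∃ g x, (∀ n : ℕ, hd (g * w ^ (n + 1)) = some x) ∧
      (∀ n : ℕ, hd (g * (w ^ (n + 1))⁻¹) ≠ some x) := by
  set cj := reduceCyclically.conjugator w.toWord with hcj
  set cy := FreeGroup.reduceCyclically w.toWord with hcy
  have hconj : cj ++ cy ++ FreeGroup.invRev cj = w.toWord :=
    reduceCyclically.conj_conjugator_reduceCyclically w.toWord
  have hcyr : FreeGroup.IsCyclicallyReduced cy :=
    reduceCyclically.isCyclicallyReduced (isReduced_toWord)
  have hcyne : cy ≠ [] := by
    intro h
    rw [h, List.append_nil] at hconj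
    apply hw
    rw [← FreeGroup.mk_toWord (x := w), ← hconj, ← FreeGroup.mul_mk, ← FreeGroup.inv_mk]
    group
  obtain ⟨x, L, hxL⟩ : ∃ x L, cy = x :: L := by
    cases h : cy with
    | nil => exact absurd h hcyne
    | cons x L => exact ⟨x, L, rfl⟩
  obtain ⟨L', y, hyL⟩ : ∃ L' y, cy = L' ++ [y] :=
    ⟨_, _, (List.dropLast_append_getLast hcyne).symm⟩
  have hxy : nv y ≠ x := by
    intro h
    have h1 := hcyr.2 y (by rw [hyL]; simp) x (by rw [hxL]; simp) (by rw [← h]; rfl)
    rw [← h] at h1
    simp [nv] at h1
  have hpow : ∀ n : ℕ, (w ^ (n + 1)).toWord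
      = cj ++ (List.replicate (n + 1) cy).flatten ++ FreeGroup.invRev cj := by
    intro n
    rw [toWord_pow, reduceCyclically.reduce_flatten_replicate_succ isReduced_toWord]
  refine ⟨(FreeGroup.mk cj)⁻¹, x, ?_, ?_⟩
  · intro n
    have h1 : FreeGroup.IsReduced ((List.replicate (n + 1) cy).flatten ++ FreeGroup.invRev cj) := by
      have := isReduced_toWord (x := w ^ (n + 1))
      rw [hpow, List.append_assoc] at this
      exact red_of this ⟨cj, [], by simp⟩
    have h2 : (FreeGroup.mk cj)⁻¹ * w ^ (n + 1)
        = FreeGroup.mk ((List.replicate (n + 1) cy).flatten ++ FreeGroup.invRev cj) := by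
      rw [← FreeGroup.mk_toWord (x := w ^ (n + 1)), hpow, List.append_assoc, ← FreeGroup.mul_mk]
      group
    unfold hd
    rw [h2, toWord_mk, h1.reduce_eq, List.replicate_succ, List.flatten_cons, hxL]
    rfl
  · intro n
    have e0 : ((w ^ (n + 1))⁻¹).toWord = cj ++ (FreeGroup.invRev
        (List.replicate (n + 1) cy).flatten ++ FreeGroup.invRev cj) := by
      rw [toWord_inv, hpow, FreeGroup.invRev_append, FreeGroup.invRev_append,
        FreeGroup.invRev_invRev]
    have h1 : FreeGroup.IsReduced (FreeGroup.invRev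
        (List.replicate (n + 1) cy).flatten ++ FreeGroup.invRev cj) := by
      have := isReduced_toWord (x := (w ^ (n + 1))⁻¹)
      rw [e0] at this
      exact red_of this ⟨cj, [], by simp⟩
    have h2 : (FreeGroup.mk cj)⁻¹ * (w ^ (n + 1))⁻¹
        = FreeGroup.mk (FreeGroup.invRev
        (List.replicate (n + 1) cy).flatten ++ FreeGroup.invRev cj) := by
      rw [← FreeGroup.mk_toWord (x := (w ^ (n + 1))⁻¹), e0, ← FreeGroup.mul_mk]
      group
    unfold hd
    rw [h2, toWord_mk, h1.reduce_eq, List.replicate_succ', List.flatten_concat, hyL]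
    simp only [FreeGroup.invRev, List.map_append, List.reverse_append, List.map_cons,
      List.map_nil, List.reverse_cons, List.reverse_nil, List.nil_append, List.cons_append,
      List.head?_cons, ne_eq, Option.some.injEq]
    exact hxy

lemma exists_cutsZ {i z : α} (hz : z ≠ i) (f : FreeGroup α ≃* FreeGroup α) :
    ∃ j, CutsZ i (f ⁻¹' Cn (j, true)) := by
  have hw : f (of z) ≠ 1 := by
    intro h
    have := f.injective (h.trans (_root_.map_one f).symm)
    exact FreeGroup.of_ne_one z this
  obtain ⟨g, x, h1, h2⟩ := exists_axis_cut hw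
  have hzZ : of z ∈ ZS i := by
    have := el_mem_ZS (i := i) (x := (z, true)) hz
    exact this
  have inj1 : Function.Injective (fun n : ℕ => (of z : FreeGroup α) ^ (n + 1)) := by
    intro a b hab
    have := congrArg FreeGroup.norm hab
    simp only [FreeGroup.norm_of_pow] at this
    omega
  have inj2 : Function.Injective (fun n : ℕ => ((of z : FreeGroup α) ^ (n + 1))⁻¹) := by
    intro a b hab
    exact inj1 (inv_injective hab)
  obtain ⟨j, b⟩ := x
  cases b
  · refine ⟨j, f.symm (el (j, true) * g), ?_, ?_⟩
    · apply Set.infinite_of_injective_forall_mem inj2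
      intro n
      refine ⟨(ZS i).inv_mem ((ZS i).pow_mem hzZ _), ?_⟩
      show hd (f _) = _
      rw [_root_.map_mul, MulEquiv.apply_symm_apply, _root_.map_inv, _root_.map_pow, mul_assoc]
      apply hd_el_mul_of
      exact h2 n
    · apply Set.infinite_of_injective_forall_mem inj1
      intro n
      refine ⟨(ZS i).pow_mem hzZ _, ?_⟩
      show ¬ (hd (f _) = _)
      rw [_root_.map_mul, MulEquiv.apply_symm_apply, _root_.map_pow, mul_assoc, hd_ne_iff,
        not_not]
      exact h1 n
  · refine ⟨j, f.symm g, ?_, ?_⟩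
    · apply Set.infinite_of_injective_forall_mem inj1
      intro n
      refine ⟨(ZS i).pow_mem hzZ _, ?_⟩
      show hd (f _) = _
      rw [_root_.map_mul, MulEquiv.apply_symm_apply, _root_.map_pow]
      exact h1 n
    · apply Set.infinite_of_injective_forall_mem inj2
      intro n
      refine ⟨(ZS i).inv_mem ((ZS i).pow_mem hzZ _), ?_⟩
      show ¬ (hd (f _) = _)
      rw [_root_.map_mul, MulEquiv.apply_symm_apply, _root_.map_inv, _root_.map_pow]
      exact h2 n

end Pool.Agent.Helper35.PP
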