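import Mathlib
import Pool.Agent.Helper35.PP.Half

/-!
Helper file for MP_bec853_al: restrictions on cyclic words.
-/

namespace Pool.Agent.Helper35.PP

open FreeGroup Filter

variable {α : Type*} [DecidableEq α]

/-- the left factor of `theta (a^s)` -/
def Rf (p q : FreeGroup α) (s : Bool) : FreeGroup α := if s then p else q⁻¹

lemma Rf_mem {i : α} {p q : FreeGroup α} (hp : p ∈ ZS i) (hq : q ∈ ZS i) (s : Bool) :
    Rf p q s ∈ ZS i := by
  unfold Rf
  split_ifs
  · exact hp
  · exact (ZS i).inv_mem hq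

lemma theta_el_i (i : α) (p q : FreeGroup α) (s : Bool) :
    theta i p q (el (i, s)) = Rf p q s * el (i, s) * (Rf p q (!s))⁻¹ := by
  cases s
  · rw [el_false, _root_.map_inv, theta_of_self]
    simp only [Rf, Bool.not_false, if_true, Bool.false_eq_true, if_false]
    group
  · rw [el_true, theta_of_self]
    simp only [Rf, Bool.not_true, if_true, Bool.false_eq_true, if_false]
    group

/-- split off the maximal prefix in the free factor -/
lemma split_ZS (i : α) (g : FreeGroup α) : ∃ w ∈ ZS i, ∃ g'', g = w * g'' ∧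
    g.toWord = w.toWord ++ g''.toWord ∧ (g'' = 1 ∨ ∃ s, hd g'' = some (i, s)) := by
  set L := g.toWord with hL
  have hred : FreeGroup.IsReduced L := isReduced_toWord
  have hsplit : L.takeWhile (fun p => p.1 ≠ i) ++ L.dropWhile (fun p => p.1 ≠ i) = L :=
    List.takeWhile_append_dropWhile
  have r1 : FreeGroup.IsReduced (L.takeWhile (fun p => p.1 ≠ i)) :=
    red_of hred ⟨[], L.dropWhile (fun p => p.1 ≠ i), by rw [List.nil_append, hsplit]⟩
  have r2 : FreeGroup.IsReduced (L.dropWhile (fun p => p.1 ≠ i)) :=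
    red_of hred ⟨L.takeWhile (fun p => p.1 ≠ i), [], by rw [List.append_nil, hsplit]⟩
  refine ⟨FreeGroup.mk (L.takeWhile (fun p => p.1 ≠ i)), ?_,
    FreeGroup.mk (L.dropWhile (fun p => p.1 ≠ i)), ?_, ?_, ?_⟩
  · intro p hp
    rw [toWord_mk, r1.reduce_eq] at hp
    have := List.mem_takeWhile_imp hp
    simpa using this
  · rw [FreeGroup.mul_mk, hsplit, hL, FreeGroup.mk_toWord]
  · rw [toWord_mk, toWord_mk, r1.reduce_eq, r2.reduce_eq, hsplit]
  · cases hd0 : L.dropWhile (fun p => p.1 ≠ i) with
    | nil => left; rfl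
    | cons x M =>
      right
      have h1 : ¬ (x.1 ≠ i) := by
        have := List.head_dropWhile_not (p := fun p : α × Bool => decide (p.1 ≠ i)) (l := L)
          (by rw [hd0]; simp)
        simp only [hd0, List.head_cons] at this
        simpa using this
      push Not at h1
      refine ⟨x.2, ?_⟩
      unfold hd
      rw [← hd0, toWord_mk, r2.reduce_eq, hd0]
      simp [← h1]

lemma no_cancel_ZS {i : α} {z q : FreeGroup α} (hz : z ∈ ZS i) {s : Bool}
    (hq : hd q = some (i, s)) : ∀ x, hd z⁻¹ = some x → hd q ≠ some x := by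
  intro x hx hqx
  rw [hq] at hqx
  injection hqx with hqx
  have := hd_of_mem_ZS ((ZS i).inv_mem hz) hx
  rw [← hqx] at this
  exact this rfl

/-- head after the automorphism, for words starting with the special letter -/
lemma hd_theta_i {i : α} {p q : FreeGroup α} (hp : p ∈ ZS i) (hq : q ∈ ZS i)
    (g : FreeGroup α) : ∀ s, hd g = some (i, s) →
      hd ((Rf p q s)⁻¹ * theta i p q g) = some (i, s) := by
  induction hn : g.norm using Nat.strong_induction_on generalizing g with
  | _ n ih =>
    intro s hs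
    obtain ⟨g', rfl, h2, h3⟩ := eq_el_mul_of_hd hs
    obtain ⟨w, hw, g'', h4, h5, h6⟩ := split_ZS i g'
    have e1 : (Rf p q s)⁻¹ * theta i p q (el (i, s) * g')
        = el (i, s) * ((Rf p q (!s))⁻¹ * w * theta i p q g'') := by
      rw [h4, _root_.map_mul, _root_.map_mul, theta_el_i, theta_fix _ _ hw]
      group
    rw [e1]
    apply hd_el_mul_of
    rcases h6 with h6 | ⟨s', h6⟩
    · rw [h6, _root_.map_one, mul_one]
      intro hc
      exact hd_of_mem_ZS ((ZS i).mul_mem ((ZS i).inv_mem (Rf_mem hp hq _)) hw) hc rfl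
    · have hlt : g''.norm < n := by
        rw [← hn]
        unfold FreeGroup.norm
        rw [h3, h5]
        simp only [List.length_cons, List.length_append]
        omega
      have ih' := ih _ hlt g'' rfl s' h6
      set q' := (Rf p q s')⁻¹ * theta i p q g'' with hq'
      set mid := (Rf p q (!s))⁻¹ * w * Rf p q s' with hmid
      have e2 : (Rf p q (!s))⁻¹ * w * theta i p q g'' = mid * q' := by
        rw [hmid, hq']
        group
      have hmidZ : mid ∈ ZS i := (ZS i).mul_mem ((ZS i).mul_mem ((ZS i).inv_mem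
        (Rf_mem hp hq _)) hw) (Rf_mem hp hq _)
      rw [e2]
      by_cases hm1 : mid = 1
      · rw [hm1, one_mul, ih']
        intro hc
        injection hc with hc
        have hss : s' = !s := by
          have := congrArg Prod.snd hc
          simpa [nv] using this
        apply h2
        have hw1 : w = 1 := by
          rw [hmid, hss] at hm1
          have h7 : w = Rf p q (!s) * ((Rf p q (!s))⁻¹ * w * Rf p q (!s)) * (Rf p q (!s))⁻¹ := by
            group
          rw [hm1] at h7
          rw [h7]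
          group
        rw [h4, hw1, one_mul, h6, hss]
        rfl
      · rw [hd_mul_nc (no_cancel_ZS hmidZ ih') hm1]
        intro hc
        exact hd_of_mem_ZS hmidZ hc rfl

lemma hd_mul_inv_of_not_suffix (w : FreeGroup α) :
    ∀ r : FreeGroup α, ¬ (w.toWord <:+ r.toWord) → hd (w * r⁻¹) = hd w := by
  induction hn : w.norm using Nat.strong_induction_on generalizing w with
  | _ n ih =>
    intro r hr
    have hw1 : w ≠ 1 := by
      rintro rfl
      apply hr
      simp
    obtain ⟨w', y, h1, h2⟩ := exists_snoc hw1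
    by_cases hr1 : r = 1
    · rw [hr1]; simp
    obtain ⟨r', z, h3, h4⟩ := exists_snoc hr1
    by_cases hyz : y = z
    · subst hyz
      have hlt : w'.norm < n := by
        rw [← hn]
        unfold FreeGroup.norm
        rw [h2]
        simp
      have hs' : ¬ (w'.toWord <:+ r'.toWord) := by
        rintro ⟨t, ht⟩
        apply hr
        refine ⟨t, ?_⟩
        rw [h2, h4, ← ht, List.append_assoc]
      have e1 := ih _ hlt w' rfl r' hs'
      have e2 : w * r⁻¹ = w' * r'⁻¹ := by
        rw [h1, h3]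
        group
      rw [e2, e1]
      have hw'1 : w'.toWord ≠ [] := by
        intro h
        apply hs'
        rw [h]
        exact List.nil_suffix
      unfold hd
      rw [h2, List.head?_append_of_ne_nil _ hw'1]
    · apply hd_mul_nc _ hw1
      intro x hx hrx
      rw [hd_inv, h2, List.getLast?_concat] at hx
      change some (nv y) = some x at hx
      rw [hd_inv, h4, List.getLast?_concat] at hrx
      change some (nv z) = some x at hrx
      rw [← hx] at hrx
      injection hrx with hrx
      exact hyz (nv_inj hrx).symm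

/-- head after the automorphism, for words starting in the free factor -/
lemma hd_theta_Z {i : α} {p q : FreeGroup α} (hp : p ∈ ZS i) (hq : q ∈ ZS i)
    {w g : FreeGroup α} (hw : w ∈ ZS i) {s : Bool} (hg : hd g = some (i, s))
    (hns : ¬ (w.toWord <:+ ((Rf p q s)⁻¹).toWord)) :
    hd (theta i p q (w * g)) = hd w := by
  have h1 := hd_theta_i hp hq g s hg
  have h2 := hd_mul_inv_of_not_suffix w _ hns
  rw [inv_inv] at h2
  have e1 : theta i p q (w * g) = (w * Rf p q s) * ((Rf p q s)⁻¹ * theta i p q g) := by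
    rw [_root_.map_mul, theta_fix _ _ hw]
    group
  have hw1 : w ≠ 1 := by
    rintro rfl
    apply hns
    simp
  have hne : w * Rf p q s ≠ 1 := by
    intro h
    rw [h, hd_one] at h2
    exact hw1 (hd_eq_none.1 h2.symm)
  rw [e1, hd_mul_nc (no_cancel_ZS ((ZS i).mul_mem hw (Rf_mem hp hq s)) h1) hne, h2]

/-- the general restriction -/
lemma restriction [Fintype α] {E : Set (FreeGroup α)} {u t : FreeGroup α}
    (hu : PosLine E u) (f : FreeGroup α ≃* FreeGroup α) {g : FreeGroup α}
    {A B : Finset (α × Bool)} (hl : IsLeaf (f ⁻¹' E) g A B) {x y : α × Bool} (hx : x ∈ A)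
    (hy : y ∈ B) {c : FreeGroup α} (hc : c = t⁻¹ * u * t)
    (h1 : ∀ n : ℕ, hd (f.symm (c ^ (n + 1))) = some y)
    (h2 : ∀ n : ℕ, hd (f.symm ((c ^ (n + 1))⁻¹)) = some x) : False := by
  have hc1 : c ≠ 1 := by
    rintro rfl
    have := h1 0
    simp at this
  have hinj : Function.Injective (fun n : ℕ => c ^ n) := by
    rw [injective_pow_iff_not_isOfFinOrder]
    exact not_isOfFinOrder_of_isMulTorsionFree hc1
  have hpow : ∀ n : ℕ, c ^ n = t⁻¹ * u ^ n * t := by
    intro n
    rw [hc]
    have := conj_pow (i := n) (a := t⁻¹) (b := u)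
    rw [inv_inv] at this
    exact this
  have ev1 : ∀ᶠ n : ℕ in atTop, f g * t⁻¹ * (u ^ n)⁻¹ * t ∈ E := by
    have hfin := hl.hA x hx
    have hpre : {n : ℕ | f.symm ((c ^ n)⁻¹) ∈ (Cn x ∩ (tr g (f ⁻¹' E))ᶜ)}.Finite := by
      apply Set.Finite.preimage _ hfin
      intro a _ b _ hab
      exact hinj (inv_injective (f.symm.injective hab))
    obtain ⟨M, hM⟩ := hpre.bddAbove
    filter_upwards [eventually_gt_atTop (max M 0)] with n hn
    by_contra hcon
    have hnM : M < n := lt_of_le_of_lt (le_max_left _ _) hn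
    have hn0 : 0 < n := lt_of_le_of_lt (Nat.zero_le _) hn
    obtain ⟨m, rfl⟩ : ∃ m, n = m + 1 := ⟨n - 1, by omega⟩
    have : (m + 1) ≤ M := by
      apply hM
      refine ⟨h2 m, ?_⟩
      intro hmem
      apply hcon
      rw [mem_tr, Set.mem_preimage, _root_.map_mul, MulEquiv.apply_symm_apply, hpow] at hmem
      convert hmem using 1
      group
    omega
  have ev2 : ∀ᶠ n : ℕ in atTop, f g * t⁻¹ * u ^ n * t ∉ E := by
    have hfin := hl.hB y hy
    have hpre : {n : ℕ | f.symm (c ^ n) ∈ (Cn y ∩ tr g (f ⁻¹' E))}.Finite := by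
      apply Set.Finite.preimage _ hfin
      intro a _ b _ hab
      exact hinj (f.symm.injective hab)
    obtain ⟨M, hM⟩ := hpre.bddAbove
    filter_upwards [eventually_gt_atTop (max M 0)] with n hn
    intro hcon
    have hnM : M < n := lt_of_le_of_lt (le_max_left _ _) hn
    have hn0 : 0 < n := lt_of_le_of_lt (Nat.zero_le _) hn
    obtain ⟨m, rfl⟩ : ∃ m, n = m + 1 := ⟨n - 1, by omega⟩
    have : (m + 1) ≤ M := by
      apply hM
      refine ⟨h1 m, ?_⟩
      rw [mem_tr, Set.mem_preimage, _root_.map_mul, MulEquiv.apply_symm_apply, hpow]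
      convert hcon using 1
      group
    omega
  exact hu _ _ ⟨ev1, ev2⟩

/-! ### powers of cyclically reduced words -/

lemma mk_pow_toWord {c : List (α × Bool)} (hc : FreeGroup.IsCyclicallyReduced c) (n : ℕ) :
    ((FreeGroup.mk c) ^ n).toWord = (List.replicate n c).flatten := by
  have h1 := (hc.flatten_replicate n).isReduced
  rw [toWord_pow, toWord_mk, hc.isReduced.reduce_eq, h1.reduce_eq]

lemma mk_pow_eq {c : List (α × Bool)} (n : ℕ) :
    (FreeGroup.mk c) ^ n = FreeGroup.mk (List.replicate n c).flatten := by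
  induction n with
  | zero => rfl
  | succ n ih =>
    rw [pow_succ', ih, FreeGroup.mul_mk, List.replicate_succ, List.flatten_cons]

lemma hd_mk_pow {c : List (α × Bool)} (hc : FreeGroup.IsCyclicallyReduced c) {y : α × Bool}
    {L : List (α × Bool)} (h : c = y :: L) (n : ℕ) :
    hd ((FreeGroup.mk c) ^ (n + 1)) = some y := by
  unfold hd
  rw [mk_pow_toWord hc, List.replicate_succ, List.flatten_cons, h]
  rfl

lemma hd_mk_pow_inv {c : List (α × Bool)} (hc : FreeGroup.IsCyclicallyReduced c) {x : α × Bool}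
    {L : List (α × Bool)} (h : c = L ++ [x]) (n : ℕ) :
    hd (((FreeGroup.mk c) ^ (n + 1))⁻¹) = some (nv x) := by
  rw [hd_inv, mk_pow_toWord hc, List.replicate_succ', List.flatten_concat, h,
    ← List.append_assoc, List.getLast?_concat]
  rfl

/-- `c = v ++ m ++ v'` with `v` in the free factor, `m` starting with `(i, s)` -/
lemma hd_theta_pow {i : α} {p q : FreeGroup α} (hp : p ∈ ZS i) (hq : q ∈ ZS i)
    {c v r : List (α × Bool)} {s : Bool} {y : α × Bool}
    (hc : FreeGroup.IsCyclicallyReduced c) (hcv : c = (y :: v) ++ ((i, s) :: r))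
    (hv : ∀ z ∈ y :: v, z.1 ≠ i) (hns : ¬ ((y :: v) <:+ ((Rf p q s)⁻¹).toWord)) (n : ℕ) :
    hd (theta i p q ((FreeGroup.mk c) ^ (n + 1))) = some y := by
  have hred := (hc.flatten_replicate (n + 1)).isReduced
  rw [List.replicate_succ, List.flatten_cons] at hred
  have e1 : c ++ (List.replicate n c).flatten
      = (y :: v) ++ ((i, s) :: (r ++ (List.replicate n c).flatten)) := by
    rw [hcv]
    simp
  rw [e1] at hred
  have r1 : FreeGroup.IsReduced (y :: v) :=
    red_of hred ⟨[], _, by rw [List.nil_append]⟩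
  have r2 : FreeGroup.IsReduced ((i, s) :: (r ++ (List.replicate n c).flatten)) :=
    red_of hred ⟨y :: v, [], by rw [List.append_nil]⟩
  have e2 : (FreeGroup.mk c) ^ (n + 1) = FreeGroup.mk (y :: v) *
      FreeGroup.mk ((i, s) :: (r ++ (List.replicate n c).flatten)) := by
    rw [mk_pow_eq, FreeGroup.mul_mk, List.replicate_succ, List.flatten_cons, e1]
  rw [e2, hd_theta_Z hp hq (w := FreeGroup.mk (y :: v)) (s := s)]
  · unfold hd
    rw [toWord_mk, r1.reduce_eq]
    rfl
  · intro z hz
    rw [toWord_mk, r1.reduce_eq] at hz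
    exact hv z hz
  · unfold hd
    rw [toWord_mk, r2.reduce_eq]
    rfl
  · rw [toWord_mk, r1.reduce_eq]
    exact hns

lemma invRev_cyc {c : List (α × Bool)} (hc : FreeGroup.IsCyclicallyReduced c) :
    FreeGroup.IsCyclicallyReduced (FreeGroup.invRev c) := by
  refine ⟨?_, ?_⟩
  · have h1 := hc.isReduced
    rw [isReduced_iff_reduce_eq] at h1 ⊢
    rw [reduce_invRev, h1]
  · intro a ha b hb hab
    unfold FreeGroup.invRev at ha hb
    rw [List.getLast?_reverse, Option.mem_def] at ha
    rw [List.head?_reverse, Option.mem_def] at hb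
    rw [List.head?_map, Option.map_eq_some_iff] at ha
    rw [List.getLast?_map, Option.map_eq_some_iff] at hb
    obtain ⟨a', ha', rfl⟩ := ha
    obtain ⟨b', hb', rfl⟩ := hb
    have := hc.2 b' hb' a' ha' hab.symm
    simp only at this ⊢
    rw [this]

/-- **Second restriction**, word form. -/
lemma second_restriction [Fintype α] {E : Set (FreeGroup α)} {u t : FreeGroup α}
    (hu : PosLine E u) {i : α} {p q : FreeGroup α} (hp : p ∈ ZS i) (hq : q ∈ ZS i)
    {g : FreeGroup α} {A B : Finset (α × Bool)}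
    (hl : IsLeaf (theta i p⁻¹ q⁻¹ ⁻¹' E) g A B)
    {x y : α × Bool} (hx : nv x ∈ A) (hy : y ∈ B)
    {v w m : List (α × Bool)} {s s' : Bool}
    (hm : ∃ r, m = (i, s) :: r) (hm' : ∃ r, m = r ++ [(i, s')])
    (hv : ∀ z ∈ y :: v, z.1 ≠ i) (hw : ∀ z ∈ w ++ [x], z.1 ≠ i)
    (hc : FreeGroup.IsCyclicallyReduced ((y :: v) ++ m ++ (w ++ [x])))
    (hconj : FreeGroup.mk ((y :: v) ++ m ++ (w ++ [x])) = t⁻¹ * u * t) :
    ((y :: v) <:+ ((Rf p q s)⁻¹).toWord) ∨
      (FreeGroup.invRev (w ++ [x]) <:+ ((Rf p q (!s'))⁻¹).toWord) := by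
  by_contra hcon
  push Not at hcon
  obtain ⟨h1, h2⟩ := hcon
  obtain ⟨r, hr⟩ := hm
  obtain ⟨r', hr'⟩ := hm'
  set c := (y :: v) ++ m ++ (w ++ [x]) with hcdef
  have hpi := (ZS i).inv_mem hp
  have hqi := (ZS i).inv_mem hq
  have hsymm : ∀ h, (thetaE i p⁻¹ q⁻¹ hpi hqi).symm h = theta i p q h := by
    intro h
    apply (thetaE i p⁻¹ q⁻¹ hpi hqi).injective
    rw [MulEquiv.apply_symm_apply, thetaE_apply, theta_theta hp hq]
    simp [theta_one]
  refine restriction (t := t) hu (thetaE i p⁻¹ q⁻¹ hpi hqi) hl hx hy hconj ?_ ?_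
  · intro n
    rw [hsymm]
    apply hd_theta_pow hp hq hc (v := v) (r := r ++ (w ++ [x])) (s := s) _ hv h1
    rw [hcdef, hr]
    simp
  · intro n
    rw [hsymm]
    have e1 : ((FreeGroup.mk c) ^ (n + 1))⁻¹ = (FreeGroup.mk (FreeGroup.invRev c)) ^ (n + 1) := by
      rw [← FreeGroup.inv_mk, inv_pow]
    rw [e1]
    have e2 : FreeGroup.invRev (w ++ [x]) = nv x :: FreeGroup.invRev w := by
      rw [FreeGroup.invRev_append]
      rfl
    have e3 : FreeGroup.invRev c = (nv x :: FreeGroup.invRev w) ++
        ((i, !s') :: (FreeGroup.invRev r' ++ FreeGroup.invRev (y :: v))) := by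
      rw [hcdef, FreeGroup.invRev_append (L₁ := (y :: v) ++ m), e2, hr',
        FreeGroup.invRev_append, FreeGroup.invRev_append]
      simp [FreeGroup.invRev]
    apply hd_theta_pow hp hq (invRev_cyc hc) e3
    · intro z hz
      rw [← e2] at hz
      unfold FreeGroup.invRev at hz
      rw [List.mem_reverse, List.mem_map] at hz
      obtain ⟨z', hz', rfl⟩ := hz
      exact hw z' hz'
    · rw [← e2]
      exact h2

/-- **First restriction**, word form. -/
lemma first_restriction [Fintype α] {E : Set (FreeGroup α)} {u t : FreeGroup α}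
    (hu : PosLine E u) {g : FreeGroup α} {A B : Finset (α × Bool)}
    (hl : IsLeaf E g A B) {x y : α × Bool} (hx : nv x ∈ A) (hy : y ∈ B)
    {c : List (α × Bool)} (hc : FreeGroup.IsCyclicallyReduced c)
    (h1 : c.head? = some y) (h2 : c.getLast? = some x)
    (hconj : FreeGroup.mk c = t⁻¹ * u * t) : False := by
  obtain ⟨L, hL⟩ : ∃ L, c = y :: L := by
    cases hcc : c with
    | nil => rw [hcc] at h1; simp at h1
    | cons a L =>
      rw [hcc] at h1
      simp only [List.head?_cons, Option.some.injEq] at h1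
      exact ⟨L, by rw [h1]⟩
  obtain ⟨L', hL'⟩ : ∃ L', c = L' ++ [x] := by
    rw [List.getLast?_eq_some_iff] at h2
    exact h2
  refine restriction (t := t) hu (MulEquiv.refl _) (g := g) (A := A) (B := B) hl hx hy hconj ?_ ?_
  · intro n
    exact hd_mk_pow hc hL n
  · intro n
    exact hd_mk_pow_inv hc hL' n

end Pool.Agent.Helper35.PP
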