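import Mathlib
import Pool.Agent.Helper35.PP.Words

/-!
Helper file for MP_bec853_al: generating functions of languages.
-/

namespace Pool.Agent.Helper35.PP

open scoped ENNReal

variable {β : Type*}

/-- generating function of a set of words -/
noncomputable def W (z : ℝ≥0∞) (S : Set (List β)) : ℝ≥0∞ := ∑' w : S, z ^ (w : List β).length

lemma W_mono {z : ℝ≥0∞} {S T : Set (List β)} (h : S ⊆ T) : W z S ≤ W z T :=
  ENNReal.tsum_mono_subtype (fun w : List β => z ^ w.length) h

lemma W_union_le (z : ℝ≥0∞) (S T : Set (List β)) : W z (S ∪ T) ≤ W z S + W z T :=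
  ENNReal.tsum_union_le (fun w : List β => z ^ w.length) S T

lemma W_iUnion_le {ι : Type*} [Fintype ι] (z : ℝ≥0∞) (S : ι → Set (List β)) :
    W z (⋃ i, S i) ≤ ∑ i, W z (S i) :=
  ENNReal.tsum_iUnion_le (fun w : List β => z ^ w.length) S

lemma W_biUnion_le {ι : Type*} (z : ℝ≥0∞) (s : Finset ι) (S : ι → Set (List β)) :
    W z (⋃ i ∈ s, S i) ≤ ∑ i ∈ s, W z (S i) :=
  ENNReal.tsum_biUnion_le (fun w : List β => z ^ w.length) s S

@[simp] lemma W_empty (z : ℝ≥0∞) : W z (∅ : Set (List β)) = 0 := by
  simp [W]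

lemma W_singleton (z : ℝ≥0∞) (w : List β) : W z {w} = z ^ w.length := by
  simp [W]

/-- product of languages -/
def app (A B : Set (List β)) : Set (List β) := {w | ∃ a ∈ A, ∃ b ∈ B, w = a ++ b}

lemma W_app_le (z : ℝ≥0∞) (A B : Set (List β)) : W z (app A B) ≤ W z A * W z B := by
  have hs : Function.Surjective (fun p : A × B =>
      (⟨p.1.1 ++ p.2.1, ⟨p.1.1, p.1.2, p.2.1, p.2.2, rfl⟩⟩ : app A B)) := by
    rintro ⟨w, a, ha, b, hb, rfl⟩
    exact ⟨(⟨a, ha⟩, ⟨b, hb⟩), rfl⟩
  calc W z (app A B) ≤ ∑' p : A × B, z ^ (p.1.1 ++ p.2.1).length :=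
        ENNReal.tsum_le_tsum_comp_of_surjective hs (fun w : app A B => z ^ (w : List β).length)
    _ = ∑' p : A × B, z ^ (p.1.1).length * z ^ (p.2.1).length := by
        congr 1
        ext p
        rw [List.length_append, pow_add]
    _ = W z A * W z B := by
        rw [ENNReal.tsum_prod (f := fun (a : A) (b : B) =>
          z ^ (a : List β).length * z ^ (b : List β).length)]
        simp only [ENNReal.tsum_mul_left, ENNReal.tsum_mul_right]
        rfl

/-- transport along an injective length-preserving map -/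
lemma W_preimage_le (z : ℝ≥0∞) (f : List β → List β) (hf : Function.Injective f)
    (hl : ∀ w, (f w).length = w.length) (S : Set (List β)) : W z (f ⁻¹' S) ≤ W z S := by
  have hinj : Function.Injective (fun w : (f ⁻¹' S) => (⟨f w.1, w.2⟩ : S)) := by
    rintro ⟨a, ha⟩ ⟨b, hb⟩ hab
    simp only [Subtype.mk.injEq] at hab
    exact Subtype.ext (hf hab)
  have := ENNReal.tsum_comp_le_tsum_of_injective hinj (fun w : S => z ^ (w : List β).length)
  simpa [W, hl] using this

lemma W_le_of_trunc {z C : ℝ≥0∞} {S : Set (List β)}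
    (h : ∀ n : ℕ, W z (S ∩ {w | w.length ≤ n}) ≤ C) : W z S ≤ C := by
  classical
  have e : ∀ T : Set (List β), W z T = ∑' w : List β, T.indicator (fun w => z ^ w.length) w := by
    intro T
    unfold W
    exact tsum_subtype T (fun w => z ^ w.length)
  rw [e, ENNReal.tsum_eq_iSup_sum]
  apply iSup_le
  intro F
  have hb : ∀ w ∈ F, w.length ≤ F.sup List.length := fun w hw => Finset.le_sup (f := List.length) hw
  refine le_trans ?_ (h (F.sup List.length))
  rw [e]
  refine le_trans ?_ (ENNReal.sum_le_tsum F)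
  apply Finset.sum_le_sum
  intro w hw
  by_cases hS : w ∈ S
  · rw [Set.indicator_of_mem hS, Set.indicator_of_mem]
    exact ⟨hS, hb w hw⟩
  · rw [Set.indicator_of_notMem hS]
    exact zero_le

/-- a coefficient bound -/
lemma ncard_mul_pow_le [Finite β] (z : ℝ≥0∞) (S : Set (List β)) (n : ℕ) :
    ((S ∩ {w | w.length = n}).ncard : ℝ≥0∞) * z ^ n ≤ W z S := by
  have hfin : (S ∩ {w : List β | w.length = n}).Finite :=
    (List.finite_length_eq β n).subset Set.inter_subset_right
  refine le_trans ?_ (W_mono (S := S ∩ {w | w.length = n}) Set.inter_subset_left)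
  unfold W
  have hc : ∀ w : (S ∩ {w : List β | w.length = n} : Set (List β)),
      z ^ (w : List β).length = z ^ n := by
    rintro ⟨w, hw⟩
    have h2 : w.length = n := hw.2
    simp only [h2]
  rw [tsum_congr hc, ENNReal.tsum_const]
  gcongr
  rw [Set.ncard_eq_toFinset_card _ hfin, ENat.card_coe_set_eq, hfin.encard_eq_coe_toFinset_card]
  simp

end Pool.Agent.Helper35.PP
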