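import Mathlib
import Pool.Agent.Helper35.PP.Weight

/-!
Helper file for MP_bec853_al: languages given by forbidden consecutive letters.
-/

namespace Pool.Agent.Helper35.PP

open scoped ENNReal

section chain

variable {β : Type*}

/-- words over `Λ` with consecutive letters related by `R` -/
def Ch (Λ : Finset β) (R : β → β → Prop) : Set (List β) :=
  {w | (∀ x ∈ w, x ∈ Λ) ∧ w.IsChain R}

/-- words in `Ch Λ R` starting with `x` -/
def Cx (Λ : Finset β) (R : β → β → Prop) (x : β) : Set (List β) :=
  {w | w ∈ Ch Λ R ∧ w.head? = some x}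

lemma Cx_trunc_le {Λ : Finset β} {R : β → β → Prop} [DecidableRel R] {z : ℝ≥0∞} {U : β → ℝ≥0∞}
    (hU : ∀ x ∈ Λ, z * (1 + ∑ y ∈ Λ with R x y, U y) ≤ U x) (n : ℕ) :
    ∀ x ∈ Λ, W z (Cx Λ R x ∩ {w | w.length ≤ n}) ≤ U x := by
  induction n with
  | zero =>
    intro x hx
    have : Cx Λ R x ∩ {w | w.length ≤ 0} = ∅ := by
      ext w
      simp only [Set.mem_inter_iff, Set.mem_empty_iff_false, iff_false, not_and]
      rintro ⟨-, h⟩ h0
      have h0' : w.length ≤ 0 := h0
      have : w = [] := List.length_eq_zero_iff.1 (by omega)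
      rw [this] at h
      simp at h
    rw [this, W_empty]
    exact zero_le
  | succ n ih =>
    intro x hx
    have hsub : Cx Λ R x ∩ {w | w.length ≤ n + 1} ⊆
        app {[x]} ({[]} ∪ ⋃ y ∈ Λ.filter (fun y => R x y), (Cx Λ R y ∩ {w | w.length ≤ n})) := by
      rintro w ⟨⟨⟨h1, h2⟩, h3⟩, h4⟩
      cases w with
      | nil => simp at h3
      | cons a v =>
        simp only [List.head?_cons, Option.some.injEq] at h3
        subst h3
        refine ⟨[a], rfl, v, ?_, rfl⟩
        cases v with
        | nil => left; rfl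
        | cons b v =>
          right
          rw [List.isChain_cons_cons] at h2
          simp only [Set.mem_iUnion, Finset.mem_filter]
          refine ⟨b, ⟨h1 b (by simp), h2.1⟩, ⟨⟨?_, h2.2⟩, rfl⟩, ?_⟩
          · intro c hc
            exact h1 c (List.mem_cons_of_mem _ hc)
          · have h4' : (a :: b :: v).length ≤ n + 1 := h4
            simp only [List.length_cons] at h4'
            show (b :: v).length ≤ n
            simp only [List.length_cons]
            omega
    calc W z (Cx Λ R x ∩ {w | w.length ≤ n + 1}) ≤ _ := W_mono hsub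
      _ ≤ W z {[x]} * W z ({[]} ∪ ⋃ y ∈ Λ.filter (fun y => R x y),
          (Cx Λ R y ∩ {w | w.length ≤ n})) := W_app_le _ _ _
      _ ≤ z * (1 + ∑ y ∈ Λ with R x y, U y) := by
          rw [W_singleton]
          simp only [List.length_cons, List.length_nil, zero_add, pow_one]
          gcongr
          refine (W_union_le _ _ _).trans ?_
          rw [W_singleton]
          simp only [List.length_nil, pow_zero]
          gcongr
          refine (W_biUnion_le _ _ _).trans ?_
          apply Finset.sum_le_sum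
          intro y hy
          exact ih y (Finset.mem_filter.1 hy).1
      _ ≤ U x := hU x hx

lemma W_Cx_le {Λ : Finset β} {R : β → β → Prop} [DecidableRel R] {z : ℝ≥0∞} {U : β → ℝ≥0∞}
    (hU : ∀ x ∈ Λ, z * (1 + ∑ y ∈ Λ with R x y, U y) ≤ U x) {x : β} (hx : x ∈ Λ) :
    W z (Cx Λ R x) ≤ U x :=
  W_le_of_trunc (fun n => Cx_trunc_le hU n x hx)

lemma W_Ch_le {Λ : Finset β} {R : β → β → Prop} [DecidableRel R] {z : ℝ≥0∞} {U : β → ℝ≥0∞}
    (hU : ∀ x ∈ Λ, z * (1 + ∑ y ∈ Λ with R x y, U y) ≤ U x) :
    W z (Ch Λ R) ≤ 1 + ∑ x ∈ Λ, U x := by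
  have hsub : Ch Λ R ⊆ {[]} ∪ ⋃ x ∈ Λ, Cx Λ R x := by
    intro w hw
    cases w with
    | nil => left; rfl
    | cons a v =>
      right
      simp only [Set.mem_iUnion]
      exact ⟨a, hw.1 a (by simp), hw, rfl⟩
  refine (W_mono hsub).trans ((W_union_le _ _ _).trans ?_)
  rw [W_singleton]
  simp only [List.length_nil, pow_zero]
  gcongr
  refine (W_biUnion_le _ _ _).trans ?_
  apply Finset.sum_le_sum
  intro y hy
  exact W_Cx_le hU hy

end chain

end Pool.Agent.Helper35.PP
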