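import Mathlib
import Pool.Agent.Helper35.PP.Chain

/-!
Helper file for MP_bec853_al: bound for the languages `Lang`.
-/

namespace Pool.Agent.Helper35.PP

open scoped ENNReal

section real

variable {β : Type*}

lemma W_Cx_le_real {Λ : Finset β} {R : β → β → Prop} [DecidableRel R] {z : ℝ} (hz : 0 ≤ z)
    {u : β → ℝ} (hu : ∀ x, 0 ≤ u x)
    (hU : ∀ x ∈ Λ, z * (1 + ∑ y ∈ Λ with R x y, u y) ≤ u x) {x : β} (hx : x ∈ Λ) :
    W (ENNReal.ofReal z) (Cx Λ R x) ≤ ENNReal.ofReal (u x) := by
  apply W_Cx_le (U := fun x => ENNReal.ofReal (u x)) _ hx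
  intro x hx
  rw [← ENNReal.ofReal_sum_of_nonneg (fun y _ => hu y), ← ENNReal.ofReal_one,
    ← ENNReal.ofReal_add zero_le_one (Finset.sum_nonneg (fun y _ => hu y)),
    ← ENNReal.ofReal_mul hz]
  exact ENNReal.ofReal_le_ofReal (hU x hx)

lemma W_Ch_le_real {Λ : Finset β} {R : β → β → Prop} [DecidableRel R] {z : ℝ} (hz : 0 ≤ z)
    {u : β → ℝ} (hu : ∀ x, 0 ≤ u x)
    (hU : ∀ x ∈ Λ, z * (1 + ∑ y ∈ Λ with R x y, u y) ≤ u x) :
    W (ENNReal.ofReal z) (Ch Λ R) ≤ ENNReal.ofReal (1 + ∑ x ∈ Λ, u x) := by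
  have h := W_Ch_le (Λ := Λ) (R := R) (z := ENNReal.ofReal z)
    (U := fun x => ENNReal.ofReal (u x)) (by
      intro x hx
      rw [← ENNReal.ofReal_sum_of_nonneg (fun y _ => hu y), ← ENNReal.ofReal_one,
        ← ENNReal.ofReal_add zero_le_one (Finset.sum_nonneg (fun y _ => hu y)),
        ← ENNReal.ofReal_mul hz]
      exact ENNReal.ofReal_le_ofReal (hU x hx))
  refine h.trans (le_of_eq ?_)
  rw [← ENNReal.ofReal_sum_of_nonneg (fun y _ => hu y), ← ENNReal.ofReal_one,
    ← ENNReal.ofReal_add zero_le_one (Finset.sum_nonneg (fun y _ => hu y))]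

end real

variable {α : Type*} [DecidableEq α]

/-- the relation of the first restriction -/
def RR (A B : Finset (α × Bool)) (x y : α × Bool) : Prop := y ≠ nv x ∧ ¬ (nv x ∈ A ∧ y ∈ B)

instance (A B : Finset (α × Bool)) : DecidableRel (RR A B) := fun x y => by
  unfold RR
  infer_instance

/-- words avoiding forbidden pairs -/
def Lang (Λ A B : Finset (α × Bool)) : Set (List (α × Bool)) := Ch Λ (RR A B)

lemma card_nv {Λ A : Finset (α × Bool)} (hΛ : ∀ x ∈ Λ, nv x ∈ Λ) (hA : A ⊆ Λ) :
    (Λ.filter (fun x => nv x ∈ A)).card = A.card := by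
  apply Finset.card_bij (fun x _ => nv x)
  · intro x hx
    exact (Finset.mem_filter.1 hx).2
  · intro x _ y _ h
    exact nv_inj h
  · intro y hy
    exact ⟨nv y, by simp [hΛ y (hA hy), hy], nv_nv y⟩

/-- **T-bound**, case `|A| ≤ |B|`. -/
lemma Lang_le_aux {Λ A B : Finset (α × Bool)} (hΛ : ∀ x ∈ Λ, nv x ∈ Λ) (hA : A ⊆ Λ)
    (hdis : Disjoint A B)
    {z T : ℝ} (hz : 0 < z) (hT : 0 ≤ T) {m nx : ℕ} (hm : A.card = m) (hm2 : 2 * m ≤ Λ.card)
    (hnx : (Λ \ B).card ≤ nx + 1) (hnx' : nx ≤ m)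
    (hstar : 1 + m * (z * (1 + nx * (z * T))) + m * (z * T) +
      ((Λ.card : ℝ) - 2 * m) * (z * T / (1 + z)) ≤ T) :
    W (ENNReal.ofReal z) (Lang Λ A B) ≤ ENNReal.ofReal T := by
  set u : α × Bool → ℝ := fun x => if nv x ∈ A then z * (1 + nx * (z * T)) else
    if x ∈ A then z * T else z * T / (1 + z) with hu
  have hzT : 0 ≤ z * T := by positivity
  have hzT1 : 0 ≤ z * T / (1 + z) := by positivity
  have hX0 : 0 ≤ z * (1 + nx * (z * T)) := by positivity
  have hu0 : ∀ x, 0 ≤ u x := by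
    intro x
    simp only [hu]
    split_ifs <;> assumption
  have hsmall : z * T / (1 + z) ≤ z * T := by
    rw [div_le_iff₀ (by linarith)]
    nlinarith
  have hN : (0 : ℝ) ≤ (Λ.card : ℝ) - 2 * m := by
    have : ((2 * m : ℕ) : ℝ) ≤ Λ.card := by exact_mod_cast hm2
    push_cast at this
    linarith
  have hXle : z * (1 + nx * (z * T)) ≤ z * T := by
    apply mul_le_mul_of_nonneg_left _ hz.le
    have h1 : (nx : ℝ) * (z * T) ≤ m * (z * T) := by
      apply mul_le_mul_of_nonneg_right _ hzT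
      exact_mod_cast hnx'
    have h2 : 0 ≤ (m : ℝ) * (z * (1 + nx * (z * T))) := by positivity
    have h3 : 0 ≤ ((Λ.card : ℝ) - 2 * m) * (z * T / (1 + z)) := mul_nonneg hN hzT1
    linarith
  have hule : ∀ x, u x ≤ z * T := by
    intro x
    simp only [hu]
    split_ifs
    · exact hXle
    · exact le_rfl
    · exact hsmall
  -- total
  have htot : 1 + ∑ x ∈ Λ, u x ≤ T := by
    have hsplit : ∑ x ∈ Λ, u x = ∑ x ∈ Λ.filter (fun x => nv x ∈ A), u x +
        ∑ x ∈ Λ.filter (fun x => ¬ nv x ∈ A), u x :=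
      (Finset.sum_filter_add_sum_filter_not _ _ _).symm
    have hsplit2 : ∑ x ∈ Λ.filter (fun x => ¬ nv x ∈ A), u x =
        ∑ x ∈ (Λ.filter (fun x => ¬ nv x ∈ A)).filter (fun x => x ∈ A), u x +
        ∑ x ∈ (Λ.filter (fun x => ¬ nv x ∈ A)).filter (fun x => ¬ x ∈ A), u x :=
      (Finset.sum_filter_add_sum_filter_not _ _ _).symm
    have e1 : ∑ x ∈ Λ.filter (fun x => nv x ∈ A), u x = m * (z * (1 + nx * (z * T))) := by
      rw [Finset.sum_congr rfl (g := fun _ => z * (1 + nx * (z * T)))]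
      · rw [Finset.sum_const, card_nv hΛ hA, hm, nsmul_eq_mul]
      · intro x hx
        simp only [hu]
        rw [if_pos (Finset.mem_filter.1 hx).2]
    set Y := (Λ.filter (fun x => ¬ nv x ∈ A)).filter (fun x => x ∈ A) with hY
    set V := (Λ.filter (fun x => ¬ nv x ∈ A)).filter (fun x => ¬ x ∈ A) with hV
    have e2 : ∑ x ∈ Y, u x = Y.card * (z * T) := by
      rw [Finset.sum_congr rfl (g := fun _ => z * T)]
      · rw [Finset.sum_const, nsmul_eq_mul]
      · intro x hx
        rw [hY, Finset.mem_filter, Finset.mem_filter] at hx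
        simp only [hu]
        rw [if_neg hx.1.2, if_pos hx.2]
    have e3 : ∑ x ∈ V, u x = V.card * (z * T / (1 + z)) := by
      rw [Finset.sum_congr rfl (g := fun _ => z * T / (1 + z))]
      · rw [Finset.sum_const, nsmul_eq_mul]
      · intro x hx
        rw [hV, Finset.mem_filter, Finset.mem_filter] at hx
        simp only [hu]
        rw [if_neg hx.1.2, if_neg hx.2]
    have c1 : (Λ.filter (fun x => nv x ∈ A)).card + (Y.card + V.card) = Λ.card := by
      rw [hY, hV, Finset.card_filter_add_card_filter_not,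
        Finset.card_filter_add_card_filter_not]
    rw [card_nv hΛ hA, hm] at c1
    have c2 : Y.card ≤ m := by
      rw [← hm]
      apply Finset.card_le_card
      intro x hx
      rw [hY, Finset.mem_filter] at hx
      exact hx.2
    have c1' : (m : ℝ) + (Y.card + V.card) = Λ.card := by exact_mod_cast c1
    have c2' : (Y.card : ℝ) ≤ m := by exact_mod_cast c2
    rw [hsplit, hsplit2, e1, e2, e3]
    have hV' : (V.card : ℝ) = Λ.card - m - Y.card := by linarith
    rw [hV']
    nlinarith [mul_nonneg (sub_nonneg.2 c2') (sub_nonneg.2 hsmall)]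
  refine (W_Ch_le_real hz.le hu0 ?_).trans (ENNReal.ofReal_le_ofReal htot)
  intro x hx
  by_cases h1 : nv x ∈ A
  · have hux : u x = z * (1 + nx * (z * T)) := by
      simp only [hu]
      rw [if_pos h1]
    rw [hux]
    apply mul_le_mul_of_nonneg_left _ hz.le
    have hcard : (Λ.filter (fun y => RR A B x y)).card ≤ nx := by
      have hs : insert (nv x) (Λ.filter (fun y => RR A B x y)) ⊆ Λ \ B := by
        intro y hy
        rw [Finset.mem_insert] at hy
        rw [Finset.mem_sdiff]
        rcases hy with rfl | hy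
        · exact ⟨hΛ x hx, Finset.disjoint_left.1 hdis h1⟩
        · rw [Finset.mem_filter] at hy
          exact ⟨hy.1, fun hb => hy.2.2 ⟨h1, hb⟩⟩
      have h2 := Finset.card_le_card hs
      rw [Finset.card_insert_of_notMem] at h2
      · omega
      · intro h
        rw [Finset.mem_filter] at h
        exact h.2.1 rfl
    have : ∑ y ∈ Λ with RR A B x y, u y ≤ nx * (z * T) := by
      calc ∑ y ∈ Λ with RR A B x y, u y ≤ ∑ y ∈ Λ with RR A B x y, z * T :=
            Finset.sum_le_sum (fun y _ => hule y)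
        _ = (Λ.filter (fun y => RR A B x y)).card * (z * T) := by
            rw [Finset.sum_const, nsmul_eq_mul]
        _ ≤ nx * (z * T) := by
            apply mul_le_mul_of_nonneg_right _ hzT
            exact_mod_cast hcard
    linarith
  · by_cases h2 : x ∈ A
    · have hux : u x = z * T := by
        simp only [hu]
        rw [if_neg h1, if_pos h2]
      rw [hux]
      apply mul_le_mul_of_nonneg_left _ hz.le
      refine le_trans ?_ htot
      have : ∑ y ∈ Λ with RR A B x y, u y ≤ ∑ y ∈ Λ, u y :=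
        Finset.sum_le_sum_of_subset_of_nonneg (Finset.filter_subset _ _) (fun y _ _ => hu0 y)
      linarith
    · have hux : u x = z * T / (1 + z) := by
        simp only [hu]
        rw [if_neg h1, if_neg h2]
      have hunx : u (nv x) = z * T / (1 + z) := by
        simp only [hu]
        rw [nv_nv, if_neg h2, if_neg h1]
      have : ∑ y ∈ Λ with RR A B x y, u y + u (nv x) ≤ ∑ y ∈ Λ, u y := by
        have hs : insert (nv x) (Λ.filter (fun y => RR A B x y)) ⊆ Λ := by
          intro y hy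
          rw [Finset.mem_insert] at hy
          rcases hy with rfl | hy
          · exact hΛ x hx
          · exact (Finset.mem_filter.1 hy).1
        have h3 := Finset.sum_le_sum_of_subset_of_nonneg hs (fun y _ _ => hu0 y) (f := u)
        rw [Finset.sum_insert] at h3
        · linarith
        · intro h
          rw [Finset.mem_filter] at h
          exact h.2.1 rfl
      rw [hunx] at this
      rw [hux]
      have h4 : z * (1 + ∑ y ∈ Λ with RR A B x y, u y) ≤ z * (T - z * T / (1 + z)) := by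
        apply mul_le_mul_of_nonneg_left _ hz.le
        linarith
      refine h4.trans (le_of_eq ?_)
      have : (1 + z) ≠ 0 := by positivity
      field_simp
      ring

lemma invRev_isChain {A B : Finset (α × Bool)} {w : List (α × Bool)}
    (h : w.IsChain (RR A B)) : (FreeGroup.invRev w).IsChain (RR B A) := by
  unfold FreeGroup.invRev
  rw [List.isChain_reverse, List.isChain_map]
  apply h.imp
  intro x y hxy
  refine ⟨?_, ?_⟩
  · intro hc
    apply hxy.1
    have : nv x = nv (nv y) := hc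
    rw [nv_nv] at this
    exact this.symm
  · rintro ⟨h1, h2⟩
    apply hxy.2
    refine ⟨h2, ?_⟩
    have : nv (nv y) ∈ B := h1
    rwa [nv_nv] at this

lemma Lang_inv {Λ A B : Finset (α × Bool)} (hΛ : ∀ x ∈ Λ, nv x ∈ Λ) :
    Lang Λ A B ⊆ FreeGroup.invRev ⁻¹' (Lang Λ B A) := by
  intro w hw
  refine ⟨?_, invRev_isChain hw.2⟩
  intro x hx
  unfold FreeGroup.invRev at hx
  rw [List.mem_reverse, List.mem_map] at hx
  obtain ⟨y, hy, rfl⟩ := hx
  exact hΛ y (hw.1 y hy)

lemma Lang_inv_le {Λ A B : Finset (α × Bool)} (hΛ : ∀ x ∈ Λ, nv x ∈ Λ) (z : ℝ≥0∞) :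
    W z (Lang Λ A B) ≤ W z (Lang Λ B A) := by
  refine (W_mono (Lang_inv hΛ)).trans ?_
  apply W_preimage_le _ _ FreeGroup.invRev_injective
  intro w
  exact FreeGroup.invRev_length

/-- the numerical condition -/
def Star (N : ℕ) (z T : ℝ) (m nx : ℕ) : Prop :=
  1 + m * (z * (1 + nx * (z * T))) + m * (z * T) +
      ((N : ℝ) - 2 * m) * (z * T / (1 + z)) ≤ T

/-- **T-bound**. -/
lemma Lang_le {Λ A B : Finset (α × Bool)} (hΛ : ∀ x ∈ Λ, nv x ∈ Λ) (hA : A ⊆ Λ) (hB : B ⊆ Λ)
    (hdis : Disjoint A B) (hmiss : (Λ \ (A ∪ B)).card ≤ 1) {m0 : ℕ} (hmA : m0 ≤ A.card)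
    (hmB : m0 ≤ B.card) {z T : ℝ} (hz : 0 < z) (hT : 0 ≤ T)
    (h1 : ∀ m, m0 ≤ m → 2 * m < Λ.card → Star Λ.card z T m m)
    (h2 : ∀ m, 2 * m = Λ.card → Star Λ.card z T m (m - 1)) :
    W (ENNReal.ofReal z) (Lang Λ A B) ≤ ENNReal.ofReal T := by
  have key : ∀ A B : Finset (α × Bool), A ⊆ Λ → B ⊆ Λ → Disjoint A B →
      (Λ \ (A ∪ B)).card ≤ 1 → m0 ≤ A.card → A.card ≤ B.card →
      W (ENNReal.ofReal z) (Lang Λ A B) ≤ ENNReal.ofReal T := by
    intro A B hA hB hdis hmiss hmA hle
    have hc : (Λ \ (A ∪ B)).card + (A.card + B.card) = Λ.card := by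
      rw [← Finset.card_union_of_disjoint hdis]
      exact Finset.card_sdiff_add_card_eq_card (Finset.union_subset hA hB)
    have hc2 : (Λ \ B).card = A.card + (Λ \ (A ∪ B)).card := by
      have := Finset.card_sdiff_add_card_eq_card hB
      omega
    by_cases h : 2 * A.card < Λ.card
    · exact Lang_le_aux hΛ hA hdis hz hT rfl h.le (nx := A.card) (by omega) le_rfl
        (h1 _ hmA h)
    · have h3 : 2 * A.card = Λ.card := by omega
      exact Lang_le_aux hΛ hA hdis hz hT rfl h3.le (nx := A.card - 1) (by omega) (by omega)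
        (h2 _ h3)
  rcases le_total A.card B.card with h | h
  · exact key A B hA hB hdis hmiss hmA h
  · refine (Lang_inv_le hΛ _).trans ?_
    exact key B A hB hA hdis.symm (by rwa [Finset.union_comm]) hmB h

end Pool.Agent.Helper35.PP
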