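import Mathlib
import Pool.Agent.Helper35.PP.Tbound

/-!
Helper file for MP_bec853_al: blocks.
-/

namespace Pool.Agent.Helper35.PP

open scoped ENNReal

variable {α : Type*} [DecidableEq α]

/-- reduced words over `Λ` -/
def Zr (Λ : Finset (α × Bool)) : Set (List (α × Bool)) := Ch Λ (fun x y => y ≠ nv x)

instance : DecidableRel (fun x y : α × Bool => y ≠ nv x) := fun x y => by
  infer_instance

lemma red_super {Λ : Finset (α × Bool)} (hΛ : ∀ x ∈ Λ, nv x ∈ Λ) {z Φ : ℝ} (hz : 0 ≤ z)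
    (hΦ0 : 0 ≤ Φ) (hΦ : 1 + ((Λ.card : ℝ) - 1) * (z * Φ) ≤ Φ) :
    ∀ x ∈ Λ, z * (1 + ∑ y ∈ Λ with (y ≠ nv x), (fun _ : α × Bool => z * Φ) y) ≤
      (fun _ : α × Bool => z * Φ) x := by
  intro x hx
  simp only
  apply mul_le_mul_of_nonneg_left _ hz
  rw [Finset.sum_const, nsmul_eq_mul]
  refine le_trans ?_ hΦ
  have : (Λ.filter (fun y => y ≠ nv x)).card = Λ.card - 1 := by
    rw [Finset.filter_ne', Finset.card_erase_of_mem (hΛ x hx)]
  rw [this, Nat.cast_sub (Finset.card_pos.2 ⟨x, hx⟩)]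
  push_cast
  exact le_rfl

lemma W_Cx_red {Λ : Finset (α × Bool)} (hΛ : ∀ x ∈ Λ, nv x ∈ Λ) {z Φ : ℝ} (hz : 0 ≤ z)
    (hΦ0 : 0 ≤ Φ) (hΦ : 1 + ((Λ.card : ℝ) - 1) * (z * Φ) ≤ Φ) (x : α × Bool) :
    W (ENNReal.ofReal z) (Cx Λ (fun x y => y ≠ nv x) x) ≤ ENNReal.ofReal (z * Φ) := by
  by_cases hx : x ∈ Λ
  · exact W_Cx_le_real hz (fun _ => mul_nonneg hz hΦ0) (red_super hΛ hz hΦ0 hΦ) hx
  · have : Cx Λ (fun x y => y ≠ nv x) x = ∅ := by
      ext w
      simp only [Set.mem_empty_iff_false, iff_false]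
      rintro ⟨⟨h1, -⟩, h2⟩
      cases w with
      | nil => simp at h2
      | cons a v =>
        simp only [List.head?_cons, Option.some.injEq] at h2
        subst h2
        exact hx (h1 a (by simp))
    rw [this, W_empty]
    exact zero_le

lemma W_Zr {Λ : Finset (α × Bool)} (hΛ : ∀ x ∈ Λ, nv x ∈ Λ) {z Φ : ℝ} (hz : 0 ≤ z)
    (hΦ0 : 0 ≤ Φ) (hΦ : 1 + ((Λ.card : ℝ) - 1) * (z * Φ) ≤ Φ) :
    W (ENNReal.ofReal z) (Zr Λ) < ⊤ := by
  refine lt_of_le_of_lt (W_Ch_le_real hz (fun _ => mul_nonneg hz hΦ0) (red_super hΛ hz hΦ0 hΦ)) ?_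
  exact ENNReal.ofReal_lt_top

/-- blocks with a prescribed beginning -/
def BlkP (Λ : Finset (α × Bool)) (t : (α × Bool) × (α × Bool)) : Set (List (α × Bool)) :=
  {w | w ∈ Zr Λ ∧ [t.1, t.2] <+: w}

/-- blocks with a prescribed end -/
def BlkS (Λ : Finset (α × Bool)) (t : (α × Bool) × (α × Bool)) : Set (List (α × Bool)) :=
  {w | w ∈ Zr Λ ∧ [t.1, t.2] <:+ w}

/-- generic blocks -/
def BlkG (Λ A B : Finset (α × Bool)) (a b : α × Bool) : Set (List (α × Bool)) :=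
  app {[], [a]} (app (Lang Λ A B) {[], [b]})

lemma Zr_tail {Λ : Finset (α × Bool)} {a : α × Bool} {w : List (α × Bool)}
    (h : a :: w ∈ Zr Λ) : w ∈ Zr Λ :=
  ⟨fun x hx => h.1 x (List.mem_cons_of_mem _ hx), h.2.tail⟩

lemma Zr_inv {Λ : Finset (α × Bool)} (hΛ : ∀ x ∈ Λ, nv x ∈ Λ) {w : List (α × Bool)}
    (hw : w ∈ Zr Λ) : FreeGroup.invRev w ∈ Zr Λ := by
  refine ⟨?_, ?_⟩
  · intro x hx
    unfold FreeGroup.invRev at hx
    rw [List.mem_reverse, List.mem_map] at hx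
    obtain ⟨y, hy, rfl⟩ := hx
    exact hΛ y (hw.1 y hy)
  · unfold FreeGroup.invRev
    rw [List.isChain_reverse, List.isChain_map]
    apply hw.2.imp
    intro x y hxy hc
    apply hxy
    have : nv x = nv (nv y) := hc
    rw [nv_nv] at this
    exact this.symm

lemma W_BlkP {Λ : Finset (α × Bool)} (hΛ : ∀ x ∈ Λ, nv x ∈ Λ) {z Φ : ℝ} (hz : 0 ≤ z)
    (hΦ0 : 0 ≤ Φ) (hΦ : 1 + ((Λ.card : ℝ) - 1) * (z * Φ) ≤ Φ) (t : (α × Bool) × (α × Bool)) :
    W (ENNReal.ofReal z) (BlkP Λ t) ≤ ENNReal.ofReal (z ^ 2 * Φ) := by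
  have hsub : BlkP Λ t ⊆ app {[t.1]} (Cx Λ (fun x y => y ≠ nv x) t.2) := by
    rintro w ⟨hw, v, rfl⟩
    exact ⟨[t.1], rfl, [t.2] ++ v, ⟨Zr_tail hw, rfl⟩, rfl⟩
  refine (W_mono hsub).trans ((W_app_le _ _ _).trans ?_)
  rw [W_singleton]
  refine (mul_le_mul_right (W_Cx_red hΛ hz hΦ0 hΦ t.2) _).trans ?_
  simp only [List.length_cons, List.length_nil, zero_add, pow_one]
  rw [← ENNReal.ofReal_mul hz]
  apply ENNReal.ofReal_le_ofReal
  rw [← mul_assoc, ← sq]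

lemma W_BlkS {Λ : Finset (α × Bool)} (hΛ : ∀ x ∈ Λ, nv x ∈ Λ) {z Φ : ℝ} (hz : 0 ≤ z)
    (hΦ0 : 0 ≤ Φ) (hΦ : 1 + ((Λ.card : ℝ) - 1) * (z * Φ) ≤ Φ) (t : (α × Bool) × (α × Bool)) :
    W (ENNReal.ofReal z) (BlkS Λ t) ≤ ENNReal.ofReal (z ^ 2 * Φ) := by
  have hsub : BlkS Λ t ⊆ FreeGroup.invRev ⁻¹' (BlkP Λ (nv t.2, nv t.1)) := by
    rintro w ⟨hw, v, rfl⟩
    refine ⟨Zr_inv hΛ hw, ?_⟩
    rw [FreeGroup.invRev_append]
    exact ⟨FreeGroup.invRev v, rfl⟩
  refine (W_mono hsub).trans ?_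
  refine (W_preimage_le _ _ FreeGroup.invRev_injective (fun w => FreeGroup.invRev_length) _).trans ?_
  exact W_BlkP hΛ hz hΦ0 hΦ _

lemma W_pair_le {z : ℝ} (hz : 0 ≤ z) (a : α × Bool) :
    W (ENNReal.ofReal z) ({[], [a]} : Set (List (α × Bool))) ≤ ENNReal.ofReal (1 + z) := by
  refine (W_union_le _ {[]} {[a]}).trans ?_
  rw [W_singleton, W_singleton, ENNReal.ofReal_add zero_le_one hz]
  simp

lemma W_BlkG {Λ A B : Finset (α × Bool)} {z T : ℝ} (hz : 0 ≤ z) (hT0 : 0 ≤ T)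
    (hT : W (ENNReal.ofReal z) (Lang Λ A B) ≤ ENNReal.ofReal T) (a b : α × Bool) :
    W (ENNReal.ofReal z) (BlkG Λ A B a b) ≤ ENNReal.ofReal ((1 + z) * (T * (1 + z))) := by
  refine (W_app_le _ _ _).trans ?_
  rw [ENNReal.ofReal_mul (by positivity), ENNReal.ofReal_mul hT0]
  refine mul_le_mul' (W_pair_le hz a) ((W_app_le _ _ _).trans ?_)
  exact mul_le_mul' hT (W_pair_le hz b)

/-- all blocks -/
def Blk (Λ A B : Finset (α × Bool)) (t t' : (α × Bool) × (α × Bool)) : Set (List (α × Bool)) :=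
  BlkP Λ t ∪ (BlkS Λ t' ∪ BlkG Λ A B t.1 t'.2)

lemma W_Blk {Λ A B : Finset (α × Bool)} (hΛ : ∀ x ∈ Λ, nv x ∈ Λ) {z Φ T : ℝ} (hz : 0 ≤ z)
    (hΦ0 : 0 ≤ Φ) (hΦ : 1 + ((Λ.card : ℝ) - 1) * (z * Φ) ≤ Φ) (hT0 : 0 ≤ T)
    (hT : W (ENNReal.ofReal z) (Lang Λ A B) ≤ ENNReal.ofReal T)
    (t t' : (α × Bool) × (α × Bool)) :
    W (ENNReal.ofReal z) (Blk Λ A B t t') ≤
      ENNReal.ofReal (z ^ 2 * Φ + (z ^ 2 * Φ + (1 + z) * (T * (1 + z)))) := by
  rw [ENNReal.ofReal_add (by positivity) (by positivity),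
    ENNReal.ofReal_add (by positivity) (by positivity)]
  refine (W_union_le _ _ _).trans ?_
  refine add_le_add (W_BlkP hΛ hz hΦ0 hΦ t) ?_
  refine (W_union_le _ _ _).trans ?_
  exact add_le_add (W_BlkS hΛ hz hΦ0 hΦ t') (W_BlkG hz hT0 hT _ _)

/-- blocks starting with a prescribed letter -/
def BlkH (Λ A B : Finset (α × Bool)) (t t' : (α × Bool) × (α × Bool)) (ℓ : α × Bool) :
    Set (List (α × Bool)) := {w | w ∈ Blk Λ A B t t' ∧ w.head? = some ℓ}

lemma Lang_nil (Λ A B : Finset (α × Bool)) : ([] : List (α × Bool)) ∈ Lang Λ A B :=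
  ⟨by simp, List.isChain_nil⟩

lemma W_BlkH {Λ A B : Finset (α × Bool)} (hΛ : ∀ x ∈ Λ, nv x ∈ Λ) {z Φ T : ℝ} (hz : 0 ≤ z)
    (hΦ0 : 0 ≤ Φ) (hΦ : 1 + ((Λ.card : ℝ) - 1) * (z * Φ) ≤ Φ) (hT0 : 0 ≤ T)
    (hT : W (ENNReal.ofReal z) (Lang Λ A B) ≤ ENNReal.ofReal T)
    (t t' : (α × Bool) × (α × Bool)) (ℓ : α × Bool) :
    W (ENNReal.ofReal z) (BlkH Λ A B t t' ℓ) ≤
      ENNReal.ofReal (z ^ 2 * Φ + ((z ^ 2 + z * (z ^ 2 * Φ)) + z * (T * (1 + z)))) := by
  have hsub : BlkH Λ A B t t' ℓ ⊆ BlkP Λ t ∪ (({[t'.1, t'.2]} ∪ app {[ℓ]} (BlkS Λ t')) ∪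
      app {[ℓ]} (app (Lang Λ A B) {[], [t'.2]})) := by
    rintro w ⟨hw, hh⟩
    rcases hw with hw | hw | hw
    · exact Or.inl hw
    · right; left
      obtain ⟨hw, v, hv⟩ := hw
      cases v with
      | nil => left; exact hv.symm
      | cons c v =>
        right
        have hc : c = ℓ := by
          rw [← hv] at hh
          simpa using hh
        refine ⟨[ℓ], rfl, v ++ [t'.1, t'.2], ⟨?_, v, rfl⟩, ?_⟩
        · rw [← hv] at hw
          exact Zr_tail hw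
        · rw [← hv, hc]; rfl
    · right; right
      obtain ⟨w1, hw1, w', ⟨w2, hw2, w3, hw3, rfl⟩, rfl⟩ := hw
      rcases hw1 with hw1 | hw1
      · subst hw1
        cases w2 with
        | nil =>
          rcases hw3 with hw3 | hw3
          · subst hw3
            simp at hh
          · rw [Set.mem_singleton_iff] at hw3
            subst hw3
            simp only [List.nil_append, List.head?_cons, Option.some.injEq] at hh
            refine ⟨[ℓ], rfl, [], ⟨[], Lang_nil _ _ _, [], Or.inl rfl, rfl⟩, ?_⟩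
            rw [← hh]; rfl
        | cons c w2 =>
          simp only [List.nil_append, List.cons_append, List.head?_cons,
            Option.some.injEq] at hh
          subst hh
          refine ⟨[c], rfl, w2 ++ w3, ⟨w2, ?_, w3, hw3, rfl⟩, rfl⟩
          exact ⟨fun x hx => hw2.1 x (List.mem_cons_of_mem _ hx), hw2.2.tail⟩
      · rw [Set.mem_singleton_iff] at hw1
        subst hw1
        simp only [List.cons_append, List.nil_append, List.head?_cons,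
            Option.some.injEq] at hh
        refine ⟨[ℓ], rfl, w2 ++ w3, ⟨w2, hw2, w3, hw3, rfl⟩, ?_⟩
        rw [← hh]
  refine (W_mono hsub).trans ((W_union_le _ _ _).trans ?_)
  have hz' : 0 ≤ z ^ 2 * Φ := by positivity
  rw [ENNReal.ofReal_add (by positivity) (by positivity),
    ENNReal.ofReal_add (by positivity) (by positivity)]
  refine add_le_add (W_BlkP hΛ hz hΦ0 hΦ t) ((W_union_le _ _ _).trans ?_)
  refine add_le_add ((W_union_le _ _ _).trans ?_) ?_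
  · rw [ENNReal.ofReal_add (by positivity) (by positivity)]
    refine add_le_add ?_ ((W_app_le _ _ _).trans ?_)
    · rw [W_singleton, ENNReal.ofReal_pow hz]
      exact le_rfl
    · rw [ENNReal.ofReal_mul hz, W_singleton]
      refine mul_le_mul' ?_ (W_BlkS hΛ hz hΦ0 hΦ t')
      simp
  · refine (W_app_le _ _ _).trans ?_
    rw [ENNReal.ofReal_mul hz, W_singleton]
    refine mul_le_mul' (by simp) ?_
    rw [ENNReal.ofReal_mul hT0]
    exact (W_app_le _ _ _).trans (mul_le_mul' hT (W_pair_le hz _))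

/-! ### the block lemma -/

lemma BlkG_of {Λ A B : Finset (α × Bool)} {a0 b0 : α × Bool} {w : List (α × Bool)}
    (hw : w ∈ Zr Λ)
    (h : ∀ w1 x y w2, w = w1 ++ x :: y :: w2 → nv x ∈ A → y ∈ B →
      (w1 = [] ∧ x = a0) ∨ (w2 = [] ∧ y = b0)) : w ∈ BlkG Λ A B a0 b0 := by
  -- end part
  have hB : ∀ v : List (α × Bool), v ∈ Zr Λ → (∀ w1 x y w2, v = w1 ++ x :: y :: w2 → nv x ∈ A →
      y ∈ B → (w2 = [] ∧ y = b0)) → v ∈ app (Lang Λ A B) {[], [b0]} := by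
    intro v hv hv2
    by_cases hc : v.IsChain (RR A B)
    · exact ⟨v, ⟨hv.1, hc⟩, [], Or.inl rfl, by simp⟩
    · rw [List.isChain_iff_forall_rel_of_append_cons_cons] at hc
      push Not at hc
      obtain ⟨x, y, u1, u2, hu, hr⟩ := hc
      have hne : y ≠ nv x :=
        (List.isChain_iff_forall_rel_of_append_cons_cons.1 hv.2) hu
      have hxy : nv x ∈ A ∧ y ∈ B := by
        unfold RR at hr
        by_contra hcon
        exact hr ⟨hne, hcon⟩
      obtain ⟨h2, h3⟩ := hv2 u1 x y u2 hu hxy.1 hxy.2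
      subst h2
      refine ⟨u1 ++ [x], ⟨?_, ?_⟩, [y], Or.inr (by rw [h3]; rfl), ?_⟩
      · intro c hc
        apply hv.1 c
        rw [hu]
        simp only [List.mem_append, List.mem_cons, List.not_mem_nil, or_false] at hc ⊢
        tauto
      · rw [List.isChain_iff_forall_rel_of_append_cons_cons]
        intro p q v1 v2 hpq
        have e : v = v1 ++ p :: q :: (v2 ++ [y]) := by
          rw [hu]
          have : u1 ++ [x, y] = (u1 ++ [x]) ++ [y] := by simp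
          rw [this, hpq]
          simp
        refine ⟨(List.isChain_iff_forall_rel_of_append_cons_cons.1 hv.2) e, ?_⟩
        rintro ⟨hp, hq⟩
        have := (hv2 _ _ _ _ e hp hq).1
        simp at this
      · rw [hu]; simp
  by_cases hall : ∀ w1 x y w2, w = w1 ++ x :: y :: w2 → nv x ∈ A → y ∈ B → (w2 = [] ∧ y = b0)
  · obtain h1 := hB w hw hall
    exact ⟨[], Or.inl rfl, w, h1, rfl⟩
  · push Not at hall
    obtain ⟨w1, x, y, w2, hw', hx, hy, hne⟩ := hall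
    rcases h w1 x y w2 hw' hx hy with ⟨h1, h2⟩ | ⟨h1, h2⟩
    · subst h1
      rw [List.nil_append] at hw'
      subst hw'
      refine ⟨[x], Or.inr (by rw [h2]; rfl), y :: w2, ?_, rfl⟩
      apply hB _ (Zr_tail hw)
      intro u1 p q u2 hu hp hq
      have e : x :: y :: w2 = (x :: u1) ++ p :: q :: u2 := by
        rw [hu]; rfl
      rcases h _ _ _ _ e hp hq with ⟨h3, -⟩ | h3
      · simp at h3
      · exact h3
    · exact absurd h2 (hne h1)

lemma Blk_of {Λ A B : Finset (α × Bool)} {P Q w : List (α × Bool)}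
    {t t' : (α × Bool) × (α × Bool)} (hw : w ∈ Zr Λ)
    (ht : ∀ a v, a :: v <+: P → a = t.1 ∧ ∀ b v', v = b :: v' → b = t.2)
    (ht' : ∀ a v, v ++ [a] <:+ Q → a = t'.2 ∧ ∀ b v', v = v' ++ [b] → b = t'.1)
    (h : ∀ w1 x y w2, w = w1 ++ x :: y :: w2 → nv x ∈ A → y ∈ B →
      (y :: w2 <:+ Q) ∨ (w1 ++ [x] <+: P)) : w ∈ Blk Λ A B t t' := by
  by_cases h1 : ∃ w1 x y w2, w = w1 ++ x :: y :: w2 ∧ w1 ≠ [] ∧ w1 ++ [x] <+: P
  · left
    obtain ⟨w1, x, y, w2, rfl, hne, hp⟩ := h1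
    refine ⟨hw, ?_⟩
    cases w1 with
    | nil => exact absurd rfl hne
    | cons a w1 =>
      cases w1 with
      | nil =>
        obtain ⟨e1, e2⟩ := ht a [x] hp
        have e3 := e2 x [] rfl
        rw [← e1, ← e3]
        exact ⟨y :: w2, rfl⟩
      | cons b w1 =>
        obtain ⟨e1, e2⟩ := ht a (b :: w1 ++ [x]) hp
        have e3 := e2 b (w1 ++ [x]) rfl
        rw [← e1, ← e3]
        exact ⟨w1 ++ x :: y :: w2, rfl⟩
  by_cases h2 : ∃ w1 x y w2, w = w1 ++ x :: y :: w2 ∧ w2 ≠ [] ∧ y :: w2 <:+ Q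
  · right; left
    obtain ⟨w1, x, y, w2, rfl, hne, hp⟩ := h2
    refine ⟨hw, ?_⟩
    obtain ⟨w3, a, rfl⟩ : ∃ w3 a, w2 = w3 ++ [a] :=
      ⟨_, _, (List.dropLast_append_getLast hne).symm⟩
    obtain ⟨e1, e2⟩ := ht' a (y :: w3) hp
    rcases List.eq_nil_or_concat w3 with h3 | ⟨w4, b, h3⟩
    · subst h3
      have e3 := e2 y [] rfl
      rw [← e1, ← e3]
      exact ⟨w1 ++ [x], by simp⟩
    · subst h3
      have e3 := e2 b (y :: w4) (by simp)
      rw [← e1, ← e3]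
      exact ⟨w1 ++ x :: y :: w4, by simp⟩
  right; right
  push Not at h1 h2
  apply BlkG_of hw
  intro w1 x y w2 hw' hx hy
  rcases h w1 x y w2 hw' hx hy with h3 | h3
  · right
    by_cases hne : w2 = []
    · refine ⟨hne, ?_⟩
      subst hne
      exact (ht' y [] h3).1
    · exact absurd h3 (h2 w1 x y w2 hw' hne)
  · left
    by_cases hne : w1 = []
    · refine ⟨hne, ?_⟩
      subst hne
      exact (ht x [] h3).1
    · exact absurd h3 (h1 w1 x y w2 hw' hne)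

/-- existence of the two-letter data -/
lemma exists_front {β : Type*} (d : β) (P : List β) : ∃ t : β × β,
    ∀ a v, a :: v <+: P → a = t.1 ∧ ∀ b v', v = b :: v' → b = t.2 := by
  refine ⟨(P.getD 0 d, P.getD 1 d), ?_⟩
  rintro a v ⟨u, rfl⟩
  refine ⟨by simp, ?_⟩
  rintro b v' rfl
  simp

lemma exists_back {β : Type*} (d : β) (Q : List β) : ∃ t : β × β,
    ∀ a v, v ++ [a] <:+ Q → a = t.2 ∧ ∀ b v', v = v' ++ [b] → b = t.1 := by
  obtain ⟨t, ht⟩ := exists_front d Q.reverse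
  refine ⟨(t.2, t.1), ?_⟩
  intro a v h
  have h1 : a :: v.reverse <+: Q.reverse := by
    have := List.reverse_prefix.2 h
    simpa using this
  obtain ⟨e1, e2⟩ := ht a v.reverse h1
  refine ⟨e1, ?_⟩
  rintro b v' rfl
  exact e2 b v'.reverse (by simp)

end Pool.Agent.Helper35.PP
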