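import Mathlib
import Pool.Agent.Helper35.PP.Blocks

/-!
Helper file for MP_bec853_al: words composed of blocks.
-/

namespace Pool.Agent.Helper35.PP

open scoped ENNReal

variable {α : Type*} [DecidableEq α]

/-- the letters different from `i` -/
def Zi [Fintype α] (i : α) : Finset (α × Bool) := Finset.univ.filter (fun x => x.1 ≠ i)

lemma mem_Zi [Fintype α] {i : α} {x : α × Bool} : x ∈ Zi i ↔ x.1 ≠ i := by simp [Zi]

lemma Zi_nv [Fintype α] (i : α) : ∀ x ∈ Zi i, nv x ∈ Zi i := by
  intro x hx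
  rw [mem_Zi] at hx ⊢
  exact hx

lemma Zi_card [Fintype α] (i : α) : (Zi i).card = 2 * Fintype.card α - 2 := by
  have h1 : (Finset.univ.filter (fun x : α × Bool => x.1 = i)).card = 2 := by
    have : Finset.univ.filter (fun x : α × Bool => x.1 = i) = {(i, true), (i, false)} := by
      ext ⟨a, b⟩
      cases b <;> simp [Prod.ext_iff]
    rw [this, Finset.card_pair]
    simp
  have h2 := Finset.card_filter_add_card_filter_not (s := (Finset.univ : Finset (α × Bool)))
    (p := fun x => x.1 = i)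
  rw [h1, Finset.card_univ, Fintype.card_prod, Fintype.card_bool] at h2
  have h3 : (Zi i).card = (Finset.univ.filter (fun x : α × Bool => ¬ x.1 = i)).card := rfl
  rw [h3]
  omega

/-- all blocks between two occurrences of `i` belong to the prescribed sets -/
def BlocksOK (i : α) (Bk : Bool → Bool → Set (List (α × Bool))) (c : List (α × Bool)) : Prop :=
  ∀ l w r s σ, c = l ++ (i, s) :: (w ++ (i, σ) :: r) → (∀ x ∈ w, x.1 ≠ i) → w ∈ Bk s σ

/-- continuations of the letter `(i, s)` -/
def GG (i : α) (Bk : Bool → Bool → Set (List (α × Bool))) (s : Bool) :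
    Set (List (α × Bool)) :=
  {v | BlocksOK i Bk ((i, s) :: v) ∧ v.IsChain (fun x y => y ≠ nv x)}

lemma split_first (i : α) (v : List (α × Bool)) :
    (∀ x ∈ v, x.1 ≠ i) ∨ ∃ w σ v', v = w ++ (i, σ) :: v' ∧ ∀ x ∈ w, x.1 ≠ i := by
  induction v with
  | nil => left; simp
  | cons a v ih =>
    by_cases ha : a.1 = i
    · right
      refine ⟨[], a.2, v, ?_, by simp⟩
      rw [← ha]; rfl
    · rcases ih with ih | ⟨w, σ, v', rfl, h⟩
      · left
        intro x hx
        rcases List.mem_cons.1 hx with rfl | hx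
        · exact ha
        · exact ih x hx
      · right
        refine ⟨a :: w, σ, v', rfl, ?_⟩
        intro x hx
        rcases List.mem_cons.1 hx with rfl | hx
        · exact ha
        · exact h x hx

variable [Fintype α]

lemma GG_trunc_le {i : α} {Bk : Bool → Bool → Set (List (α × Bool))} {z F : ℝ≥0∞}
    {ω V : Bool → ℝ≥0∞} (hF : W z (Zr (Zi i)) ≤ F) (hω : ∀ s σ, W z (Bk s σ) ≤ ω s)
    (hV : ∀ s, F + ∑ σ, ω s * (z * V σ) ≤ V s) (n : ℕ) :
    ∀ s, W z (GG i Bk s ∩ {w | w.length ≤ n}) ≤ V s := by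
  induction n with
  | zero =>
    intro s
    refine le_trans ?_ (hV s)
    refine le_trans ?_ le_self_add
    refine le_trans (W_mono ?_) hF
    rintro w ⟨-, hw⟩
    have hw' : w.length ≤ 0 := hw
    have : w = [] := List.length_eq_zero_iff.1 (by omega)
    subst this
    exact ⟨by simp, List.isChain_nil⟩
  | succ n ih =>
    intro s
    have hsub : GG i Bk s ∩ {w | w.length ≤ n + 1} ⊆
        Zr (Zi i) ∪ ⋃ σ, app (Bk s σ) (app {[(i, σ)]} (GG i Bk σ ∩ {w | w.length ≤ n})) := by
      rintro v ⟨⟨h1, h2⟩, h3⟩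
      rcases split_first i v with h | ⟨w, σ, v', hv, h⟩
      · left
        exact ⟨fun x hx => mem_Zi.2 (h x hx), h2⟩
      · right
        rw [Set.mem_iUnion]
        refine ⟨σ, w, ?_, (i, σ) :: v', ⟨[(i, σ)], rfl, v', ⟨⟨?_, ?_⟩, ?_⟩, rfl⟩, hv⟩
        · exact h1 [] w v' s σ (by rw [hv]; rfl) h
        · intro l w' r s' σ' he hw'
          apply h1 ((i, s) :: (w ++ l)) w' r s' σ' _ hw'
          rw [hv, he]
          simp
        · rw [hv] at h2
          exact (h2.right_of_append).tail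
        · have h3' : v.length ≤ n + 1 := h3
          rw [hv, List.length_append, List.length_cons] at h3'
          show v'.length ≤ n
          omega
    refine (W_mono hsub).trans ((W_union_le _ _ _).trans ?_)
    refine le_trans ?_ (hV s)
    refine add_le_add hF ((W_iUnion_le _ _).trans ?_)
    apply Finset.sum_le_sum
    intro σ _
    refine (W_app_le _ _ _).trans (mul_le_mul' (hω s σ) ?_)
    refine (W_app_le _ _ _).trans (mul_le_mul' ?_ (ih σ))
    rw [W_singleton]
    simp

/-- words all of whose blocks are good -/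
def L2 (i : α) (Bk : Bool → Bool → Set (List (α × Bool))) : Set (List (α × Bool)) :=
  {v | BlocksOK i Bk v ∧ v.IsChain (fun x y => y ≠ nv x)}

lemma L2_lt_top {i : α} {Bk : Bool → Bool → Set (List (α × Bool))} {z : ℝ≥0∞}
    {ω : Bool → ℝ≥0∞} (hz : z < ⊤) (hF : W z (Zr (Zi i)) < ⊤)
    (hω : ∀ s σ, W z (Bk s σ) ≤ ω s) (hτ : z * (ω true + ω false) < 1)
    (hω' : ∀ s, ω s < ⊤) : W z (L2 i Bk) < ⊤ := by
  set F := W z (Zr (Zi i)) with hFdef
  set τ := z * (ω true + ω false) with hτdef
  set S := 2 * F * (1 - τ)⁻¹ with hS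
  set V : Bool → ℝ≥0∞ := fun s => F + ω s * (z * S) with hVdef
  have h1 : (1 - τ) ≠ 0 := (tsub_pos_of_lt hτ).ne'
  have h2 : (1 - τ) ≠ ⊤ := (lt_of_le_of_lt tsub_le_self ENNReal.one_lt_top).ne
  have hStop : S < ⊤ := by
    rw [hS]
    apply ENNReal.mul_lt_top (ENNReal.mul_lt_top (by simp) hF)
    exact ENNReal.inv_lt_top.2 (pos_iff_ne_zero.2 h1)
  have hsum : V true + V false ≤ S := by
    have e1 : V true + V false = 2 * F + τ * S := by
      simp only [hVdef, hτdef]
      ring
    have e2 : 2 * F = S * (1 - τ) := by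
      rw [hS, mul_assoc, ENNReal.inv_mul_cancel h1 h2, mul_one]
    rw [e1]
    calc 2 * F + τ * S = S * (1 - τ) + τ * S := by rw [← e2]
      _ = S * ((1 - τ) + τ) := by ring
      _ = S := by rw [tsub_add_cancel_of_le hτ.le, mul_one]
      _ ≤ S := le_rfl
  have hV : ∀ s, F + ∑ σ, ω s * (z * V σ) ≤ V s := by
    intro s
    have : ∑ σ, ω s * (z * V σ) = ω s * (z * (V true + V false)) := by
      simp only [Fintype.sum_bool]
      ring
    rw [this]
    simp only [hVdef]
    gcongr
  have hVtop : ∀ s, V s < ⊤ := by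
    intro s
    simp only [hVdef]
    exact ENNReal.add_lt_top.2 ⟨hF, ENNReal.mul_lt_top (hω' s) (ENNReal.mul_lt_top hz hStop)⟩
  have hsub : L2 i Bk ⊆ Zr (Zi i) ∪ ⋃ s, app (Zr (Zi i)) (app {[(i, s)]} (GG i Bk s)) := by
    rintro v ⟨h1, h2⟩
    rcases split_first i v with h | ⟨w, s, v', hv, h⟩
    · left
      exact ⟨fun x hx => mem_Zi.2 (h x hx), h2⟩
    · right
      rw [Set.mem_iUnion]
      refine ⟨s, w, ⟨fun x hx => mem_Zi.2 (h x hx), ?_⟩, (i, s) :: v',
        ⟨[(i, s)], rfl, v', ⟨?_, ?_⟩, rfl⟩, hv⟩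
      · rw [hv] at h2
        exact h2.left_of_append
      · intro l w' r s' σ' he hw'
        apply h1 (w ++ l) w' r s' σ' _ hw'
        rw [hv, he]
        simp
      · rw [hv] at h2
        exact (h2.right_of_append).tail
  refine lt_of_le_of_lt ((W_mono hsub).trans (W_union_le _ _ _)) ?_
  refine ENNReal.add_lt_top.2 ⟨hF, lt_of_le_of_lt (W_iUnion_le _ _) ?_⟩
  apply ENNReal.sum_lt_top.2
  intro s _
  refine lt_of_le_of_lt (W_app_le _ _ _) (ENNReal.mul_lt_top hF ?_)
  refine lt_of_le_of_lt (W_app_le _ _ _) (ENNReal.mul_lt_top ?_ ?_)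
  · rw [W_singleton]
    simpa using hz
  · exact lt_of_le_of_lt (W_le_of_trunc (fun n => GG_trunc_le le_rfl hω hV n s)) (hVtop s)

end Pool.Agent.Helper35.PP
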