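import Mathlib
import Pool.Agent.Helper35.PP.Restrict
import Pool.Agent.Helper35.PP.Struct

/-!
Helper file for MP_bec853_al: potentially positive cyclic words belong to explicit languages.
-/

namespace Pool.Agent.Helper35.PP

open FreeGroup Filter

variable {α : Type*} [DecidableEq α]

/-- the property of potentially positive elements which we use -/
def Adm (u : FreeGroup α) : Prop :=
  ∀ i z : α, z ≠ i → ∃ E : Set (FreeGroup α), Good E ∧ PosLine E u ∧ CutsZ i E

lemma adm_of_pos [Fintype α] (f : FreeGroup α ≃* FreeGroup α) {u : FreeGroup α}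
    (h : IsPos (f u)) : Adm u := by
  intro i z hz
  obtain ⟨j, hj⟩ := exists_cutsZ hz f
  exact ⟨_, (good_Cn (j, true)).preimage f, (posLine_Cn h j).preimage f, hj⟩

lemma PosLine.inv {E : Set (FreeGroup α)} {u : FreeGroup α} (h : PosLine E u) :
    PosLine Eᶜ u⁻¹ := by
  rintro k t ⟨h1, h2⟩
  apply h k t
  constructor
  · filter_upwards [h2] with n hn
    rw [inv_pow] at hn
    simpa using hn
  · filter_upwards [h1] with n hn
    rw [inv_pow, inv_inv] at hn
    simpa using hn

lemma PosLine.conj {E : Set (FreeGroup α)} {u : FreeGroup α} (h : PosLine E u)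
    (s : FreeGroup α) : PosLine E (s⁻¹ * u * s) := by
  have hpow : ∀ n : ℕ, (s⁻¹ * u * s) ^ n = s⁻¹ * u ^ n * s := by
    intro n
    have := conj_pow (i := n) (a := s⁻¹) (b := u)
    rw [inv_inv] at this
    exact this
  rintro k t ⟨h1, h2⟩
  apply h (k * s⁻¹) (s * t)
  constructor
  · filter_upwards [h1] with n hn
    rw [hpow] at hn
    convert hn using 1
    group
  · filter_upwards [h2] with n hn
    rw [hpow] at hn
    convert hn using 2
    group

lemma Adm.inv {u : FreeGroup α} (h : Adm u) : Adm u⁻¹ := by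
  intro i z hz
  obtain ⟨E, h1, h2, h3⟩ := h i z hz
  exact ⟨Eᶜ, h1.compl, h2.inv, h3.compl⟩

lemma Adm.conj {u : FreeGroup α} (h : Adm u) (s : FreeGroup α) : Adm (s⁻¹ * u * s) := by
  intro i z hz
  obtain ⟨E, h1, h2, h3⟩ := h i z hz
  exact ⟨E, h1, h2.conj s, h3⟩

/-! ### rotation -/

lemma rotate_cyc {a b : List (α × Bool)} (h : FreeGroup.IsCyclicallyReduced (a ++ b)) :
    FreeGroup.IsCyclicallyReduced (b ++ a) := by
  have h3 := (h.flatten_replicate 3).isReduced
  have h4 : FreeGroup.IsReduced ((b ++ a) ++ (b ++ a)) := by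
    apply red_of h3
    refine ⟨a, b, ?_⟩
    simp [List.replicate]
  refine ⟨red_of h4 ⟨[], b ++ a, by simp⟩, ?_⟩
  intro x hx y hy
  unfold FreeGroup.IsReduced at h4
  rw [List.isChain_append] at h4
  exact h4.2.2 x hx y hy

lemma mk_rotate (a b : List (α × Bool)) :
    FreeGroup.mk (b ++ a) = (FreeGroup.mk a)⁻¹ * FreeGroup.mk (a ++ b) * FreeGroup.mk a := by
  rw [← FreeGroup.mul_mk, ← FreeGroup.mul_mk]
  group

lemma chain_of_reduced {c : List (α × Bool)} (h : FreeGroup.IsReduced c) :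
    c.IsChain (fun x y => y ≠ nv x) := by
  unfold FreeGroup.IsReduced at h
  apply h.imp
  intro x y hxy hc
  have := hxy (by rw [hc]; rfl)
  rw [hc] at this
  simp [nv] at this

/-- the first restriction for consecutive letters -/
lemma first_linear [Fintype α] {E : Set (FreeGroup α)} {g : FreeGroup α}
    {A B : Finset (α × Bool)} (hl : IsLeaf E g A B) {c : List (α × Bool)}
    (hc : FreeGroup.IsCyclicallyReduced c) (hu : PosLine E (FreeGroup.mk c))
    {l r : List (α × Bool)} {x y : α × Bool} (h : c = l ++ x :: y :: r) (hx : nv x ∈ A)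
    (hy : y ∈ B) : False := by
  have e : c = (l ++ [x]) ++ (y :: r) := by rw [h]; simp
  rw [e] at hc hu
  refine first_restriction (t := FreeGroup.mk (l ++ [x])) hu hl hx hy (rotate_cyc hc) rfl ?_
    (mk_rotate _ _)
  rw [← List.append_assoc, List.getLast?_concat]

lemma Lang_of_leaf [Fintype α] {E : Set (FreeGroup α)} {g : FreeGroup α}
    {A B : Finset (α × Bool)} (hl : IsLeaf E g A B) {c : List (α × Bool)}
    (hc : FreeGroup.IsCyclicallyReduced c) (hu : PosLine E (FreeGroup.mk c)) :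
    c ∈ Lang Finset.univ A B := by
  refine ⟨fun x _ => Finset.mem_univ x, ?_⟩
  rw [List.isChain_iff_forall_rel_of_append_cons_cons]
  intro x y l r h
  refine ⟨?_, ?_⟩
  · have := List.isChain_iff_forall_rel_of_append_cons_cons.1 (chain_of_reduced hc.isReduced)
    exact this h
  · rintro ⟨hx, hy⟩
    exact first_linear hl hc hu h hx hy

lemma invRev_suffix {a : List (α × Bool)} {g : FreeGroup α}
    (h : FreeGroup.invRev a <:+ (g⁻¹).toWord) : a <+: g.toWord := by
  obtain ⟨t, ht⟩ := h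
  rw [toWord_inv] at ht
  have h2 := congrArg FreeGroup.invRev ht
  rw [FreeGroup.invRev_invRev, FreeGroup.invRev_append, FreeGroup.invRev_invRev] at h2
  exact ⟨_, h2⟩

/-- the second restriction in a block -/
lemma second_linear [Fintype α] {E : Set (FreeGroup α)} {i : α} {p q : FreeGroup α}
    (hp : p ∈ ZS i) (hq : q ∈ ZS i) {g : FreeGroup α} {A B : Finset (α × Bool)}
    (hl : IsLeaf (theta i p⁻¹ q⁻¹ ⁻¹' E) g A B) {c : List (α × Bool)}
    (hc : FreeGroup.IsCyclicallyReduced c) (hu : PosLine E (FreeGroup.mk c))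
    {l r w1 w2 : List (α × Bool)} {s σ : Bool} {x y : α × Bool}
    (h : c = l ++ (i, s) :: ((w1 ++ x :: y :: w2) ++ (i, σ) :: r))
    (hw : ∀ z ∈ w1 ++ x :: y :: w2, z.1 ≠ i) (hx : nv x ∈ A) (hy : y ∈ B) :
    (y :: w2 <:+ ((Rf p q σ)⁻¹).toWord) ∨ (w1 ++ [x] <+: (Rf p q (!s)).toWord) := by
  have e : c = (l ++ (i, s) :: (w1 ++ [x])) ++ ((y :: w2) ++ (i, σ) :: r) := by
    rw [h]; simp
  have e2 : ((y :: w2) ++ (i, σ) :: r) ++ (l ++ (i, s) :: (w1 ++ [x])) =
      (y :: w2) ++ ((i, σ) :: (r ++ (l ++ [(i, s)]))) ++ (w1 ++ [x]) := by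
    simp
  rw [e] at hc hu
  have hc' := rotate_cyc hc
  rw [e2] at hc'
  have hm := mk_rotate (l ++ (i, s) :: (w1 ++ [x])) ((y :: w2) ++ (i, σ) :: r)
  rw [e2] at hm
  have := second_restriction (E := E) (u := FreeGroup.mk ((l ++ (i, s) :: (w1 ++ [x])) ++
    ((y :: w2) ++ (i, σ) :: r))) (t := FreeGroup.mk (l ++ (i, s) :: (w1 ++ [x])))
    hu hp hq hl (x := x) (y := y) hx hy
    (v := w2) (w := w1) (m := (i, σ) :: (r ++ (l ++ [(i, s)]))) (s := σ) (s' := s)
    ⟨_, rfl⟩ ⟨(i, σ) :: (r ++ l), by simp⟩ ?_ ?_ hc' hm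
  · rcases this with h1 | h1
    · exact Or.inl h1
    · exact Or.inr (invRev_suffix h1)
  · intro z hz
    apply hw
    simp only [List.mem_append, List.mem_cons] at hz ⊢
    tauto
  · intro z hz
    apply hw
    simp only [List.mem_append, List.mem_cons, List.not_mem_nil, or_false] at hz ⊢
    tauto

/-- data for the second language -/
structure Dat (α : Type*) where
  i : α
  s0 : Bool
  ℓ : α × Bool
  A : Finset (α × Bool)
  B : Finset (α × Bool)
  t : Bool → (α × Bool) × (α × Bool)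
  t' : Bool → (α × Bool) × (α × Bool)

/-- the block sets of given data -/
def Dat.Bk [Fintype α] (d : Dat α) (s σ : Bool) : Set (List (α × Bool)) :=
  if s = d.s0 then BlkH (Zi d.i) d.A d.B (d.t s) (d.t' σ) d.ℓ
  else Blk (Zi d.i) d.A d.B (d.t s) (d.t' σ)

/-- validity of data -/
structure Dat.Valid [Fintype α] (d : Dat α) : Prop where
  hA : d.A ⊆ Zi d.i
  hB : d.B ⊆ Zi d.i
  dis : Disjoint d.A d.B
  miss : (Zi d.i \ (d.A ∪ d.B)).card ≤ 1
  neA : 1 ≤ d.A.card
  neB : 1 ≤ d.B.card

lemma cover_L2 [Fintype α] {c : List (α × Bool)} (hc : FreeGroup.IsCyclicallyReduced c)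
    (hadm : Adm (FreeGroup.mk c)) {i z : α} (hz : z ≠ i) {s0 : Bool} {ℓ : α × Bool}
    (hℓ : ℓ.1 ≠ i) (hrare : ∀ l y r, c = l ++ (i, s0) :: y :: r → y = ℓ) :
    ∃ d : Dat α, d.Valid ∧ c ∈ L2 d.i d.Bk := by
  obtain ⟨E, hE, hu, hK⟩ := hadm i z hz
  obtain ⟨v, hv, u, hu', g, A, B, hl, ⟨xa, hxa, hxa'⟩, ⟨xb, hxb, hxb'⟩⟩ :=
    exists_nondegenerate_leaf E hE hK
  obtain ⟨p, hp, rfl⟩ : ∃ p ∈ ZS i, v = p⁻¹ := ⟨v⁻¹, (ZS i).inv_mem hv, by simp⟩
  obtain ⟨q, hq, rfl⟩ : ∃ q ∈ ZS i, u = q⁻¹ := ⟨u⁻¹, (ZS i).inv_mem hu', by simp⟩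
  have hfront : ∀ s : Bool, ∃ t : (α × Bool) × (α × Bool),
      ∀ a v, a :: v <+: (Rf p q (!s)).toWord → a = t.1 ∧ ∀ b v', v = b :: v' → b = t.2 :=
    fun s => exists_front (i, true) _
  have hback : ∀ σ : Bool, ∃ t : (α × Bool) × (α × Bool),
      ∀ a v, v ++ [a] <:+ ((Rf p q σ)⁻¹).toWord → a = t.2 ∧ ∀ b v', v = v' ++ [b] → b = t.1 :=
    fun σ => exists_back (i, true) _
  choose t ht using hfront
  choose t' ht' using hback
  refine ⟨⟨i, s0, ℓ, A.filter (fun x => x.1 ≠ i), B.filter (fun x => x.1 ≠ i), t, t'⟩, ?_, ?_, ?_⟩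
  · constructor
    · intro x hx
      exact mem_Zi.2 (Finset.mem_filter.1 hx).2
    · intro x hx
      exact mem_Zi.2 (Finset.mem_filter.1 hx).2
    · exact Finset.disjoint_filter_filter hl.disj
    · rw [Finset.card_le_one]
      intro a ha b hb
      simp only [Finset.mem_sdiff, mem_Zi, Finset.mem_union, Finset.mem_filter, not_or,
        not_and] at ha hb
      apply hl.few a b
      · exact fun h => ha.2.1 h ha.1
      · exact fun h => ha.2.2 h ha.1
      · exact fun h => hb.2.1 h hb.1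
      · exact fun h => hb.2.2 h hb.1
    · exact Finset.card_pos.2 ⟨xa, Finset.mem_filter.2 ⟨hxa, hxa'⟩⟩
    · exact Finset.card_pos.2 ⟨xb, Finset.mem_filter.2 ⟨hxb, hxb'⟩⟩
  · intro l w r s σ hcw hw
    have hwred : w ∈ Zr (Zi i) := by
      refine ⟨fun x hx => mem_Zi.2 (hw x hx), ?_⟩
      have h1 := chain_of_reduced hc.isReduced
      rw [hcw] at h1
      exact (h1.right_of_append.tail).left_of_append
    have hblk : w ∈ Blk (Zi i) (A.filter (fun x => x.1 ≠ i)) (B.filter (fun x => x.1 ≠ i))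
        (t s) (t' σ) := by
      apply Blk_of hwred (ht s) (ht' σ)
      intro w1 x y w2 hw' hx hy
      subst hw'
      exact second_linear hp hq hl hc hu hcw hw (Finset.mem_filter.1 hx).1
        (Finset.mem_filter.1 hy).1
    unfold Dat.Bk
    simp only
    split_ifs with hs
    · refine ⟨hblk, ?_⟩
      subst hs
      cases w with
      | nil =>
        exfalso
        have := hrare l (i, σ) r (by rw [hcw]; rfl)
        rw [← this] at hℓ
        exact hℓ rfl
      | cons a w =>
        have := hrare l a (w ++ (i, σ) :: r) (by rw [hcw]; rfl)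
        rw [this]
        rfl
    · exact hblk
  · exact chain_of_reduced hc.isReduced

/-- words in a single letter -/
def Pow1 (α : Type*) : Set (List (α × Bool)) := {c | ∃ x n, c = List.replicate n x}

lemma all_of_chain {β : Type*} {a : β} {R : β → β → Prop} (hR : ∀ y, R a y → y = a) :
    ∀ L : List β, (a :: L).IsChain R → ∀ x ∈ L, x = a := by
  intro L
  induction L with
  | nil => simp
  | cons b L ih =>
    intro h x hx
    rw [List.isChain_cons_cons] at h
    have hb := hR b h.1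
    subst hb
    rcases List.mem_cons.1 hx with rfl | hx
    · rfl
    · exact ih h.2 x hx

lemma cover_single [Fintype α] {c : List (α × Bool)} (hc : FreeGroup.IsCyclicallyReduced c)
    (hadm : Adm (FreeGroup.mk c)) {E : Set (FreeGroup α)} (hu : PosLine E (FreeGroup.mk c))
    {g : FreeGroup α} {A B : Finset (α × Bool)} (hl : IsLeaf E g A B)
    (hA : A.card = 1) {z1 z2 : α} (hz : z1 ≠ z2) :
    c ∈ Pow1 α ∨ ∃ d : Dat α, d.Valid ∧ c ∈ L2 d.i d.Bk := by
  obtain ⟨⟨i, b⟩, rfl⟩ := Finset.card_eq_one.1 hA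
  obtain ⟨z, hz⟩ : ∃ z, z ≠ i := by
    by_cases h : z1 = i
    · exact ⟨z2, fun h2 => hz (h.trans h2.symm)⟩
    · exact ⟨z1, h⟩
  -- successors of `(i, !b)` are missing letters
  have hsucc : ∀ l y r, c = l ++ (i, !b) :: y :: r → y ∉ ({(i, b)} : Finset (α × Bool)) ∧
      y ∉ B := by
    intro l y r h
    constructor
    · have := List.isChain_iff_forall_rel_of_append_cons_cons.1
        (chain_of_reduced hc.isReduced) h
      rw [Finset.mem_singleton]
      simpa [nv] using this
    · intro hy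
      exact first_linear hl hc hu h (by simp [nv]) hy
  by_cases hm : ∃ ℓ : α × Bool, ℓ ∉ ({(i, b)} : Finset (α × Bool)) ∧ ℓ ∉ B ∧ ℓ.1 ≠ i
  · obtain ⟨ℓ, h1, h2, h3⟩ := hm
    right
    apply cover_L2 hc hadm hz (s0 := !b) h3
    intro l y r h
    obtain ⟨h4, h5⟩ := hsucc l y r h
    exact hl.few y ℓ h4 h5 h1 h2
  · push Not at hm
    by_cases hmem : (i, !b) ∈ c
    · left
      obtain ⟨l, r, hlr⟩ := List.append_of_mem hmem
      have hc' : FreeGroup.IsCyclicallyReduced (((i, !b) :: r) ++ l) := by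
        apply rotate_cyc
        rw [← hlr]
        exact hc
      have hu'' : PosLine E (FreeGroup.mk (((i, !b) :: r) ++ l)) := by
        have h1 := hu.conj (FreeGroup.mk l)
        rw [mk_rotate, ← hlr]
        exact h1
      have hL := Lang_of_leaf hl hc' hu''
      have hall := all_of_chain (a := (i, !b)) (R := RR {(i, b)} B) (by
        rintro y ⟨h1, h2⟩
        have hy1 : y ∉ ({(i, b)} : Finset (α × Bool)) := by
          rw [Finset.mem_singleton]
          simpa [nv] using h1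
        have hy2 : y ∉ B := fun hy => h2 ⟨by simp [nv], hy⟩
        have hyi := hm y hy1 hy2
        rw [Finset.mem_singleton] at hy1
        obtain ⟨y1, y2⟩ := y
        simp only at hyi
        subst hyi
        cases b <;> cases y2 <;> simp_all) (r ++ l) hL.2
      refine ⟨(i, !b), c.length, ?_⟩
      rw [List.eq_replicate_iff]
      refine ⟨rfl, ?_⟩
      intro x hx
      rw [hlr] at hx
      simp only [List.mem_append, List.mem_cons] at hx
      rcases hx with hx | rfl | hx
      · exact hall x (List.mem_append_right _ hx)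
      · rfl
      · exact hall x (List.mem_append_left _ hx)
    · right
      apply cover_L2 hc hadm hz (s0 := !b) (ℓ := (z, true)) hz
      intro l y r h
      exfalso
      apply hmem
      rw [h]
      simp

/-- **Cover theorem**. -/
theorem cover [Fintype α] {c : List (α × Bool)} (hc : FreeGroup.IsCyclicallyReduced c)
    (hadm : Adm (FreeGroup.mk c)) {z1 z2 : α} (hz : z1 ≠ z2) :
    ∃ A B : Finset (α × Bool), Disjoint A B ∧ (Finset.univ \ (A ∪ B)).card ≤ 1 ∧
      1 ≤ A.card ∧ 1 ≤ B.card ∧ c ∈ Lang Finset.univ A B ∧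
      ((2 ≤ A.card ∧ 2 ≤ B.card) ∨ c ∈ Pow1 α ∨ (∃ d : Dat α, d.Valid ∧ c ∈ L2 d.i d.Bk) ∨
        FreeGroup.invRev c ∈ Pow1 α ∨
        (∃ d : Dat α, d.Valid ∧ FreeGroup.invRev c ∈ L2 d.i d.Bk)) := by
  obtain ⟨E, hE, hu, hK⟩ := hadm z1 z2 hz.symm
  obtain ⟨g, A, B, hl⟩ := exists_leaf hE hK.infinite hK.compl.infinite
  have hA1 : 1 ≤ A.card := Finset.card_pos.2 hl.neA
  have hB1 : 1 ≤ B.card := Finset.card_pos.2 hl.neB
  refine ⟨A, B, hl.disj, ?_, hA1, hB1, Lang_of_leaf hl hc hu, ?_⟩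
  · rw [Finset.card_le_one]
    intro a ha b hb
    simp only [Finset.mem_sdiff, Finset.mem_union, not_or, Finset.mem_univ, true_and] at ha hb
    exact hl.few a b ha.1 ha.2 hb.1 hb.2
  · by_cases h1 : A.card = 1
    · rcases cover_single hc hadm hu hl h1 hz with h | h
      · exact Or.inr (Or.inl h)
      · exact Or.inr (Or.inr (Or.inl h))
    by_cases h2 : B.card = 1
    · have hinv : FreeGroup.mk (FreeGroup.invRev c) = (FreeGroup.mk c)⁻¹ :=
        FreeGroup.inv_mk.symm
      have hadm' : Adm (FreeGroup.mk (FreeGroup.invRev c)) := by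
        rw [hinv]; exact hadm.inv
      have hu' : PosLine Eᶜ (FreeGroup.mk (FreeGroup.invRev c)) := by
        rw [hinv]; exact hu.inv
      rcases cover_single (invRev_cyc hc) hadm' hu' hl.compl h2 hz with h | h
      · exact Or.inr (Or.inr (Or.inr (Or.inl h)))
      · exact Or.inr (Or.inr (Or.inr (Or.inr h)))
    · left
      omega

end Pool.Agent.Helper35.PP
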