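import Mathlib
import Pool.Agent.Helper35.PP.Tbound

/-!
Helper file for MP_bec853_al: numerical inequalities.
-/

namespace Pool.Agent.Helper35.PP

lemma star_iff {N : ℕ} {z T : ℝ} {m nx : ℕ} :
    Star N z T m nx ↔
      0 ≤ T * (1 - m * nx * z ^ 2 - m * z - ((N : ℝ) - 2 * m) * (z / (1 + z))) - 1 - m * z := by
  unfold Star
  have e : ((N : ℝ) - 2 * m) * (z * T / (1 + z)) = T * (((N : ℝ) - 2 * m) * (z / (1 + z))) := by
    ring
  rw [e]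
  constructor <;> intro h <;> nlinarith

lemma concave_aux {a b c x0 x1 x : ℝ} (ha : 0 ≤ a) (h0 : 0 ≤ -a * x0 ^ 2 + b * x0 + c)
    (h1 : 0 ≤ -a * x1 ^ 2 + b * x1 + c) (hx0 : x0 ≤ x) (hx1 : x ≤ x1) :
    0 ≤ -a * x ^ 2 + b * x + c := by
  rcases eq_or_lt_of_le (hx0.trans hx1) with h | h
  · have : x = x0 := le_antisymm (by rw [h]; exact hx1) hx0
    rw [this]; exact h0
  · have key : (x1 - x0) * (-a * x ^ 2 + b * x + c) =
        (x1 - x) * (-a * x0 ^ 2 + b * x0 + c) + (x - x0) * (-a * x1 ^ 2 + b * x1 + c)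
          + a * (x - x0) * (x1 - x) * (x1 - x0) := by ring
    have hpos : 0 ≤ (x1 - x0) * (-a * x ^ 2 + b * x + c) := by
      rw [key]
      have e1 : 0 ≤ x1 - x := sub_nonneg.2 hx1
      have e2 : 0 ≤ x - x0 := sub_nonneg.2 hx0
      have e3 : 0 ≤ x1 - x0 := by linarith
      positivity
    exact nonneg_of_mul_nonneg_right hpos (by linarith)

/-- the value of `1 / λ` -/
noncomputable def zr (r : ℕ) : ℝ := (r + 1) / (2 * r ^ 2 - r + 4)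

/-- the value of `T` -/
noncomputable def Tr (r : ℕ) : ℝ := (4 * r ^ 2 - 13 * r + 20) / (2 * r)

/-- the value of `Φ` -/
noncomputable def Φr (r : ℕ) : ℝ := (2 * r ^ 2 - r + 4) / 7

lemma den_pos (r : ℕ) : (0 : ℝ) < 2 * r ^ 2 - r + 4 := by
  nlinarith [sq_nonneg ((r : ℝ) - 1)]

lemma zr_pos (r : ℕ) : 0 < zr r := div_pos (by positivity) (den_pos r)

section five

variable {s : ℝ}

lemma nD22 (hs : 0 ≤ s) : 0 < 1 - 2 * 2 * ((s + 6) / (2 * s ^ 2 + 19 * s + 49)) ^ 2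
    - 2 * ((s + 6) / (2 * s ^ 2 + 19 * s + 49))
    - (2 * (s + 5) - 2 * 2) * ((s + 6) / (2 * s ^ 2 + 20 * s + 55)) := by
  have hq : 0 < 2 * s ^ 2 + 19 * s + 49 := by positivity
  have hv : 0 < 2 * s ^ 2 + 20 * s + 55 := by positivity
  have e : 1 - 2 * 2 * ((s + 6) / (2 * s ^ 2 + 19 * s + 49)) ^ 2
    - 2 * ((s + 6) / (2 * s ^ 2 + 19 * s + 49))
    - (2 * (s + 5) - 2 * 2) * ((s + 6) / (2 * s ^ 2 + 20 * s + 55)) =
    (16 * s ^ 4 + 270 * s ^ 3 + 1733 * s ^ 2 + 4970 * s + 5359) /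
      ((2 * s ^ 2 + 19 * s + 49) ^ 2 * (2 * s ^ 2 + 20 * s + 55)) := by
    field_simp
    ring
  rw [e]
  positivity

lemma nDr1 (hs : 0 ≤ s) : 0 < 1 - (s + 4) * (s + 4) * ((s + 6) / (2 * s ^ 2 + 19 * s + 49)) ^ 2
    - (s + 4) * ((s + 6) / (2 * s ^ 2 + 19 * s + 49))
    - (2 * (s + 5) - 2 * (s + 4)) * ((s + 6) / (2 * s ^ 2 + 20 * s + 55)) := by
  have hq : 0 < 2 * s ^ 2 + 19 * s + 49 := by positivity
  have hv : 0 < 2 * s ^ 2 + 20 * s + 55 := by positivity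
  have e : 1 - (s + 4) * (s + 4) * ((s + 6) / (2 * s ^ 2 + 19 * s + 49)) ^ 2
    - (s + 4) * ((s + 6) / (2 * s ^ 2 + 19 * s + 49))
    - (2 * (s + 5) - 2 * (s + 4)) * ((s + 6) / (2 * s ^ 2 + 20 * s + 55)) =
    (2 * s ^ 6 + 46 * s ^ 5 + 439 * s ^ 4 + 2221 * s ^ 3 + 6320 * s ^ 2 + 9814 * s + 6883) /
      ((2 * s ^ 2 + 19 * s + 49) ^ 2 * (2 * s ^ 2 + 20 * s + 55)) := by
    field_simp
    ring
  rw [e]
  positivity

lemma nDr (hs : 0 ≤ s) : 0 < 1 - (s + 5) * (s + 4) * ((s + 6) / (2 * s ^ 2 + 19 * s + 49)) ^ 2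
    - (s + 5) * ((s + 6) / (2 * s ^ 2 + 19 * s + 49))
    - (2 * (s + 5) - 2 * (s + 5)) * ((s + 6) / (2 * s ^ 2 + 20 * s + 55)) := by
  have hq : 0 < 2 * s ^ 2 + 19 * s + 49 := by positivity
  have hv : 0 < 2 * s ^ 2 + 20 * s + 55 := by positivity
  have e : 1 - (s + 5) * (s + 4) * ((s + 6) / (2 * s ^ 2 + 19 * s + 49)) ^ 2
    - (s + 5) * ((s + 6) / (2 * s ^ 2 + 19 * s + 49))
    - (2 * (s + 5) - 2 * (s + 5)) * ((s + 6) / (2 * s ^ 2 + 20 * s + 55)) =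
    (1 * s ^ 4 + 14 * s ^ 3 + 75 * s ^ 2 + 189 * s + 211) /
      ((2 * s ^ 2 + 19 * s + 49) ^ 2) := by
    field_simp
    ring
  rw [e]
  positivity

lemma nG1 (hs : 0 ≤ s) : 0 ≤ (4 * s ^ 2 + 27 * s + 55) / (2 * (s + 5)) *
    (1 - 1 * 1 * ((s + 6) / (2 * s ^ 2 + 19 * s + 49)) ^ 2
    - 1 * ((s + 6) / (2 * s ^ 2 + 19 * s + 49))
    - ((2 * (s + 5) - 2) - 2 * 1) * ((s + 6) / (2 * s ^ 2 + 20 * s + 55))) - 1
    - 1 * ((s + 6) / (2 * s ^ 2 + 19 * s + 49)) := by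
  have hq : 0 < 2 * s ^ 2 + 19 * s + 49 := by positivity
  have hv : 0 < 2 * s ^ 2 + 20 * s + 55 := by positivity
  have h5 : 0 < s + 5 := by positivity
  have e : (4 * s ^ 2 + 27 * s + 55) / (2 * (s + 5)) *
    (1 - 1 * 1 * ((s + 6) / (2 * s ^ 2 + 19 * s + 49)) ^ 2
    - 1 * ((s + 6) / (2 * s ^ 2 + 19 * s + 49))
    - ((2 * (s + 5) - 2) - 2 * 1) * ((s + 6) / (2 * s ^ 2 + 20 * s + 55))) - 1
    - 1 * ((s + 6) / (2 * s ^ 2 + 19 * s + 49)) =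
    (52 * s ^ 6 + 1128 * s ^ 5 + 9974 * s ^ 4 + 44999 * s ^ 3 + 105096 * s ^ 2 + 109988 * s
      + 28545) /
      (2 * (s + 5) * (2 * s ^ 2 + 19 * s + 49) ^ 2 * (2 * s ^ 2 + 20 * s + 55)) := by
    field_simp
    ring
  rw [e]
  positivity

lemma nGr2 (hs : 0 ≤ s) : 0 ≤ (4 * s ^ 2 + 27 * s + 55) / (2 * (s + 5)) *
    (1 - (s + 3) * (s + 3) * ((s + 6) / (2 * s ^ 2 + 19 * s + 49)) ^ 2
    - (s + 3) * ((s + 6) / (2 * s ^ 2 + 19 * s + 49))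
    - ((2 * (s + 5) - 2) - 2 * (s + 3)) * ((s + 6) / (2 * s ^ 2 + 20 * s + 55))) - 1
    - (s + 3) * ((s + 6) / (2 * s ^ 2 + 19 * s + 49)) := by
  have hq : 0 < 2 * s ^ 2 + 19 * s + 49 := by positivity
  have hv : 0 < 2 * s ^ 2 + 20 * s + 55 := by positivity
  have h5 : 0 < s + 5 := by positivity
  have e : (4 * s ^ 2 + 27 * s + 55) / (2 * (s + 5)) *
    (1 - (s + 3) * (s + 3) * ((s + 6) / (2 * s ^ 2 + 19 * s + 49)) ^ 2
    - (s + 3) * ((s + 6) / (2 * s ^ 2 + 19 * s + 49))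
    - ((2 * (s + 5) - 2) - 2 * (s + 3)) * ((s + 6) / (2 * s ^ 2 + 20 * s + 55))) - 1
    - (s + 3) * ((s + 6) / (2 * s ^ 2 + 19 * s + 49)) =
    (8 * s ^ 8 + 246 * s ^ 7 + 3328 * s ^ 6 + 25715 * s ^ 5 + 123096 * s ^ 4 + 369103 * s ^ 3
      + 663215 * s ^ 2 + 629516 * s + 224565) /
      (2 * (s + 5) * (2 * s ^ 2 + 19 * s + 49) ^ 2 * (2 * s ^ 2 + 20 * s + 55)) := by
    field_simp
    ring
  rw [e]
  positivity

lemma nGr1 (hs : 0 ≤ s) : 0 ≤ (4 * s ^ 2 + 27 * s + 55) / (2 * (s + 5)) *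
    (1 - (s + 4) * (s + 3) * ((s + 6) / (2 * s ^ 2 + 19 * s + 49)) ^ 2
    - (s + 4) * ((s + 6) / (2 * s ^ 2 + 19 * s + 49))
    - ((2 * (s + 5) - 2) - 2 * (s + 4)) * ((s + 6) / (2 * s ^ 2 + 20 * s + 55))) - 1
    - (s + 4) * ((s + 6) / (2 * s ^ 2 + 19 * s + 49)) := by
  have hq : 0 < 2 * s ^ 2 + 19 * s + 49 := by positivity
  have hv : 0 < 2 * s ^ 2 + 20 * s + 55 := by positivity
  have h5 : 0 < s + 5 := by positivity
  have e : (4 * s ^ 2 + 27 * s + 55) / (2 * (s + 5)) *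
    (1 - (s + 4) * (s + 3) * ((s + 6) / (2 * s ^ 2 + 19 * s + 49)) ^ 2
    - (s + 4) * ((s + 6) / (2 * s ^ 2 + 19 * s + 49))
    - ((2 * (s + 5) - 2) - 2 * (s + 4)) * ((s + 6) / (2 * s ^ 2 + 20 * s + 55))) - 1
    - (s + 4) * ((s + 6) / (2 * s ^ 2 + 19 * s + 49)) =
    (4 * s ^ 6 + 87 * s ^ 5 + 803 * s ^ 4 + 3958 * s ^ 3 + 10746 * s ^ 2 + 14777 * s + 7845) /
      (2 * (s + 5) * (2 * s ^ 2 + 19 * s + 49) ^ 2) := by
    field_simp
    ring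
  rw [e]
  positivity

lemma nTau (hs : 0 ≤ s) : ((s + 6) / (2 * s ^ 2 + 19 * s + 49)) *
    ((1 + (s + 6) / (2 * s ^ 2 + 19 * s + 49)) *
      (1 + 2 * ((s + 6) / (2 * s ^ 2 + 19 * s + 49))) *
      ((4 * s ^ 2 + 27 * s + 55) / (2 * (s + 5)))
    + (3 * ((s + 6) / (2 * s ^ 2 + 19 * s + 49)) ^ 2 +
      ((s + 6) / (2 * s ^ 2 + 19 * s + 49)) ^ 3) * ((2 * s ^ 2 + 19 * s + 49) / 7)
    + ((s + 6) / (2 * s ^ 2 + 19 * s + 49)) ^ 2) < 1 := by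
  have hq : 0 < 2 * s ^ 2 + 19 * s + 49 := by positivity
  have hv : 0 < 2 * s ^ 2 + 20 * s + 55 := by positivity
  have h5 : 0 < s + 5 := by positivity
  have e : 1 - ((s + 6) / (2 * s ^ 2 + 19 * s + 49)) *
    ((1 + (s + 6) / (2 * s ^ 2 + 19 * s + 49)) *
      (1 + 2 * ((s + 6) / (2 * s ^ 2 + 19 * s + 49))) *
      ((4 * s ^ 2 + 27 * s + 55) / (2 * (s + 5)))
    + (3 * ((s + 6) / (2 * s ^ 2 + 19 * s + 49)) ^ 2 +
      ((s + 6) / (2 * s ^ 2 + 19 * s + 49)) ^ 3) * ((2 * s ^ 2 + 19 * s + 49) / 7)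
    + ((s + 6) / (2 * s ^ 2 + 19 * s + 49)) ^ 2) =
    (16 * s ^ 6 + 518 * s ^ 5 + 6788 * s ^ 4 + 45769 * s ^ 3 + 163612 * s ^ 2 + 277381 * s
      + 139780) / (14 * (s + 5) * (2 * s ^ 2 + 19 * s + 49) ^ 3) := by
    field_simp
    ring
  rw [← sub_pos, e]
  positivity

end five

lemma zr_eq {r : ℕ} {s : ℝ} (h : (r : ℝ) = s + 5) :
    zr r = (s + 6) / (2 * s ^ 2 + 19 * s + 49) := by
  unfold zr
  rw [h]
  congr 1 <;> ring

lemma wr_eq {r : ℕ} {s : ℝ} (hs : 0 ≤ s) (h : (r : ℝ) = s + 5) :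
    zr r / (1 + zr r) = (s + 6) / (2 * s ^ 2 + 20 * s + 55) := by
  rw [zr_eq h]
  have hq : 0 < 2 * s ^ 2 + 19 * s + 49 := by positivity
  have hv : 0 < 2 * s ^ 2 + 20 * s + 55 := by positivity
  have hq' : 0 < 1 + (s + 6) / (2 * s ^ 2 + 19 * s + 49) := by positivity
  rw [div_eq_div_iff hq'.ne' hv.ne']
  field_simp
  ring

lemma Tr_eq {r : ℕ} {s : ℝ} (h : (r : ℝ) = s + 5) :
    Tr r = (4 * s ^ 2 + 27 * s + 55) / (2 * (s + 5)) := by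
  unfold Tr
  rw [h]
  congr 1
  ring

lemma Φr_eq {r : ℕ} {s : ℝ} (h : (r : ℝ) = s + 5) :
    Φr r = (2 * s ^ 2 + 19 * s + 49) / 7 := by
  unfold Φr
  rw [h]
  congr 1
  ring

lemma exists_s {r : ℕ} (hr : 5 ≤ r) : ∃ s : ℝ, 0 ≤ s ∧ (r : ℝ) = s + 5 := by
  refine ⟨r - 5, ?_, by ring⟩
  have : (5 : ℝ) ≤ r := by exact_mod_cast hr
  linarith

/-- second level, generic case -/
lemma star2 {r : ℕ} (hr : 5 ≤ r) {m : ℕ} (hm : 1 ≤ m) (hm2 : 2 * m < 2 * r - 2) :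
    Star (2 * r - 2) (zr r) (Tr r) m m := by
  obtain ⟨s, hs, h⟩ := exists_s hr
  rw [star_iff]
  have hN : ((2 * r - 2 : ℕ) : ℝ) = 2 * (s + 5) - 2 := by
    rw [Nat.cast_sub (by omega)]
    push_cast
    rw [h]
  have h1 := nG1 hs
  have h2 := nGr2 hs
  rw [← zr_eq h, ← wr_eq hs h, ← Tr_eq h] at h1 h2
  rw [hN]
  have hT : 0 ≤ Tr r := by
    rw [Tr_eq h]; positivity
  have ha : 0 ≤ Tr r * (zr r) ^ 2 := by positivity
  have hm' : (1 : ℝ) ≤ m := by exact_mod_cast hm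
  have hm2' : (m : ℝ) ≤ s + 3 := by
    have : ((m + 2 : ℕ) : ℝ) ≤ r := by
      exact_mod_cast (by omega : m + 2 ≤ r)
    push_cast at this
    rw [h] at this
    linarith
  have := concave_aux (a := Tr r * (zr r) ^ 2)
    (b := - (Tr r * zr r) + 2 * Tr r * (zr r / (1 + zr r)) - zr r)
    (c := Tr r - 1 - Tr r * (2 * (s + 5) - 2) * (zr r / (1 + zr r)))
    (x0 := 1) (x1 := s + 3) (x := m) ha (by nlinarith [h1]) (by nlinarith [h2]) hm' hm2'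
  nlinarith [this]

/-- second level, balanced case -/
lemma star2' {r : ℕ} (hr : 5 ≤ r) {m : ℕ} (hm : 2 * m = 2 * r - 2) :
    Star (2 * r - 2) (zr r) (Tr r) m (m - 1) := by
  obtain ⟨s, hs, h⟩ := exists_s hr
  rw [star_iff]
  have hN : ((2 * r - 2 : ℕ) : ℝ) = 2 * (s + 5) - 2 := by
    rw [Nat.cast_sub (by omega)]
    push_cast
    rw [h]
  have hm1 : (m : ℝ) = s + 4 := by
    have : ((m + 1 : ℕ) : ℝ) = r := by exact_mod_cast (by omega : m + 1 = r)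
    push_cast at this
    linarith
  have hm2 : ((m - 1 : ℕ) : ℝ) = s + 3 := by
    rw [Nat.cast_sub (by omega), hm1]
    push_cast
    ring
  have h1 := nGr1 hs
  rw [← zr_eq h, ← wr_eq hs h, ← Tr_eq h] at h1
  rw [hN, hm1, hm2]
  exact h1

lemma tau_lt {r : ℕ} (hr : 5 ≤ r) : zr r * ((1 + zr r) * (1 + 2 * zr r) * Tr r +
    (3 * zr r ^ 2 + zr r ^ 3) * Φr r + zr r ^ 2) < 1 := by
  obtain ⟨s, hs, h⟩ := exists_s hr
  rw [zr_eq h, Tr_eq h, Φr_eq h]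
  exact nTau hs

lemma Φr_eqn (r : ℕ) (hr : 1 ≤ r) :
    1 + (((2 * r - 2 : ℕ) : ℝ) - 1) * (zr r * Φr r) ≤ Φr r := by
  have hq := (den_pos r).ne'
  have e : zr r * Φr r = ((r : ℝ) + 1) / 7 := by
    unfold zr Φr
    rw [div_mul_div_comm, mul_comm ((r : ℝ) + 1) _, mul_div_mul_left _ _ hq]
  rw [e, Nat.cast_sub (by omega)]
  unfold Φr
  push_cast
  apply le_of_eq
  ring

/-- first level -/
lemma star1 {r : ℕ} (hr : 3 ≤ r) {m0 : ℕ} (hm0 : (m0 = 2 ∧ 5 ≤ r) ∨ (m0 = 1 ∧ (r = 3 ∨ r = 4))) :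
    ∃ T : ℝ, 0 ≤ T ∧ (∀ m, m0 ≤ m → 2 * m < 2 * r → Star (2 * r) (zr r) T m m) ∧
      (∀ m, 2 * m = 2 * r → Star (2 * r) (zr r) T m (m - 1)) := by
  -- it suffices to bound the determinants from below
  suffices H : ∃ δ : ℝ, 0 < δ ∧ (∀ m : ℕ, m0 ≤ m → m < r →
      δ ≤ 1 - m * m * zr r ^ 2 - m * zr r - ((2 * r : ℝ) - 2 * m) * (zr r / (1 + zr r))) ∧
      δ ≤ 1 - r * ((r : ℝ) - 1) * zr r ^ 2 - r * zr r by
    obtain ⟨δ, hδ, h1, h2⟩ := H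
    have hz := zr_pos r
    refine ⟨(1 + r * zr r) / δ, by positivity, ?_, ?_⟩
    · intro m hm hm'
      rw [star_iff]
      push_cast
      have hmr : (m : ℝ) ≤ r := by exact_mod_cast (by omega : m ≤ r)
      have e1 : (1 + r * zr r) / δ * δ ≤ (1 + r * zr r) / δ *
        (1 - m * m * zr r ^ 2 - m * zr r - ((2 * r : ℝ) - 2 * m) * (zr r / (1 + zr r))) :=
        mul_le_mul_of_nonneg_left (h1 m hm (by omega)) (by positivity)
      rw [div_mul_cancel₀ _ hδ.ne'] at e1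
      have e2 : (m : ℝ) * zr r ≤ r * zr r := mul_le_mul_of_nonneg_right hmr hz.le
      linarith
    · intro m hm
      have hmr : m = r := by omega
      subst hmr
      rw [star_iff]
      push_cast [Nat.cast_sub (by omega : 1 ≤ m)]
      have e1 : (1 + m * zr m) / δ * δ ≤ (1 + m * zr m) / δ *
        (1 - m * ((m : ℝ) - 1) * zr m ^ 2 - m * zr m) :=
        mul_le_mul_of_nonneg_left h2 (by positivity)
      rw [div_mul_cancel₀ _ hδ.ne'] at e1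
      have e3 : (2 * (m : ℝ) - 2 * m) * (zr m / (1 + zr m)) = 0 := by ring
      rw [e3]
      linarith
  rcases hm0 with ⟨rfl, hr5⟩ | ⟨rfl, hr34⟩
  · obtain ⟨s, hs, h⟩ := exists_s hr5
    have h1 := nD22 hs
    have h2 := nDr1 hs
    have h3 := nDr hs
    rw [← zr_eq h, ← wr_eq hs h] at h1 h2 h3
    set d1 := 1 - 2 * 2 * zr r ^ 2 - 2 * zr r - (2 * (s + 5) - 2 * 2) * (zr r / (1 + zr r))
      with hd1
    set d2 := 1 - (s + 4) * (s + 4) * zr r ^ 2 - (s + 4) * zr r -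
      (2 * (s + 5) - 2 * (s + 4)) * (zr r / (1 + zr r)) with hd2
    set d3 := 1 - (s + 5) * (s + 4) * zr r ^ 2 - (s + 5) * zr r -
      (2 * (s + 5) - 2 * (s + 5)) * (zr r / (1 + zr r)) with hd3
    refine ⟨min d1 (min d2 d3), by positivity, ?_, ?_⟩
    · intro m hm hmr
      have hm' : (2 : ℝ) ≤ m := by exact_mod_cast hm
      have hm2' : (m : ℝ) ≤ s + 4 := by
        have : ((m + 1 : ℕ) : ℝ) ≤ r := by exact_mod_cast hmr
        push_cast at this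
        rw [h] at this
        linarith
      set δ := min d1 (min d2 d3) with hδ
      have e1 : δ ≤ d1 := min_le_left _ _
      have e2 : δ ≤ d2 := (min_le_right _ _).trans (min_le_left _ _)
      rw [hd1] at e1
      rw [hd2] at e2
      have := concave_aux (a := zr r ^ 2) (b := - zr r + 2 * (zr r / (1 + zr r)))
        (c := 1 - δ - 2 * (s + 5) * (zr r / (1 + zr r))) (x0 := 2) (x1 := s + 4) (x := m)
        (by positivity) (by nlinarith [e1]) (by nlinarith [e2]) hm' hm2'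
      rw [h]
      nlinarith [this]
    · refine ((min_le_right _ _).trans (min_le_right _ _)).trans (le_of_eq ?_)
      rw [hd3, h]
      ring
  · rcases hr34 with rfl | rfl
    · refine ⟨1 / 100, by norm_num, ?_, ?_⟩
      · intro m hm hmr
        unfold zr
        interval_cases m <;> norm_num
      · unfold zr
        norm_num
    · refine ⟨1 / 200, by norm_num, ?_, ?_⟩
      · intro m hm hmr
        unfold zr
        interval_cases m <;> norm_num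
      · unfold zr
        norm_num

end Pool.Agent.Helper35.PP
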