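import Mathlib
import Pool.Agent.Helper35.PP.Cover
import Pool.Agent.Helper35.PP.Numeric

/-!
Helper file for MP_bec853_al: the total generating function is finite.
-/

namespace Pool.Agent.Helper35.PP

open FreeGroup Filter
open scoped ENNReal

section

variable {α : Type*} [DecidableEq α] [Fintype α]

noncomputable instance datFintype : Fintype (Dat α) := by
  classical
  exact Fintype.ofInjective
    (fun d : Dat α => (d.i, d.s0, d.ℓ, d.A, d.B, d.t, d.t'))
    (by
      rintro ⟨i, s0, ℓ, A, B, t, t'⟩ ⟨i2, s02, ℓ2, A2, B2, t2, t2'⟩ h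
      simp only [Prod.mk.injEq] at h
      obtain ⟨h1, h2, h3, h4, h5, h6, h7⟩ := h
      subst h1 h2 h3 h4 h5 h6 h7
      rfl)

lemma W_Pow1_lt_top {z : ℝ} (hz : 0 ≤ z) (hz1 : z < 1) :
    W (ENNReal.ofReal z) (Pow1 α) < ⊤ := by
  classical
  have hsub : Pow1 α ⊆ ⋃ x : α × Bool, Ch {x} (fun _ _ => True) := by
    rintro c ⟨x, n, rfl⟩
    rw [Set.mem_iUnion]
    refine ⟨x, ?_, ?_⟩
    · intro y hy
      rw [List.mem_replicate] at hy
      rw [hy.2]
      exact Finset.mem_singleton_self x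
    · exact List.isChain_replicate_of_rel _ trivial
  refine lt_of_le_of_lt ((W_mono hsub).trans (W_iUnion_le _ _)) ?_
  apply ENNReal.sum_lt_top.2
  intro x _
  have h1z : 0 < 1 - z := by linarith
  refine lt_of_le_of_lt (W_Ch_le_real (u := fun _ => z / (1 - z)) hz
    (fun _ => by positivity) ?_) ENNReal.ofReal_lt_top
  intro y _
  simp only [Finset.filter_true, Finset.sum_const, Finset.card_singleton, one_smul]
  apply le_of_eq
  field_simp
  ring

lemma W_L2_lt_top (hr : 5 ≤ Fintype.card α) {d : Dat α} (hd : d.Valid) :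
    W (ENNReal.ofReal (zr (Fintype.card α))) (L2 d.i d.Bk) < ⊤ := by
  set r := Fintype.card α with hrdef
  set z := zr r with hz
  set T := Tr r with hT
  set Φ := Φr r with hΦ
  have hz0 : 0 < z := zr_pos r
  obtain ⟨s, hs, hs5⟩ := exists_s hr
  have hT0 : 0 ≤ T := by rw [hT, Tr_eq hs5]; positivity
  have hΦ0 : 0 ≤ Φ := by rw [hΦ, Φr_eq hs5]; positivity
  have hcard : (Zi d.i).card = 2 * r - 2 := Zi_card d.i
  have hΦe : 1 + (((Zi d.i).card : ℝ) - 1) * (z * Φ) ≤ Φ := by
    rw [hcard]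
    exact Φr_eqn r (by omega)
  have hLang : W (ENNReal.ofReal z) (Lang (Zi d.i) d.A d.B) ≤ ENNReal.ofReal T := by
    apply Lang_le (Zi_nv d.i) hd.hA hd.hB hd.dis hd.miss hd.neA hd.neB hz0 hT0
    · intro m hm hm2
      rw [hcard] at hm2 ⊢
      exact star2 hr hm hm2
    · intro m hm
      rw [hcard] at hm ⊢
      exact star2' hr hm
  set ω1 := z ^ 2 * Φ + (z ^ 2 * Φ + (1 + z) * (T * (1 + z))) with hω1
  set ω2 := z ^ 2 * Φ + ((z ^ 2 + z * (z ^ 2 * Φ)) + z * (T * (1 + z))) with hω2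
  have hω10 : 0 ≤ ω1 := by positivity
  have hω20 : 0 ≤ ω2 := by positivity
  have hF := W_Zr (Zi_nv d.i) hz0.le hΦ0 hΦe
  refine L2_lt_top (ω := fun s => if s = d.s0 then ENNReal.ofReal ω2 else ENNReal.ofReal ω1)
    ENNReal.ofReal_lt_top hF ?_ ?_ ?_
  · intro s σ
    unfold Dat.Bk
    split_ifs
    · exact W_BlkH (Zi_nv d.i) hz0.le hΦ0 hΦe hT0 hLang _ _ _
    · exact W_Blk (Zi_nv d.i) hz0.le hΦ0 hΦe hT0 hLang _ _
  · have hsum : ((if true = d.s0 then ENNReal.ofReal ω2 else ENNReal.ofReal ω1) +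
        (if false = d.s0 then ENNReal.ofReal ω2 else ENNReal.ofReal ω1)) =
        ENNReal.ofReal (ω1 + ω2) := by
      rw [ENNReal.ofReal_add hω10 hω20]
      cases d.s0
      · simp
      · simp [add_comm]
    rw [hsum, ← ENNReal.ofReal_mul hz0.le, ENNReal.ofReal_lt_one]
    have h := tau_lt hr
    rw [← hz, ← hT, ← hΦ] at h
    refine lt_of_eq_of_lt ?_ h
    rw [hω1, hω2]
    ring
  · intro s
    split_ifs <;> exact ENNReal.ofReal_lt_top

/-- cyclically reduced words which are potentially positive -/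
def CC (α : Type*) [DecidableEq α] : Set (List (α × Bool)) :=
  {c | FreeGroup.IsCyclicallyReduced c ∧ Adm (FreeGroup.mk c)}

lemma univ_nv : ∀ x ∈ (Finset.univ : Finset (α × Bool)), nv x ∈ (Finset.univ : Finset (α × Bool)) :=
  fun _ _ => Finset.mem_univ _

lemma W_level1 (hr : 3 ≤ Fintype.card α) {m0 : ℕ}
    (hm0 : (m0 = 2 ∧ 5 ≤ Fintype.card α) ∨ (m0 = 1 ∧ (Fintype.card α = 3 ∨ Fintype.card α = 4)))
    {A B : Finset (α × Bool)} (hdis : Disjoint A B)
    (hmiss : (Finset.univ \ (A ∪ B)).card ≤ 1) (hA : m0 ≤ A.card) (hB : m0 ≤ B.card) :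
    W (ENNReal.ofReal (zr (Fintype.card α))) (Lang Finset.univ A B) < ⊤ := by
  obtain ⟨T, hT0, h1, h2⟩ := star1 hr hm0
  have hcard : (Finset.univ : Finset (α × Bool)).card = 2 * Fintype.card α := by
    rw [Finset.card_univ, Fintype.card_prod, Fintype.card_bool, mul_comm]
  refine lt_of_le_of_lt (Lang_le univ_nv (Finset.subset_univ _) (Finset.subset_univ _) hdis hmiss
    hA hB (zr_pos _) hT0 ?_ ?_) ENNReal.ofReal_lt_top
  · rw [hcard]; exact h1
  · rw [hcard]; exact h2

lemma zr_lt_one {r : ℕ} (hr : 3 ≤ r) : zr r < 1 := by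
  unfold zr
  rw [div_lt_one (den_pos r)]
  have : (3 : ℝ) ≤ r := by exact_mod_cast hr
  nlinarith

lemma W_CC_lt_top (hr : 3 ≤ Fintype.card α) :
    W (ENNReal.ofReal (zr (Fintype.card α))) (CC α) < ⊤ := by
  classical
  set z := ENNReal.ofReal (zr (Fintype.card α)) with hz
  obtain ⟨z1, z2, hz12⟩ : ∃ z1 z2 : α, z1 ≠ z2 := by
    have : 1 < Fintype.card α := by omega
    exact Fintype.exists_pair_of_one_lt_card this
  have hP : W z (Pow1 α) < ⊤ := W_Pow1_lt_top (zr_pos _).le (zr_lt_one hr)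
  have hinvle : ∀ S : Set (List (α × Bool)), W z (FreeGroup.invRev ⁻¹' S) ≤ W z S := by
    intro S
    exact W_preimage_le _ _ FreeGroup.invRev_injective (fun w => FreeGroup.invRev_length) _
  by_cases h5 : 5 ≤ Fintype.card α
  · set S1 : Set (List (α × Bool)) := ⋃ p : Finset (α × Bool) × Finset (α × Bool),
      {c | (Disjoint p.1 p.2 ∧ (Finset.univ \ (p.1 ∪ p.2)).card ≤ 1 ∧ 2 ≤ p.1.card ∧
        2 ≤ p.2.card) ∧ c ∈ Lang Finset.univ p.1 p.2} with hS1
    set S2 : Set (List (α × Bool)) := ⋃ d : Dat α, {c | d.Valid ∧ c ∈ L2 d.i d.Bk} with hS2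
    have hsub : CC α ⊆ S1 ∪ (Pow1 α ∪ (S2 ∪ (FreeGroup.invRev ⁻¹' (Pow1 α) ∪
        FreeGroup.invRev ⁻¹' S2))) := by
      rintro c ⟨hc, hadm⟩
      obtain ⟨A, B, h1, h2, h3, h4, h5, h6⟩ := cover hc hadm hz12
      rcases h6 with h6 | h6 | ⟨d, hd, h6⟩ | h6 | ⟨d, hd, h6⟩
      · left
        rw [hS1, Set.mem_iUnion]
        exact ⟨(A, B), ⟨h1, h2, h6.1, h6.2⟩, h5⟩
      · right; left; exact h6
      · right; right; left
        rw [hS2, Set.mem_iUnion]
        exact ⟨d, hd, h6⟩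
      · right; right; right; left; exact h6
      · right; right; right; right
        rw [Set.mem_preimage, hS2, Set.mem_iUnion]
        exact ⟨d, hd, h6⟩
    have hW1 : W z S1 < ⊤ := by
      refine lt_of_le_of_lt (W_iUnion_le _ _) (ENNReal.sum_lt_top.2 ?_)
      rintro ⟨A, B⟩ _
      by_cases hv : (Disjoint A B ∧ (Finset.univ \ (A ∪ B)).card ≤ 1 ∧ 2 ≤ A.card ∧ 2 ≤ B.card)
      · refine lt_of_le_of_lt (W_mono (fun c hc => hc.2)) ?_
        exact W_level1 hr (Or.inl ⟨rfl, h5⟩) hv.1 hv.2.1 hv.2.2.1 hv.2.2.2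
      · have : {c : List (α × Bool) | (Disjoint A B ∧ (Finset.univ \ (A ∪ B)).card ≤ 1 ∧
            2 ≤ A.card ∧ 2 ≤ B.card) ∧ c ∈ Lang Finset.univ A B} = ∅ := by
          ext c
          simp only [Set.mem_empty_iff_false, iff_false]
          exact fun hc => hv hc.1
        simp only
        rw [this, W_empty]
        exact ENNReal.zero_lt_top
    have hW2 : W z S2 < ⊤ := by
      refine lt_of_le_of_lt (W_iUnion_le _ _) (ENNReal.sum_lt_top.2 ?_)
      intro d _
      by_cases hv : d.Valid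
      · refine lt_of_le_of_lt (W_mono (fun c hc => hc.2)) ?_
        exact W_L2_lt_top h5 hv
      · have : {c : List (α × Bool) | d.Valid ∧ c ∈ L2 d.i d.Bk} = ∅ := by
          ext c
          simp only [Set.mem_empty_iff_false, iff_false]
          exact fun hc => hv hc.1
        rw [this, W_empty]
        exact ENNReal.zero_lt_top
    refine lt_of_le_of_lt ((W_mono hsub).trans (W_union_le _ _ _)) ?_
    refine ENNReal.add_lt_top.2 ⟨hW1, lt_of_le_of_lt (W_union_le _ _ _) ?_⟩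
    refine ENNReal.add_lt_top.2 ⟨hP, lt_of_le_of_lt (W_union_le _ _ _) ?_⟩
    refine ENNReal.add_lt_top.2 ⟨hW2, lt_of_le_of_lt (W_union_le _ _ _) ?_⟩
    exact ENNReal.add_lt_top.2 ⟨lt_of_le_of_lt (hinvle _) hP, lt_of_le_of_lt (hinvle _) hW2⟩
  · have h34 : Fintype.card α = 3 ∨ Fintype.card α = 4 := by omega
    have hsub : CC α ⊆ ⋃ p : Finset (α × Bool) × Finset (α × Bool),
      {c | (Disjoint p.1 p.2 ∧ (Finset.univ \ (p.1 ∪ p.2)).card ≤ 1 ∧ 1 ≤ p.1.card ∧
        1 ≤ p.2.card) ∧ c ∈ Lang Finset.univ p.1 p.2} := by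
      rintro c ⟨hc, hadm⟩
      obtain ⟨A, B, h1, h2, h3, h4, h5, -⟩ := cover hc hadm hz12
      rw [Set.mem_iUnion]
      exact ⟨(A, B), ⟨h1, h2, h3, h4⟩, h5⟩
    refine lt_of_le_of_lt (W_mono hsub) (lt_of_le_of_lt (W_iUnion_le _ _)
      (ENNReal.sum_lt_top.2 ?_))
    rintro ⟨A, B⟩ _
    by_cases hv : (Disjoint A B ∧ (Finset.univ \ (A ∪ B)).card ≤ 1 ∧ 1 ≤ A.card ∧ 1 ≤ B.card)
    · refine lt_of_le_of_lt (W_mono (fun c hc => hc.2)) ?_
      exact W_level1 hr (Or.inr ⟨rfl, h34⟩) hv.1 hv.2.1 hv.2.2.1 hv.2.2.2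
    · have : {c : List (α × Bool) | (Disjoint A B ∧ (Finset.univ \ (A ∪ B)).card ≤ 1 ∧
          1 ≤ A.card ∧ 1 ≤ B.card) ∧ c ∈ Lang Finset.univ A B} = ∅ := by
        ext c
        simp only [Set.mem_empty_iff_false, iff_false]
        exact fun hc => hv hc.1
      simp only
      rw [this, W_empty]
      exact ENNReal.zero_lt_top

/-- conjugates -/
def Cj (G C : Set (List (α × Bool))) : Set (List (α × Bool)) :=
  {w | ∃ g ∈ G, ∃ c ∈ C, w = g ++ c ++ FreeGroup.invRev g}

lemma W_Cj_le (z : ℝ≥0∞) (G C : Set (List (α × Bool))) :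
    W z (Cj G C) ≤ W (z ^ 2) G * W z C := by
  have hs : Function.Surjective (fun p : G × C =>
      (⟨p.1.1 ++ p.2.1 ++ FreeGroup.invRev p.1.1, ⟨p.1.1, p.1.2, p.2.1, p.2.2, rfl⟩⟩ :
        Cj G C)) := by
    rintro ⟨w, a, ha, b, hb, rfl⟩
    exact ⟨(⟨a, ha⟩, ⟨b, hb⟩), rfl⟩
  calc W z (Cj G C) ≤ ∑' p : G × C, z ^ (p.1.1 ++ p.2.1 ++ FreeGroup.invRev p.1.1).length :=
        ENNReal.tsum_le_tsum_comp_of_surjective hs
          (fun w : Cj G C => z ^ (w : List (α × Bool)).length)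
    _ = ∑' p : G × C, (z ^ 2) ^ (p.1.1).length * z ^ (p.2.1).length := by
        congr 1
        ext p
        rw [List.length_append, List.length_append, FreeGroup.invRev_length, ← pow_mul, ← pow_add]
        congr 1
        ring
    _ = W (z ^ 2) G * W z C := by
        rw [ENNReal.tsum_prod (f := fun (a : G) (b : C) =>
          (z ^ 2) ^ (a : List (α × Bool)).length * z ^ (b : List (α × Bool)).length)]
        simp only [ENNReal.tsum_mul_left, ENNReal.tsum_mul_right]
        rfl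

lemma W_all_lt_top (hr : 3 ≤ Fintype.card α) :
    W (ENNReal.ofReal (zr (Fintype.card α))) {w | ∃ u : FreeGroup α, Adm u ∧ w = u.toWord} < ⊤ := by
  set z := zr (Fintype.card α) with hz
  have hz0 : 0 < z := zr_pos _
  have hsub : {w | ∃ u : FreeGroup α, Adm u ∧ w = u.toWord} ⊆
      Cj (Zr (Finset.univ : Finset (α × Bool))) (CC α) := by
    rintro w ⟨u, hu, rfl⟩
    have e := FreeGroup.reduceCyclically.conj_conjugator_reduceCyclically u.toWord
    refine ⟨FreeGroup.reduceCyclically.conjugator u.toWord, ⟨fun x _ => Finset.mem_univ x, ?_⟩,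
      FreeGroup.reduceCyclically u.toWord, ⟨?_, ?_⟩, e.symm⟩
    · apply chain_of_reduced
      apply red_of (isReduced_toWord (x := u))
      exact ⟨[], FreeGroup.reduceCyclically u.toWord ++
        FreeGroup.invRev (FreeGroup.reduceCyclically.conjugator u.toWord), by
          rw [List.nil_append, ← List.append_assoc]; exact e⟩
    · exact FreeGroup.reduceCyclically.isCyclicallyReduced isReduced_toWord
    · have h1 := hu.conj (FreeGroup.mk (FreeGroup.reduceCyclically.conjugator u.toWord))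
      convert h1 using 1
      have h2 : u = FreeGroup.mk (FreeGroup.reduceCyclically.conjugator u.toWord) *
          FreeGroup.mk (FreeGroup.reduceCyclically u.toWord) *
          (FreeGroup.mk (FreeGroup.reduceCyclically.conjugator u.toWord))⁻¹ := by
        rw [FreeGroup.inv_mk, FreeGroup.mul_mk, FreeGroup.mul_mk, e, FreeGroup.mk_toWord]
      generalize FreeGroup.mk (FreeGroup.reduceCyclically.conjugator u.toWord) = a at h2 ⊢
      generalize FreeGroup.mk (FreeGroup.reduceCyclically u.toWord) = b at h2 ⊢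
      rw [h2]
      group
  refine lt_of_le_of_lt ((W_mono hsub).trans (W_Cj_le _ _ _)) ?_
  apply ENNReal.mul_lt_top _ (W_CC_lt_top hr)
  rw [← ENNReal.ofReal_pow hz0.le]
  have hr' : (3 : ℝ) ≤ Fintype.card α := by exact_mod_cast hr
  have hq := den_pos (Fintype.card α)
  have hlt : (2 * (Fintype.card α : ℝ) - 1) * z ^ 2 < 1 := by
    rw [hz]
    unfold zr
    rw [div_pow, mul_div_assoc', div_lt_one (by positivity)]
    set R := (Fintype.card α : ℝ)
    nlinarith [mul_nonneg (sub_nonneg.2 hr') (sub_nonneg.2 hr'),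
      mul_nonneg (mul_nonneg (sub_nonneg.2 hr') (sub_nonneg.2 hr')) (sub_nonneg.2 hr'),
      mul_nonneg (mul_nonneg (sub_nonneg.2 hr') (sub_nonneg.2 hr'))
        (mul_nonneg (sub_nonneg.2 hr') (sub_nonneg.2 hr'))]
  have hpos : 0 < 1 - (2 * (Fintype.card α : ℝ) - 1) * z ^ 2 := by linarith
  apply W_Zr (Φ := 1 / (1 - (2 * (Fintype.card α : ℝ) - 1) * z ^ 2)) univ_nv (by positivity)
    (by positivity)
  have hcard : ((Finset.univ : Finset (α × Bool)).card : ℝ) = 2 * Fintype.card α := by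
    rw [Finset.card_univ, Fintype.card_prod, Fintype.card_bool]
    push_cast
    ring
  rw [hcard]
  apply le_of_eq
  field_simp
  ring

end

end Pool.Agent.Helper35.PP
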